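import Mathlib

open Filter

namespace Pool.Agent.Helper903.GR

attribute [local instance] Ultrafilter.mul Ultrafilter.semigroup

theorem exists_min_idem {M : Type*} [Semigroup M] [TopologicalSpace M] [T2Space M]
    [CompactSpace M] [Nonempty M] (hc : ∀ r : M, Continuous (· * r)) :
    ∃ p : M, p * p = p ∧ ∀ r : M, r * r = r → p * r = r → r * p = r → r = p := by
  let S : Set (Set M) := { N | IsClosed N ∧ N.Nonempty ∧ ∀ x, ∀ y ∈ N, x * y ∈ N }
  obtain ⟨L, hL⟩ : ∃ N', Minimal (· ∈ S) N' := by
    refine zorn_superset _ fun c hcs hc' => ?_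
    refine ⟨⋂₀ c, ⟨isClosed_sInter fun t ht => (hcs ht).1, ?_, fun x y hy => ?_⟩, fun s hs =>
      Set.sInter_subset_of_mem hs⟩
    · obtain rfl | hcnemp := c.eq_empty_or_nonempty
      · rw [Set.sInter_empty]
        apply Set.univ_nonempty
      rw [Set.sInter_eq_iInter]
      have := hcnemp.coe_sort
      refine @IsCompact.nonempty_iInter_of_directed_nonempty_isCompact_isClosed _ _ _ this
        ((↑) : c → Set M) ?_ ?_ ?_ ?_
      · refine DirectedOn.directed_val (IsChain.directedOn hc'.symm)
      exacts [fun i => (hcs i.prop).2.1, fun i => (hcs i.prop).1.isCompact,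
        fun i => (hcs i.prop).1]
    · rw [Set.mem_sInter]
      exact fun t ht => (hcs ht).2.2 x y (Set.mem_sInter.mp hy t ht)
  obtain ⟨hLc, hLn, hLm⟩ := hL.prop
  obtain ⟨p, hpL, hp⟩ := exists_idempotent_in_compact_subsemigroup hc L hLn hLc.isCompact
    (fun x _ y hy => hLm x y hy)
  refine ⟨p, hp, fun r hr hpr hrp => ?_⟩
  have h1 : Set.range (fun x => x * r) ⊆ L := by
    rintro _ ⟨x, rfl⟩
    have : x * r = (x * r) * p := by rw [mul_assoc, hrp]
    change x * r ∈ L
    rw [this]
    exact hLm _ _ hpL
  have h2 : Set.range (fun x => x * r) ∈ S := by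
    refine ⟨?_, Set.range_nonempty _, ?_⟩
    · exact (isCompact_range (hc r)).isClosed
    · rintro x _ ⟨y, rfl⟩
      exact ⟨x * y, by simp [mul_assoc]⟩
  have h3 : Set.range (fun x => x * r) = L := hL.eq_of_subset h2 h1
  obtain ⟨x, hx⟩ : p ∈ Set.range (fun x => x * r) := by rw [h3]; exact hpL
  have hx' : x * r = p := hx
  calc r = p * r := hpr.symm
    _ = x * r * r := by rw [hx']
    _ = x * r := by rw [mul_assoc, hr]
    _ = p := hx'

theorem map_mul' {A B : Type*} [Semigroup A] [Semigroup B] (f : A →ₙ* B) (U V : Ultrafilter A) :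
    (U * V).map f = U.map f * V.map f := by
  apply Ultrafilter.coe_inj.mp
  apply Filter.ext'
  intro P
  simp only [Ultrafilter.coe_map, Filter.eventually_map, Ultrafilter.eventually_mul, map_mul]

theorem mem_mul {A : Type*} [Semigroup A] (U V : Ultrafilter A) (s : Set A) :
    s ∈ U * V ↔ ∀ᶠ a in U, ∀ᶠ b in V, a * b ∈ s := by
  exact Ultrafilter.eventually_mul U V (fun a => a ∈ s)


section Words

variable {β : Type*}

/-- embedding of constant words -/
def emb (β : Type*) : FreeMonoid β →ₙ* FreeMonoid (Option β) :=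
  ((FreeMonoid.map some : FreeMonoid β →* FreeMonoid (Option β)) : _ →ₙ* _)

/-- substitution of the letter b for the variable -/
def sub (b : β) : FreeMonoid (Option β) →ₙ* FreeMonoid β :=
  ((FreeMonoid.map (fun o => o.getD b) : FreeMonoid (Option β) →* FreeMonoid β) : _ →ₙ* _)

theorem emb_apply (w : FreeMonoid β) :
    (emb β w) = FreeMonoid.ofList (w.toList.map some) := rfl

theorem sub_apply (b : β) (w : FreeMonoid (Option β)) :
    (sub b w) = FreeMonoid.ofList (w.toList.map (fun o => o.getD b)) := rfl

theorem sub_emb (b : β) (w : FreeMonoid β) : sub b (emb β w) = w := by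
  rw [sub_apply, emb_apply]
  simp

theorem exists_pq [Nonempty β] : ∃ (p : Ultrafilter (FreeMonoid β))
    (q : Ultrafilter (FreeMonoid (Option β))),
    q * q = q ∧ q * p.map (emb β) = q ∧ p.map (emb β) * q = q ∧
    p.map (emb β) * p.map (emb β) = p.map (emb β) ∧
    {w : FreeMonoid (Option β) | none ∈ w.toList} ∈ q ∧ ∀ b : β, q.map (sub b) = p := by
  obtain ⟨p, hpp, hpmin⟩ := exists_min_idem
    (M := Ultrafilter (FreeMonoid β)) Ultrafilter.continuous_mul_left
  set P : Ultrafilter (FreeMonoid (Option β)) := p.map (emb β) with hP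
  have hPP : P * P = P := by
    rw [hP, ← map_mul', hpp]
  set V : Set (FreeMonoid (Option β)) := {w | none ∈ w.toList} with hV
  have hVr : ∀ x y : Ultrafilter (FreeMonoid (Option β)), V ∈ x → V ∈ x * y := by
    intro x y hx
    rw [mem_mul]
    filter_upwards [hx] with a ha
    refine Filter.Eventually.of_forall fun b => ?_
    simp only [hV, Set.mem_ofPred_eq, FreeMonoid.toList_mul, List.mem_append] at ha ⊢
    exact Or.inl ha
  have hVl : ∀ x y : Ultrafilter (FreeMonoid (Option β)), V ∈ y → V ∈ x * y := by
    intro x y hy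
    rw [mem_mul]
    refine Filter.Eventually.of_forall fun a => ?_
    filter_upwards [hy] with b hb
    simp only [hV, Set.mem_ofPred_eq, FreeMonoid.toList_mul, List.mem_append] at hb ⊢
    exact Or.inr hb
  have hK : IsCompact ((fun x : Ultrafilter (FreeMonoid (Option β)) => x * P) '' {x | V ∈ x}) := by
    apply IsCompact.image _ (Ultrafilter.continuous_mul_left P)
    exact (ultrafilter_isClosed_basic V).isCompact
  obtain ⟨e, heK, hee⟩ := exists_idempotent_in_compact_subsemigroup
    (Ultrafilter.continuous_mul_left (M := FreeMonoid (Option β)))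
    ((fun x : Ultrafilter (FreeMonoid (Option β)) => x * P) '' {x | V ∈ x})
    (by
      refine Set.Nonempty.image _ ⟨pure (FreeMonoid.ofList [none]), ?_⟩
      simp [hV]) hK
    (by
      rintro _ ⟨x, hx, rfl⟩ _ ⟨y, hy, rfl⟩
      refine ⟨x * P * y, ?_, ?_⟩
      · change V ∈ x * P * y
        exact hVl (x * P) y hy
      · simp only [mul_assoc])
  obtain ⟨x, hx, hxe⟩ := heK
  have hxe' : x * P = e := hxe
  have heP : e * P = e := by rw [← hxe', mul_assoc, hPP]
  have hVe : V ∈ e := by rw [← hxe']; exact hVr _ _ hx
  have hqP : (P * e) * P = P * e := by rw [mul_assoc, heP]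
  have hPq : P * (P * e) = P * e := by rw [← mul_assoc, hPP]
  have hqq : (P * e) * (P * e) = P * e := by
    rw [← mul_assoc, hqP, mul_assoc, hee]
  refine ⟨p, P * e, hqq, hqP, hPq, hPP, hVl _ _ hVe, fun b => ?_⟩
  have hPb : P.map (sub b) = p := by
    rw [hP, Ultrafilter.map_map]
    have : (sub b : FreeMonoid (Option β) → FreeMonoid β) ∘ (emb β) = id := by
      funext w; exact sub_emb b w
    rw [this, Ultrafilter.map_id]
  apply hpmin
  · rw [← map_mul', hqq]
  · calc p * (P * e).map (sub b) = P.map (sub b) * (P * e).map (sub b) := by rw [hPb]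
      _ = (P * e).map (sub b) := by rw [← map_mul', hPq]
  · calc (P * e).map (sub b) * p = (P * e).map (sub b) * P.map (sub b) := by rw [hPb]
      _ = (P * e).map (sub b) := by rw [← map_mul', hqP]

theorem claim [Finite β] (p : Ultrafilter (FreeMonoid β))
    (q : Ultrafilter (FreeMonoid (Option β)))
    (hqq : q * q = q) (hqP : q * p.map (emb β) = q) (hPq : p.map (emb β) * q = q)
    (hPP : p.map (emb β) * p.map (emb β) = p.map (emb β))
    (hV : {w : FreeMonoid (Option β) | none ∈ w.toList} ∈ q) (hb : ∀ b : β, q.map (sub b) = p)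
    (m : ℕ) : ∀ Q ∈ q, ∀ R ∈ p.map (emb β), ∃ W : List (β ⊕ Fin m), (∀ j, Sum.inr j ∈ W) ∧
      ∀ x : Fin m → Option β,
        ((∃ i, x i = none) → FreeMonoid.ofList (W.map (Sum.elim some x)) ∈ Q) ∧
        ((∀ i, x i ≠ none) → FreeMonoid.ofList (W.map (Sum.elim some x)) ∈ R) := by
  induction m with
  | zero =>
    intro Q hQ R hR
    have hR' : (emb β) ⁻¹' R ∈ p := hR
    obtain ⟨w, hw⟩ := p.nonempty_of_mem hR'
    refine ⟨w.toList.map Sum.inl, fun j => j.elim0, fun x => ⟨fun ⟨i, _⟩ => i.elim0, fun _ => ?_⟩⟩
    have : FreeMonoid.ofList ((w.toList.map Sum.inl).map (Sum.elim some x)) = emb β w := by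
      rw [emb_apply, List.map_map]
      rfl
    rw [this]
    exact hw
  | succ m ih =>
    intro Q hQ R hR
    have h2 : ∀ᶠ w in q, ∀ᶠ v in q, w * v ∈ Q := by
      rw [← mem_mul, hqq]; exact hQ
    have h3 : ∀ᶠ w in q, ∀ b : β, ∀ᶠ v in q, emb β (sub b w) * v ∈ Q := by
      rw [Filter.eventually_all]
      intro b
      have h : ∀ᶠ u in p.map (emb β), ∀ᶠ v in q, u * v ∈ Q := by
        rw [← mem_mul, hPq]; exact hQ
      rw [← hb b] at h
      exact h
    have h4 : ∀ᶠ w in q, ∀ᶠ u in p.map (emb β), w * u ∈ Q := by
      rw [← mem_mul, hqP]; exact hQ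
    have h5 : ∀ᶠ w in q, ∀ b : β, ∀ᶠ u in p.map (emb β), emb β (sub b w) * u ∈ R := by
      rw [Filter.eventually_all]
      intro b
      have h : ∀ᶠ u in p.map (emb β), ∀ᶠ v in p.map (emb β), u * v ∈ R := by
        rw [← mem_mul, hPP]; exact hR
      have h' : ∀ᶠ u in (q.map (sub b)).map (emb β), ∀ᶠ v in p.map (emb β), u * v ∈ R := by
        rw [hb b]; exact h
      exact h'
    have hV' : ∀ᶠ w in (q : Filter (FreeMonoid (Option β))), none ∈ FreeMonoid.toList w := hV
    obtain ⟨w, hw1, hw2, hw3, hw4, hw5⟩ := (hV'.and (h2.and (h3.and (h4.and h5)))).exists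
    obtain ⟨W, hW1, hW2⟩ := ih
      {v | w * v ∈ Q ∧ ∀ b, emb β (sub b w) * v ∈ Q}
      (hw2.and (Filter.eventually_all.mpr hw3))
      {u | w * u ∈ Q ∧ ∀ b, emb β (sub b w) * u ∈ R}
      (hw4.and (Filter.eventually_all.mpr hw5))
    refine ⟨w.toList.map (fun o : Option β => o.elim (Sum.inr 0) Sum.inl) ++ W.map (Sum.map id Fin.succ),
      ?_, ?_⟩
    · intro j
      refine Fin.cases ?_ (fun j => ?_) j
      · refine List.mem_append_left _ ?_
        exact List.mem_map.mpr ⟨none, hw1, rfl⟩
      · refine List.mem_append_right _ ?_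
        exact List.mem_map.mpr ⟨Sum.inr j, hW1 j, rfl⟩
    · intro x
      have key : ∀ x : Fin (m+1) → Option β, FreeMonoid.ofList
          ((w.toList.map (fun o : Option β => (o.elim (Sum.inr 0) Sum.inl : β ⊕ Fin (m+1))) ++
            W.map (Sum.map id Fin.succ)).map (Sum.elim some x)) =
          FreeMonoid.ofList (w.toList.map (fun o : Option β => o.elim (x 0) some)) *
          FreeMonoid.ofList (W.map (Sum.elim some (fun i => x i.succ))) := by
        intro x
        rw [List.map_append, FreeMonoid.ofList_append, List.map_map, List.map_map]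
        congr 2
        · apply List.map_congr_left
          intro o _
          cases o <;> rfl
        · apply List.map_congr_left
          intro o _
          cases o <;> rfl
      rw [key]
      have hn : (FreeMonoid.ofList (w.toList.map (fun o : Option β => o.elim none some)) :
          FreeMonoid (Option β)) = w := by
        have : (fun o : Option β => o.elim none some) = id := by
          funext o; cases o <;> rfl
        rw [this, List.map_id]
        rfl
      have hs : ∀ b, (FreeMonoid.ofList (w.toList.map (fun o : Option β => o.elim (some b) some)) :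
          FreeMonoid (Option β)) = emb β (sub b w) := by
        intro b
        rw [sub_apply, emb_apply, FreeMonoid.toList_ofList, List.map_map]
        congr 1
        apply List.map_congr_left
        intro o _
        cases o <;> rfl
      obtain ⟨hx1, hx2⟩ := hW2 (fun i => x i.succ)
      cases hx0 : x 0 with
      | none =>
        rw [hn]
        constructor
        · intro _
          by_cases hx : ∃ i : Fin m, x i.succ = none
          · exact (hx1 hx).1
          · push Not at hx
            exact (hx2 hx).1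
        · intro h
          exact absurd hx0 (h 0)
      | some b =>
        rw [hs]
        constructor
        · rintro ⟨i, hi⟩
          have hx : ∃ i : Fin m, x i.succ = none := by
            revert hi
            refine Fin.cases ?_ (fun j => ?_) i
            · intro h; rw [hx0] at h; cases h
            · intro h; exact ⟨j, h⟩
          exact (hx1 hx).2 b
        · intro h
          exact (hx2 fun i => h i.succ).2 b

/-- A subspace over the alphabet acting on words with an extra letter. -/
def ext {η ι : Type*} (V : Combinatorics.Subspace η β ι) (x : η → Option β) (i : ι) : Option β :=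
  (V.idxFun i).elim some x

/-- Graham-Rothschild theorem for combinatorial lines: for every number of colours of the
variable words some high dimensional cube has an m-dimensional subspace all of whose
lines have the same colour. -/
theorem graham_rothschild (β : Type*) [Finite β] [Nonempty β] (κ : Type*) [Finite κ] (m : ℕ) :
    ∃ M : ℕ, ∀ c : (Fin M → Option β) → κ, ∃ V : Combinatorics.Subspace (Fin m) β (Fin M),
      ∃ k : κ, ∀ x : Fin m → Option β, (∃ i, x i = none) → c (ext V x) = k := by
  by_contra hcon
  push Not at hcon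
  choose c hc using hcon
  obtain ⟨p, q, hqq, hqP, hPq, hPP, hV, hb⟩ := exists_pq (β := β)
  let C : FreeMonoid (Option β) → κ := fun w =>
    c w.toList.length (fun i => w.toList.get i)
  have hC : ∀ (n : ℕ) (g : Fin n → Option β), C (FreeMonoid.ofList (List.ofFn g)) = c n g := by
    intro n g
    let c' : (Σ n, Fin n → Option β) → κ := fun s => c s.1 s.2
    have : C (FreeMonoid.ofList (List.ofFn g)) =
      c' (List.equivSigmaTuple (List.equivSigmaTuple.symm ⟨n, g⟩)) := rfl
    rw [this, Equiv.apply_symm_apply]
  obtain ⟨k, hk⟩ : ∃ k : κ, C ⁻¹' {k} ∈ q := by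
    have h := (Ultrafilter.map C q)
    obtain ⟨k, hk⟩ := Ultrafilter.eq_pure_of_finite (Ultrafilter.map C q)
    refine ⟨k, ?_⟩
    have : ({k} : Set κ) ∈ Ultrafilter.map C q := by rw [hk]; simp
    exact this
  obtain ⟨W, hW1, hW2⟩ := claim p q hqq hqP hPq hPP hV hb m _ hk Set.univ Filter.univ_mem
  let V : Combinatorics.Subspace (Fin m) β (Fin W.length) :=
    { idxFun := fun i => W.get i
      proper := fun e => by
        obtain ⟨n, hn⟩ := List.mem_iff_get.mp (hW1 e)
        exact ⟨n, hn⟩ }
  obtain ⟨x, hx, hne⟩ := hc W.length V k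
  apply hne
  rw [← hC]
  have h1 : List.ofFn (ext V x) = W.map (Sum.elim some x) := by
    conv_rhs => rw [← List.ofFn_get W, List.map_ofFn]
    rfl
  rw [h1]
  exact (hW2 x).1 hx

end Words

end Pool.Agent.Helper903.GR
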