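import Mathlib
import Pool.Agent.Helper903.GR

/-!
# The density Hales-Jewett theorem

Proof following Dodos, Kanellopoulos and Tyros. Main results: `ldhj` (lines) and `mdhj`
(subspaces of any fixed dimension), for every finite alphabet.
-/


namespace Pool.Agent.Helper903.DHJ

section Avg

variable {X Y : Type*} [Fintype X] [Fintype Y]

/-- average of a function on a finite type -/
noncomputable def avg (f : X → ℝ) : ℝ := (∑ x, f x) / Fintype.card X

theorem avg_mono {f g : X → ℝ} (h : ∀ x, f x ≤ g x) : avg f ≤ avg g := by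
  unfold avg
  gcongr with x _
  exact h x

theorem avg_congr {f g : X → ℝ} (h : ∀ x, f x = g x) : avg f = avg g := by
  rw [funext h]

theorem avg_const [Nonempty X] (c : ℝ) : avg (fun _ : X => c) = c := by
  unfold avg
  have : (Fintype.card X : ℝ) ≠ 0 := by exact_mod_cast Fintype.card_ne_zero
  simp [this]

theorem avg_add (f g : X → ℝ) : avg (fun x => f x + g x) = avg f + avg g := by
  unfold avg
  rw [Finset.sum_add_distrib, add_div]

theorem avg_sub (f g : X → ℝ) : avg (fun x => f x - g x) = avg f - avg g := by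
  unfold avg
  rw [Finset.sum_sub_distrib, sub_div]

theorem avg_mul (c : ℝ) (f : X → ℝ) : avg (fun x => c * f x) = c * avg f := by
  unfold avg
  rw [← Finset.mul_sum, mul_div_assoc]

theorem avg_sum {I : Type*} (s : Finset I) (f : I → X → ℝ) :
    avg (fun x => ∑ i ∈ s, f i x) = ∑ i ∈ s, avg (f i) := by
  unfold avg
  rw [Finset.sum_comm, Finset.sum_div]

theorem avg_equiv (e : X ≃ Y) (f : Y → ℝ) : avg (fun x => f (e x)) = avg f := by
  unfold avg
  rw [Equiv.sum_comp e f, Fintype.card_congr e]

theorem avg_prod (f : X × Y → ℝ) : avg f = avg (fun x => avg (fun y => f (x, y))) := by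
  unfold avg
  rw [Fintype.sum_prod_type, Fintype.card_prod, ← Finset.sum_div, div_div]
  push_cast
  rw [mul_comm]

theorem avg_comm (f : X → Y → ℝ) :
    avg (fun x => avg (fun y => f x y)) = avg (fun y => avg (fun x => f x y)) := by
  rw [← avg_prod (fun p : X × Y => f p.1 p.2), ← avg_prod (fun p : Y × X => f p.2 p.1)]
  exact avg_equiv (Equiv.prodComm X Y) (fun p : Y × X => f p.2 p.1)

theorem exists_avg_le [Nonempty X] (f : X → ℝ) : ∃ x, avg f ≤ f x := by
  by_contra h
  push Not at h
  have hc : (0 : ℝ) < Fintype.card X := by exact_mod_cast Fintype.card_pos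
  have h1 : ∑ x, f x < ∑ _x : X, avg f :=
    Finset.sum_lt_sum_of_nonempty Finset.univ_nonempty (fun x _ => h x)
  rw [Finset.sum_const, Finset.card_univ, nsmul_eq_mul] at h1
  unfold avg at h1
  rw [mul_div_cancel₀ _ hc.ne'] at h1
  exact lt_irrefl _ h1

theorem avg_nonneg {f : X → ℝ} (h : ∀ x, 0 ≤ f x) : 0 ≤ avg f := by
  unfold avg
  exact div_nonneg (Finset.sum_nonneg fun x _ => h x) (Nat.cast_nonneg _)

/-- a value is at most card times the average for nonnegative functions -/
theorem le_card_mul_avg [Nonempty X] {f : X → ℝ} (h : ∀ x, 0 ≤ f x) (x : X) :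
    f x ≤ Fintype.card X * avg f := by
  unfold avg
  have hc : (Fintype.card X : ℝ) ≠ 0 := by exact_mod_cast Fintype.card_ne_zero
  rw [mul_div_cancel₀ _ hc]
  exact Finset.single_le_sum (fun x _ => h x) (Finset.mem_univ x)

/-- averages over words indexed by a sum type -/
theorem avg_sum_elim {ι κ α : Type*} [Fintype ι] [Fintype κ] [Fintype α] [DecidableEq ι]
    [DecidableEq κ] (f : (ι ⊕ κ → α) → ℝ) :
    avg f = avg (fun x : ι → α => avg (fun y : κ → α => f (Sum.elim x y))) := by
  rw [← avg_prod (fun p : (ι → α) × (κ → α) => f (Sum.elim p.1 p.2))]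
  exact (avg_equiv (Equiv.sumArrowEquivProdArrow ι κ α).symm f).symm

end Avg

section Dens

variable {X Y : Type*} [Fintype X] [Fintype Y]

/-- indicator function -/
noncomputable def ind {X : Type*} (A : Set X) : X → ℝ := A.indicator (fun _ => (1 : ℝ))

theorem ind_mem {X : Type*} {A : Set X} {x : X} (h : x ∈ A) : ind A x = 1 :=
  Set.indicator_of_mem h _

theorem ind_not_mem {X : Type*} {A : Set X} {x : X} (h : x ∉ A) : ind A x = 0 :=
  Set.indicator_of_notMem h _

theorem ind_nonneg {X : Type*} (A : Set X) (x : X) : 0 ≤ ind A x := by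
  by_cases h : x ∈ A
  · rw [ind_mem h]; exact zero_le_one
  · rw [ind_not_mem h]

theorem ind_le_one {X : Type*} (A : Set X) (x : X) : ind A x ≤ 1 := by
  by_cases h : x ∈ A
  · rw [ind_mem h]
  · rw [ind_not_mem h]; exact zero_le_one

theorem ind_mono {X : Type*} {A B : Set X} (h : A ⊆ B) (x : X) : ind A x ≤ ind B x := by
  by_cases hx : x ∈ A
  · rw [ind_mem hx, ind_mem (h hx)]
  · rw [ind_not_mem hx]; exact ind_nonneg B x

theorem ind_preimage {X Y : Type*} (f : Y → X) (A : Set X) (y : Y) :
    ind (f ⁻¹' A) y = ind A (f y) := by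
  by_cases h : f y ∈ A
  · rw [ind_mem h, ind_mem (show y ∈ f ⁻¹' A from h)]
  · rw [ind_not_mem h, ind_not_mem (show y ∉ f ⁻¹' A from h)]

/-- density of a set in a finite type -/
noncomputable def dens (A : Set X) : ℝ := avg (ind A)

theorem dens_nonneg (A : Set X) : 0 ≤ dens A := avg_nonneg (ind_nonneg A)

theorem dens_le_one [Nonempty X] (A : Set X) : dens A ≤ 1 := by
  calc dens A ≤ avg (fun _ : X => (1 : ℝ)) := avg_mono (ind_le_one A)
    _ = 1 := avg_const 1

theorem dens_mono {A B : Set X} (h : A ⊆ B) : dens A ≤ dens B := avg_mono (ind_mono h)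

theorem dens_empty : dens (∅ : Set X) = 0 := by
  unfold dens avg
  have : ∀ x : X, ind (∅ : Set X) x = 0 := fun x => ind_not_mem (Set.notMem_empty x)
  simp [this]

theorem dens_preimage_equiv (e : X ≃ Y) (A : Set Y) : dens (e ⁻¹' A) = dens A := by
  unfold dens
  rw [← avg_equiv e]
  exact avg_congr fun x => ind_preimage _ _ _

theorem nonempty_of_dens_pos {A : Set X} (h : 0 < dens A) : A.Nonempty := by
  by_contra h'
  rw [Set.not_nonempty_iff_eq_empty] at h'
  rw [h', dens_empty] at h
  exact lt_irrefl _ h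

/-- if the average of f is at least a + b and f ≤ 1 then f ≥ a on a set of density ≥ b -/
theorem dens_large [Nonempty X] {f : X → ℝ} {a b : ℝ} (ha : 0 ≤ a) (hf : ∀ x, f x ≤ 1)
    (h : a + b ≤ avg f) : b ≤ dens {x | a ≤ f x} := by
  have h1 : ∀ x, f x ≤ a + ind {x | a ≤ f x} x := by
    intro x
    by_cases hx : a ≤ f x
    · rw [ind_mem (show x ∈ {x | a ≤ f x} from hx)]
      linarith [hf x]
    · rw [ind_not_mem (show x ∉ {x | a ≤ f x} from hx)]
      push Not at hx
      linarith
  have h2 := avg_mono h1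
  rw [avg_add, avg_const] at h2
  unfold dens
  linarith

end Dens

end Pool.Agent.Helper903.DHJ

namespace Pool.Agent.Helper903.DHJ

open Combinatorics

section SubspaceTools

variable {α η ζ ι κ : Type*}

/-- composition of a subspace with a line -/
def compLine (V : Subspace η α ι) (L : Line α η) : Line α ι where
  idxFun i := (V.idxFun i).elim some L.idxFun
  proper := by
    obtain ⟨e, he⟩ := L.proper
    obtain ⟨i, hi⟩ := V.proper e
    exact ⟨i, by rw [hi]; exact he⟩

theorem compLine_apply (V : Subspace η α ι) (L : Line α η) (a : α) :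
    compLine V L a = V (L a) := by
  funext i
  simp only [Line.coe_apply, Subspace.coe_apply, compLine]
  cases V.idxFun i <;> simp

/-- composition of two subspaces -/
def comp (V : Subspace η α ι) (W : Subspace ζ α η) : Subspace ζ α ι where
  idxFun i := (V.idxFun i).elim Sum.inl W.idxFun
  proper e := by
    obtain ⟨j, hj⟩ := W.proper e
    obtain ⟨i, hi⟩ := V.proper j
    exact ⟨i, by rw [hi]; exact hj⟩

theorem comp_apply (V : Subspace η α ι) (W : Subspace ζ α η) (x : ζ → α) :
    comp V W x = V (W x) := by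
  funext i
  simp only [Subspace.coe_apply, comp]
  cases V.idxFun i <;> simp [Subspace.coe_apply]

/-- fix the left coordinates -/
def fixl (x : ι → α) : Subspace κ α (ι ⊕ κ) where
  idxFun := Sum.elim (fun i => Sum.inl (x i)) Sum.inr
  proper e := ⟨Sum.inr e, rfl⟩

theorem fixl_apply (x : ι → α) (y : κ → α) : fixl x y = Sum.elim x y := by
  funext i
  cases i <;> rfl

/-- fix the right coordinates -/
def fixr (y : κ → α) : Subspace ι α (ι ⊕ κ) where
  idxFun := Sum.elim Sum.inr (fun i => Sum.inl (y i))
  proper e := ⟨Sum.inl e, rfl⟩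

theorem fixr_apply (x : ι → α) (y : κ → α) : fixr y x = Sum.elim x y := by
  funext i
  cases i <;> rfl

/-- reindexing as a subspace -/
def ofEq (e : κ ≃ ι) : Subspace ι α κ where
  idxFun i := Sum.inr (e i)
  proper j := ⟨e.symm j, by simp⟩

theorem ofEq_apply (e : κ ≃ ι) (x : ι → α) : ofEq e x = fun i => x (e i) := rfl

end SubspaceTools

section Homogeneity

/-- a family of sets of words closed under pulling back along combinatorial subspaces -/
def Hered (α : Type) (F : ∀ ι : Type, Set (ι → α) → Prop) : Prop :=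
  ∀ {η ι : Type} (V : Subspace η α ι) (A : Set (ι → α)), F ι A → F η ((fun x => V x) ⁻¹' A)

/-- sets of words without combinatorial lines -/
def LineFree (α : Type) (ι : Type) (A : Set (ι → α)) : Prop :=
  ∀ L : Line α ι, ∃ a, L a ∉ A

theorem hered_lineFree (α : Type) : Hered α (LineFree α) := by
  intro η ι V A hA L
  obtain ⟨a, ha⟩ := hA (compLine V L)
  rw [compLine_apply] at ha
  exact ⟨a, ha⟩

theorem homog {α : Type} [Fintype α] [Nonempty α] (F : ∀ ι : Type, Set (ι → α) → Prop)
    (hF : Hered α F) {δ : ℝ}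
    (h : ∀ n, ∃ A : Set (Fin n → α), F (Fin n) A ∧ δ ≤ dens A) :
    ∃ δ' : ℝ, δ ≤ δ' ∧ δ' ≤ 1 ∧
      (∀ ε > 0, ∃ n, ∀ A : Set (Fin n → α), F (Fin n) A → dens A < δ' + ε) ∧
      (∀ ε > 0, ∀ k : ℕ, ∃ (n : ℕ) (A : Set (Fin k ⊕ Fin n → α)), F _ A ∧
        ∀ x : Fin k → α, δ' - ε ≤ dens {y : Fin n → α | Sum.elim x y ∈ A}) := by
  set S : Set ℝ := {d | ∀ n, ∃ A : Set (Fin n → α), F (Fin n) A ∧ d ≤ dens A} with hS
  have hb : ∀ d ∈ S, d ≤ 1 := by
    intro d hd
    obtain ⟨A, _, hA⟩ := hd 0
    exact hA.trans (dens_le_one A)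
  have hbdd : BddAbove S := ⟨1, hb⟩
  have hne : S.Nonempty := ⟨δ, h⟩
  have h1 : ∀ ε > 0, ∃ n, ∀ A : Set (Fin n → α), F (Fin n) A → dens A < sSup S + ε := by
    intro ε hε
    have : sSup S + ε ∉ S := notMem_of_csSup_lt (by linarith) hbdd
    simp only [hS, Set.mem_ofPred_eq, not_forall, not_exists, not_and, not_le] at this
    exact this
  refine ⟨sSup S, le_csSup hbdd h, csSup_le hne hb, h1, ?_⟩
  intro ε hε k
  set c : ℝ := (Fintype.card (Fin k → α) : ℝ) with hc
  have hc1 : 0 < c := by
    rw [hc]; exact_mod_cast Fintype.card_pos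
  obtain ⟨n, hn⟩ := h1 (ε / (2 * c)) (by positivity)
  obtain ⟨d, hdS, hd⟩ := exists_lt_of_lt_csSup hne
    (show sSup S - ε / (2 * c) < sSup S by linarith [show 0 < ε / (2 * c) by positivity])
  obtain ⟨A0, hA0, hdA⟩ := hdS (k + n)
  refine ⟨n, (fun x => ofEq (finSumFinEquiv.symm) x) ⁻¹' A0, hF _ _ hA0, ?_⟩
  set A : Set (Fin k ⊕ Fin n → α) := (fun x => ofEq (finSumFinEquiv.symm) x) ⁻¹' A0 with hA
  have hFA : F _ A := hF _ _ hA0
  have hdens : dens A = dens A0 := by
    exact dens_preimage_equiv (Equiv.arrowCongr finSumFinEquiv (Equiv.refl α)) A0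
  set f : (Fin k → α) → ℝ := fun x => dens {y : Fin n → α | Sum.elim x y ∈ A} with hf
  have hfu : ∀ x, f x < sSup S + ε / (2 * c) := by
    intro x
    apply hn
    have := hF (fixl x) A hFA
    have heq : (fun y => (fixl x : Subspace (Fin n) α (Fin k ⊕ Fin n)) y) ⁻¹' A =
        {y : Fin n → α | Sum.elim x y ∈ A} := by
      ext y
      simp [fixl_apply]
    rwa [heq] at this
  have havg : avg f = dens A := by
    unfold dens
    rw [avg_sum_elim]
    refine avg_congr fun x => ?_
    change avg _ = avg _
    refine avg_congr fun y => ?_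
    exact ind_preimage (fun y : Fin n → α => Sum.elim x y) A y
  intro x
  have h2 := le_card_mul_avg (f := fun x => (sSup S + ε / (2 * c)) - f x)
    (fun x => by linarith [hfu x]) x
  rw [avg_sub, avg_const, havg, hdens] at h2
  have h3 : (sSup S + ε / (2 * c)) - dens A0 ≤ 2 * (ε / (2 * c)) := by linarith
  have h4 : c * ((sSup S + ε / (2 * c)) - dens A0) ≤ c * (2 * (ε / (2 * c))) :=
    mul_le_mul_of_nonneg_left h3 hc1.le
  have h5 : c * (2 * (ε / (2 * c))) = ε := by field_simp
  have h6 : 0 < ε / (2 * c) := by positivity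
  change sSup S - ε ≤ f x
  linarith

end Homogeneity

end Pool.Agent.Helper903.DHJ

namespace Pool.Agent.Helper903.DHJ

open Combinatorics

section Multi

/-- density Hales-Jewett property of an alphabet, for lines -/
def LDHJ (α : Type) [Fintype α] : Prop :=
  ∀ δ : ℝ, 0 < δ → ∃ n : ℕ, ∀ A : Set (Fin n → α), δ ≤ dens A →
    ∃ L : Line α (Fin n), ∀ a, L a ∈ A

/-- density Hales-Jewett property of an alphabet, for subspaces -/
def MDHJ (α : Type) [Fintype α] : Prop :=
  ∀ (m : ℕ) (δ : ℝ), 0 < δ → ∃ n : ℕ, ∀ A : Set (Fin n → α), δ ≤ dens A →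
    ∃ V : Subspace (Fin m) α (Fin n), ∀ x, V x ∈ A

/-- fibres over the right coordinates -/
theorem avg_fib {k n : ℕ} {α : Type} [Fintype α] (A : Set (Fin k ⊕ Fin n → α)) :
    avg (fun y : Fin n → α => dens {x : Fin k → α | Sum.elim x y ∈ A}) = dens A := by
  unfold dens
  conv_rhs => rw [avg_sum_elim, avg_comm]
  refine avg_congr fun y => ?_
  refine avg_congr fun x => ?_
  exact ind_preimage (fun x : Fin k → α => (Sum.elim x y : Fin k ⊕ Fin n → α)) A x

/-- fibres over the left coordinates -/
theorem avg_fib' {k n : ℕ} {α : Type} [Fintype α] (A : Set (Fin k ⊕ Fin n → α)) :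
    avg (fun x : Fin k → α => dens {y : Fin n → α | Sum.elim x y ∈ A}) = dens A := by
  unfold dens
  rw [avg_sum_elim]
  refine avg_congr fun x => ?_
  refine avg_congr fun y => ?_
  exact ind_preimage (fun y : Fin n → α => Sum.elim x y) A y

/-- pigeonhole for densities -/
theorem dens_pigeon {X G : Type*} [Fintype X] [Fintype G] [Nonempty G] (A : Set X)
    (B : G → Set X) (h : ∀ x ∈ A, ∃ g, x ∈ B g) :
    ∃ g, dens A / Fintype.card G ≤ dens (B g) := by
  have hc : (0 : ℝ) < Fintype.card G := by exact_mod_cast Fintype.card_pos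
  have h1 : dens A ≤ ∑ g, dens (B g) := by
    have h2 : ∀ x, ind A x ≤ ∑ g, ind (B g) x := by
      intro x
      by_cases hx : x ∈ A
      · obtain ⟨g, hg⟩ := h x hx
        rw [ind_mem hx, ← ind_mem hg]
        exact Finset.single_le_sum (f := fun g => ind (B g) x) (fun g _ => ind_nonneg _ _)
          (Finset.mem_univ g)
      · rw [ind_not_mem hx]
        exact Finset.sum_nonneg fun g _ => ind_nonneg _ _
    have h3 := avg_mono h2
    rw [avg_sum] at h3
    exact h3
  by_contra hcon
  push Not at hcon
  have h4 : ∑ g, dens (B g) < ∑ _g : G, dens A / Fintype.card G :=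
    Finset.sum_lt_sum_of_nonempty Finset.univ_nonempty (fun g _ => hcon g)
  rw [Finset.sum_const, Finset.card_univ, nsmul_eq_mul, mul_div_cancel₀ _ hc.ne'] at h4
  linarith

theorem mdhj_of_ldhj {α : Type} [Fintype α] [Nonempty α] (h : LDHJ α) : MDHJ α := by
  intro m
  induction m with
  | zero =>
    intro δ hδ
    refine ⟨0, fun A hA => ?_⟩
    obtain ⟨x, hx⟩ := nonempty_of_dens_pos (hδ.trans_le hA)
    refine ⟨⟨fun i => i.elim0, fun e => e.elim0⟩, fun y => ?_⟩
    have : ∀ z : Fin 0 → α, z = x := fun z => Subsingleton.elim _ _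
    rw [this (Subspace.toFun _ y)]
    exact hx
  | succ m ih =>
    intro δ hδ
    obtain ⟨n1, hn1⟩ := ih (δ / 2) (by positivity)
    set c : ℝ := (Fintype.card (Fin n1 → α ⊕ Fin m) : ℝ) with hc
    have hc0 : 0 < c := by rw [hc]; exact_mod_cast Fintype.card_pos
    obtain ⟨n2, hn2⟩ := h ((δ / 2) / c) (by positivity)
    refine ⟨n1 + n2, fun A hA => ?_⟩
    set A' : Set (Fin n1 ⊕ Fin n2 → α) := (fun x => ofEq (finSumFinEquiv.symm) x) ⁻¹' A with hA'
    have hdens : dens A' = dens A :=
      dens_preimage_equiv (Equiv.arrowCongr finSumFinEquiv (Equiv.refl α)) A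
    have hY : δ / 2 ≤ dens {y : Fin n2 → α | δ / 2 ≤
        (fun y : Fin n2 → α => dens {x : Fin n1 → α | Sum.elim x y ∈ A'}) y} := by
      apply dens_large (by positivity)
      · intro y; exact dens_le_one _
      · rw [avg_fib, hdens]; linarith
    obtain ⟨g, hg⟩ := dens_pigeon {y : Fin n2 → α | δ / 2 ≤
        (fun y : Fin n2 → α => dens {x : Fin n1 → α | Sum.elim x y ∈ A'}) y}
        (fun g : Fin n1 → α ⊕ Fin m => {y | ∃ V : Subspace (Fin m) α (Fin n1),
          V.idxFun = g ∧ ∀ x, Sum.elim (V x) y ∈ A'})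
        (fun y hy => by
          obtain ⟨V, hV⟩ := hn1 _ hy
          exact ⟨V.idxFun, V, rfl, hV⟩)
    rw [← hc] at hg
    obtain ⟨L, hL⟩ := hn2 _ (le_trans (by gcongr) hg)
    obtain ⟨V, hVg, _⟩ := hL (Classical.arbitrary α)
    have hVL : ∀ a x, Sum.elim (V x) (L a) ∈ A' := by
      intro a x
      obtain ⟨V', hV'g, hV'⟩ := hL a
      have : V' = V := Subspace.ext (hV'g.trans hVg.symm)
      rw [← this]
      exact hV' x
    let Vs : Subspace (Fin (m+1)) α (Fin n1 ⊕ Fin n2) :=
      { idxFun := Sum.elim (fun i => (V.idxFun i).map id Fin.succ)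
          (fun j => (L.idxFun j).elim (Sum.inr 0) Sum.inl)
        proper := by
          intro e
          refine Fin.cases ?_ (fun e => ?_) e
          · obtain ⟨j, hj⟩ := L.proper
            exact ⟨Sum.inr j, by simp [hj]⟩
          · obtain ⟨i, hi⟩ := V.proper e
            exact ⟨Sum.inl i, by simp [hi]⟩ }
    have hVs : ∀ x : Fin (m+1) → α, Vs x = Sum.elim (V (fun i => x i.succ)) (L (x 0)) := by
      intro x
      funext i
      rcases i with i | j
      · simp only [Subspace.coe_apply, Vs, Sum.elim_inl]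
        cases V.idxFun i <;> simp
      · simp only [Subspace.coe_apply, Vs, Sum.elim_inr, Line.coe_apply]
        cases L.idxFun j <;> simp
    refine ⟨comp (ofEq finSumFinEquiv.symm) Vs, fun x => ?_⟩
    rw [comp_apply]
    have := hVL (x 0) (fun i => x i.succ)
    rw [← hVs] at this
    exact this

end Multi

end Pool.Agent.Helper903.DHJ

namespace Pool.Agent.Helper903.DHJ

open Combinatorics

section Insensitive

variable {β : Type}

/-- replace the extra letter by b -/
def repl (b : β) {ι : Type} (x : ι → Option β) : ι → Option β := fun i => some ((x i).getD b)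

/-- S does not see the difference between the extra letter and b -/
def Ins (b : β) {ι : Type} (S : Set (ι → Option β)) : Prop := ∀ x, x ∈ S ↔ repl b x ∈ S

theorem repl_repl (b : β) {ι : Type} (x : ι → Option β) : repl b (repl b x) = repl b x := by
  funext i
  simp [repl]

theorem repl_some (b : β) {ι : Type} (x : ι → β) :
    repl b (fun i => some (x i)) = fun i => some (x i) := by
  funext i
  simp [repl]

theorem repl_sub (b : β) {η ι : Type} (V : Subspace η (Option β) ι) (x : η → Option β) :
    repl b (V (repl b x)) = repl b (V x) := by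
  funext i
  simp only [repl, Subspace.coe_apply]
  cases V.idxFun i <;> simp [repl]

theorem Ins.pull {b : β} {η ι : Type} (V : Subspace η (Option β) ι) {S : Set (ι → Option β)}
    (hS : Ins b S) : Ins b ((fun x => V x) ⁻¹' S) := by
  intro x
  simp only [Set.mem_preimage]
  rw [hS (V x), hS (V (repl b x)), repl_sub]

theorem Ins.compl {b : β} {ι : Type} {S : Set (ι → Option β)} (hS : Ins b S) : Ins b Sᶜ := by
  intro x
  simp only [Set.mem_compl_iff]
  rw [hS x]

/-- a subspace over β seen as a subspace over the alphabet with an extra letter -/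
def lift {η ι : Type} (V : Subspace η β ι) : Subspace η (Option β) ι where
  idxFun i := (V.idxFun i).map some id
  proper e := by
    obtain ⟨i, hi⟩ := V.proper e
    exact ⟨i, by rw [hi]; rfl⟩

theorem lift_some {η ι : Type} (V : Subspace η β ι) (u : η → β) :
    lift V (fun e => some (u e)) = fun i => some (V u i) := by
  funext i
  simp only [Subspace.coe_apply, lift]
  cases V.idxFun i <;> simp

theorem repl_lift {η ι : Type} (b : β) (V : Subspace η β ι) (x : η → Option β) :
    repl b (lift V x) = fun i => some (V (fun e => (x e).getD b) i) := by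
  funext i
  simp only [repl, Subspace.coe_apply, lift]
  cases V.idxFun i <;> simp

theorem ins_sub [Fintype β] (h : MDHJ β) (b : β) (m : ℕ) (δ : ℝ) (hδ : 0 < δ) :
    ∃ n : ℕ, ∀ S : Set (Fin n → Option β), Ins b S → δ ≤ dens S →
      ∃ V : Subspace (Fin m) (Option β) (Fin n), ∀ x, V x ∈ S := by
  by_contra hcon
  push Not at hcon
  let F : ∀ ι : Type, Set (ι → Option β) → Prop := fun ι S =>
    Ins b S ∧ ∀ V : Subspace (Fin m) (Option β) ι, ∃ x, V x ∉ S
  have hF : Hered (Option β) F := by
    intro η ι V A hA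
    refine ⟨hA.1.pull V, fun W => ?_⟩
    obtain ⟨x, hx⟩ := hA.2 (comp V W)
    rw [comp_apply] at hx
    exact ⟨x, hx⟩
  obtain ⟨δ', hδ', _, _, h4⟩ := homog F hF (δ := δ) (fun n => by
    obtain ⟨S, h1, h2, h3⟩ := hcon n
    exact ⟨S, ⟨h1, h3⟩, h2⟩)
  obtain ⟨k, hk⟩ := h m (δ / 2) (by positivity)
  obtain ⟨n, S, ⟨hS1, hS2⟩, hS3⟩ := h4 (δ / 2) (by positivity) k
  have : Nonempty β := ⟨b⟩
  have havg : δ / 2 ≤ avg (fun y : Fin n → Option β =>
      dens {u : Fin k → β | Sum.elim (fun i => some (u i)) y ∈ S}) := by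
    have h5 : avg (fun y : Fin n → Option β =>
        dens {u : Fin k → β | Sum.elim (fun i => some (u i)) y ∈ S}) =
        avg (fun u : Fin k → β =>
        dens {y : Fin n → Option β | Sum.elim (fun i => some (u i)) y ∈ S}) := by
      unfold dens
      conv_rhs => rw [avg_comm]
      refine avg_congr fun y => ?_
      refine avg_congr fun u => ?_
      exact (ind_preimage (fun u : Fin k → β => (Sum.elim (fun i => some (u i)) y :
        Fin k ⊕ Fin n → Option β)) S u).trans (ind_preimage (fun y : Fin n → Option β =>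
        (Sum.elim (fun i => some (u i)) y : Fin k ⊕ Fin n → Option β)) S y).symm
    rw [h5]
    calc δ / 2 = avg (fun _ : Fin k → β => δ / 2) := (avg_const _).symm
      _ ≤ _ := avg_mono fun u => by
        have := hS3 (fun i => some (u i))
        linarith
  obtain ⟨y, hy⟩ := exists_avg_le (fun y : Fin n → Option β =>
      dens {u : Fin k → β | Sum.elim (fun i => some (u i)) y ∈ S})
  obtain ⟨V, hV⟩ := hk _ (havg.trans hy)
  obtain ⟨x, hx⟩ := hS2 (comp (fixr y) (lift V))
  apply hx
  rw [comp_apply, fixr_apply, hS1]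
  have h6 : repl b (Sum.elim (lift V x) y : Fin k ⊕ Fin n → Option β) =
      repl b (Sum.elim (fun i => some (V (fun e => (x e).getD b) i)) y) := by
    funext i
    rcases i with i | i
    · have := congrFun (repl_lift b V x) i
      simp only [repl] at this
      simp only [repl, Sum.elim_inl, this, Option.getD_some]
    · rfl
  rw [h6, ← hS1]
  exact hV _

end Insensitive

end Pool.Agent.Helper903.DHJ

namespace Pool.Agent.Helper903.DHJ

open Combinatorics

section Partition

theorem sub_inj {α η ι : Type} (V : Subspace η α ι) :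
    Function.Injective (fun x : η → α => V x) := by
  intro x y hxy
  funext e
  obtain ⟨i, hi⟩ := V.proper e
  have := congrFun hxy i
  simpa [Subspace.coe_apply, hi] using this

theorem sum_range {U W : Type*} [Fintype U] [Fintype W] (f : U → W)
    (hf : Function.Injective f) (g : W → ℝ) :
    ∑ w, ind (Set.range f) w * g w = ∑ u, g (f u) := by
  classical
  rw [← Finset.sum_image (f := g) (s := Finset.univ) (g := f) (fun a _ b _ h => hf h)]
  rw [← Finset.sum_subset (Finset.subset_univ (Finset.univ.image f))]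
  · refine Finset.sum_congr rfl fun w hw => ?_
    rw [ind_mem, one_mul]
    obtain ⟨u, _, hu⟩ := Finset.mem_image.mp hw
    exact ⟨u, hu⟩
  · intro w _ hw
    rw [ind_not_mem, zero_mul]
    rintro ⟨u, hu⟩
    exact hw (Finset.mem_image.mpr ⟨u, Finset.mem_univ u, hu⟩)

theorem avg_range {U W : Type*} [Fintype U] [Fintype W] [Nonempty U] (f : U → W)
    (hf : Function.Injective f) (g : W → ℝ) :
    avg (fun w => ind (Set.range f) w * g w) =
      ((Fintype.card U : ℝ) / Fintype.card W) * avg (fun u => g (f u)) := by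
  unfold avg
  rw [sum_range f hf g]
  have : (Fintype.card U : ℝ) ≠ 0 := by exact_mod_cast Fintype.card_ne_zero
  field_simp

theorem dens_range {U W : Type*} [Fintype U] [Fintype W] [Nonempty U] (f : U → W)
    (hf : Function.Injective f) :
    dens (Set.range f) = (Fintype.card U : ℝ) / Fintype.card W := by
  have := avg_range f hf (fun _ => 1)
  rw [avg_const, mul_one] at this
  rw [← this]
  unfold dens
  exact avg_congr fun w => (mul_one _).symm

/-- splitting off the first block, inner form -/
theorem avg_cons {X W : Type*} [Fintype X] [Fintype W] {r : ℕ}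
    (f : X × (Fin (r + 1) → W) → ℝ) :
    avg f = avg (fun z : X × (Fin r → W) => avg (fun w => f (z.1, Fin.cons w z.2))) := by
  rw [avg_prod (fun z : X × (Fin r → W) => avg (fun w => f (z.1, Fin.cons w z.2)))]
  rw [avg_prod f]
  refine avg_congr fun x => ?_
  rw [avg_comm, ← avg_prod (fun p : W × (Fin r → W) => f (x, Fin.cons p.1 p.2))]
  exact (avg_equiv (Fin.consEquiv (fun _ => W)) (fun ω => f (x, ω))).symm

/-- splitting off the first block, outer form -/
theorem avg_cons' {X W : Type*} [Fintype X] [Fintype W] {r : ℕ}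
    (f : X × (Fin (r + 1) → W) → ℝ) :
    avg f = avg (fun p : (X × W) × (Fin r → W) => f (p.1.1, Fin.cons p.1.2 p.2)) := by
  rw [avg_prod (fun p : (X × W) × (Fin r → W) => f (p.1.1, Fin.cons p.1.2 p.2))]
  rw [avg_prod (fun q : X × W => avg (fun ω : Fin r → W => f (q.1, Fin.cons q.2 ω)))]
  rw [avg_prod f]
  refine avg_congr fun x => ?_
  rw [← avg_prod (fun p : W × (Fin r → W) => f (x, Fin.cons p.1 p.2))]
  exact (avg_equiv (Fin.consEquiv (fun _ => W)) (fun ω => f (x, ω))).symm

end Partition

end Pool.Agent.Helper903.DHJ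

namespace Pool.Agent.Helper903.DHJ

open Combinatorics

section Partition2

variable {β : Type}

/-- the chosen subspace inside a set of words -/
noncomputable def chosen (d k : ℕ) (T : Set (Fin k → Option β)) : Set (Fin k → Option β) := by
  classical
  exact if h : ∃ V : Subspace (Fin d) (Option β) (Fin k), ∀ u, V u ∈ T then
    Set.range (fun u => (Classical.choose h) u) else ∅

theorem chosen_sub (d k : ℕ) (T : Set (Fin k → Option β)) : chosen d k T ⊆ T := by
  classical
  unfold chosen
  split_ifs with h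
  · rintro _ ⟨u, rfl⟩
    exact Classical.choose_spec h u
  · exact Set.empty_subset _

theorem chosen_pos {d k : ℕ} {T : Set (Fin k → Option β)}
    (h : ∃ V : Subspace (Fin d) (Option β) (Fin k), ∀ u, V u ∈ T) :
    ∃ V : Subspace (Fin d) (Option β) (Fin k), (∀ u, V u ∈ T) ∧
      chosen d k T = Set.range (fun u => V u) := by
  classical
  refine ⟨Classical.choose h, Classical.choose_spec h, ?_⟩
  unfold chosen
  rw [dif_pos h]

theorem chosen_neg {d k : ℕ} {T : Set (Fin k → Option β)}
    (h : ¬ ∃ V : Subspace (Fin d) (Option β) (Fin k), ∀ u, V u ∈ T) :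
    chosen d k T = ∅ := by
  classical
  unfold chosen
  rw [dif_neg h]

theorem part_aux [Fintype β] (b : β) (d k : ℕ) (τ ρ : ℝ) (hτ : 0 < τ)
    (hρ : ρ = (τ / 2) * ((Fintype.card (Fin d → Option β) : ℝ) /
      Fintype.card (Fin k → Option β)))
    (hk : ∀ S : Set (Fin k → Option β), Ins b S → τ / 2 ≤ dens S →
      ∃ V : Subspace (Fin d) (Option β) (Fin k), ∀ x, V x ∈ S) :
    ∀ (r : ℕ) (X : Type) [Fintype X] [Nonempty X] (S : Set (X × (Fin r → Fin k → Option β)))
      (h : X × (Fin r → Fin k → Option β) → ℝ), (∀ p, h p ≤ 1) →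
      (∀ x ω, (x, ω) ∈ S ↔ (x, fun t => repl b (ω t)) ∈ S) →
      (∀ (x : X) (t : Fin r) (ω : Fin r → Fin k → Option β)
        (V : Subspace (Fin d) (Option β) (Fin k)),
        (∀ u, (x, Function.update ω t (V u)) ∈ S) →
        avg (fun u => h (x, Function.update ω t (V u))) ≤ 0) →
      dens S ≤ τ + r * ρ → avg (fun p => ind S p * h p) ≤ τ := by
  have hbase : ∀ (r : ℕ) (X : Type) [Fintype X] [Nonempty X]
      (S : Set (X × (Fin r → Fin k → Option β)))
      (h : X × (Fin r → Fin k → Option β) → ℝ), (∀ p, h p ≤ 1) → dens S ≤ τ →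
      avg (fun p => ind S p * h p) ≤ τ := by
    intro r X _ _ S h h1 hS
    refine le_trans (avg_mono fun p => ?_) hS
    calc ind S p * h p ≤ ind S p * 1 := mul_le_mul_of_nonneg_left (h1 p) (ind_nonneg _ _)
      _ = ind S p := mul_one _
  intro r
  induction r with
  | zero =>
    intro X _ _ S h h1 _ _ hS
    apply hbase 0 X S h h1
    simpa using hS
  | succ r ih =>
    intro X _ _ S h h1 hins hV hS
    by_cases hSτ : dens S ≤ τ
    · exact hbase (r + 1) X S h h1 hSτ
    push Not at hSτ
    -- fibres
    let T : X × (Fin r → Fin k → Option β) → Set (Fin k → Option β) := fun z =>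
      {w | (z.1, (Fin.cons w z.2 : Fin (r + 1) → Fin k → Option β)) ∈ S}
    have hTins : ∀ z, Ins b (T z) := by
      intro z w
      change (z.1, Fin.cons w z.2) ∈ S ↔ (z.1, Fin.cons (repl b w) z.2) ∈ S
      rw [hins, hins z.1 (Fin.cons (repl b w) z.2)]
      have : (fun t => repl b ((Fin.cons w z.2 : Fin (r + 1) → Fin k → Option β) t)) =
          (fun t => repl b ((Fin.cons (repl b w) z.2 : Fin (r + 1) → Fin k → Option β) t)) := by
        funext t
        refine Fin.cases ?_ (fun t => ?_) t
        · simp [repl_repl]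
        · simp
      rw [this]
    have hTrepl : ∀ (x : X) (ω : Fin r → Fin k → Option β),
        T (x, fun t => repl b (ω t)) = T (x, ω) := by
      intro x ω
      ext w
      change (x, Fin.cons w (fun t => repl b (ω t))) ∈ S ↔ (x, Fin.cons w ω) ∈ S
      rw [hins, hins x (Fin.cons w ω)]
      have : (fun t => repl b ((Fin.cons w (fun t => repl b (ω t)) :
          Fin (r + 1) → Fin k → Option β) t)) =
          (fun t => repl b ((Fin.cons w ω : Fin (r + 1) → Fin k → Option β) t)) := by
        funext t
        refine Fin.cases ?_ (fun t => ?_) t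
        · simp
        · simp [repl_repl]
      rw [this]
    let S1 : Set ((X × (Fin k → Option β)) × (Fin r → Fin k → Option β)) :=
      {p | p.1.2 ∈ T (p.1.1, p.2) ∧ p.1.2 ∉ chosen d k (T (p.1.1, p.2))}
    -- the integral over S splits
    have hsplit : ∀ (g : (X × (Fin (r + 1) → Fin k → Option β)) → ℝ),
        avg (fun p => ind S p * g p) =
        avg (fun p : (X × (Fin k → Option β)) × (Fin r → Fin k → Option β) =>
          ind S1 p * g (p.1.1, Fin.cons p.1.2 p.2)) +
        avg (fun z : X × (Fin r → Fin k → Option β) => avg (fun w =>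
          ind (chosen d k (T z)) w * g (z.1, Fin.cons w z.2))) := by
      intro g
      have e1 : avg (fun z : X × (Fin r → Fin k → Option β) => avg (fun w =>
          ind (chosen d k (T z)) w * g (z.1, Fin.cons w z.2))) =
          avg (fun p : (X × (Fin k → Option β)) × (Fin r → Fin k → Option β) =>
            ind (chosen d k (T (p.1.1, p.2))) p.1.2 * g (p.1.1, Fin.cons p.1.2 p.2)) := by
        have := avg_cons (X := X) (W := Fin k → Option β) (r := r)
          (fun q => ind (chosen d k (T (q.1, Fin.tail q.2))) (q.2 0) * g q)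
        simp only [Fin.tail_cons, Fin.cons_zero] at this
        rw [← this, avg_cons']
        simp only [Fin.tail_cons, Fin.cons_zero]
      rw [e1, ← avg_add, avg_cons']
      refine avg_congr fun p => ?_
      rw [← add_mul]
      congr 1
      by_cases hp : (p.1.1, (Fin.cons p.1.2 p.2 : Fin (r + 1) → Fin k → Option β)) ∈ S
      · rw [ind_mem hp]
        by_cases hp2 : p.1.2 ∈ chosen d k (T (p.1.1, p.2))
        · rw [ind_mem hp2, ind_not_mem (show p ∉ S1 from fun h => h.2 hp2), zero_add]
        · rw [ind_not_mem hp2, ind_mem (show p ∈ S1 from ⟨hp, hp2⟩), add_zero]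
      · rw [ind_not_mem hp]
        have hp2 : p.1.2 ∉ chosen d k (T (p.1.1, p.2)) := fun h => hp (chosen_sub d k _ h)
        rw [ind_not_mem hp2, ind_not_mem (show p ∉ S1 from fun h => hp h.1), add_zero]
    rw [hsplit h]
    have hneg : avg (fun z : X × (Fin r → Fin k → Option β) => avg (fun w =>
          ind (chosen d k (T z)) w * h (z.1, Fin.cons w z.2))) ≤ 0 := by
      calc _ ≤ avg (fun _ : X × (Fin r → Fin k → Option β) => (0 : ℝ)) := ?_
        _ = 0 := avg_const 0
      refine avg_mono fun z => ?_
      by_cases hz : ∃ V : Subspace (Fin d) (Option β) (Fin k), ∀ u, V u ∈ T z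
      · obtain ⟨V, hVT, hVc⟩ := chosen_pos hz
        rw [hVc, avg_range _ (sub_inj V) (fun w => h (z.1, Fin.cons w z.2))]
        apply mul_nonpos_of_nonneg_of_nonpos (by positivity)
        have hu : ∀ w, (Function.update (Fin.cons (fun _ => none) z.2 :
            Fin (r + 1) → Fin k → Option β) 0 w) = Fin.cons w z.2 := by
          intro w
          rw [Fin.update_cons_zero]
        have := hV z.1 0 (Fin.cons (fun _ => none) z.2) V (fun u => by
          rw [hu]; exact hVT u)
        simp only [hu] at this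
        exact this
      · rw [chosen_neg hz]
        have : ∀ w : Fin k → Option β, ind (∅ : Set (Fin k → Option β)) w *
            h (z.1, Fin.cons w z.2) = 0 := fun w => by
          rw [ind_not_mem (Set.notMem_empty w), zero_mul]
        rw [avg_congr this, avg_const]
    have hS1 : avg (fun p : (X × (Fin k → Option β)) × (Fin r → Fin k → Option β) =>
          ind S1 p * h (p.1.1, Fin.cons p.1.2 p.2)) ≤ τ := by
      apply ih (X × (Fin k → Option β)) S1 (fun p => h (p.1.1, Fin.cons p.1.2 p.2))
        (fun p => h1 _)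
      · rintro ⟨x, w⟩ ω
        change (w ∈ T (x, ω) ∧ w ∉ chosen d k (T (x, ω))) ↔
          (w ∈ T (x, fun t => repl b (ω t)) ∧ w ∉ chosen d k (T (x, fun t => repl b (ω t))))
        rw [hTrepl]
      · rintro ⟨x, w⟩ t ω V hVS
        have hu : ∀ u, (Fin.cons w (Function.update ω t (V u)) :
            Fin (r + 1) → Fin k → Option β) = Function.update (Fin.cons w ω) t.succ (V u) := by
          intro u
          rw [Fin.cons_update]
        have := hV x t.succ (Fin.cons w ω) V (fun u => by
          rw [← hu]; exact (hVS u).1)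
        simp only [← hu] at this
        exact this
      · -- density drop
        have hd : dens S = dens S1 + avg (fun z => dens (chosen d k (T z))) := by
          have := hsplit (fun _ => 1)
          simp only [mul_one] at this
          exact this
        have hd2 : ρ ≤ avg (fun z => dens (chosen d k (T z))) := by
          set q : ℝ := (Fintype.card (Fin d → Option β) : ℝ) /
            (Fintype.card (Fin k → Option β) : ℝ) with hq
          have hq0 : 0 ≤ q := by positivity
          have hT : τ / 2 ≤ dens {z | τ / 2 ≤ dens (T z)} := by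
            apply dens_large (by positivity) (fun z => dens_le_one _)
            have : avg (fun z => dens (T z)) = dens S := by
              unfold dens
              rw [avg_cons]
              refine avg_congr fun z => avg_congr fun w => ?_
              exact ind_preimage (fun w : Fin k → Option β =>
                (z.1, (Fin.cons w z.2 : Fin (r + 1) → Fin k → Option β))) S w
            rw [this]
            linarith
          calc ρ = q * (τ / 2) := by rw [hρ]; ring
            _ ≤ q * dens {z | τ / 2 ≤ dens (T z)} := mul_le_mul_of_nonneg_left hT hq0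
            _ = avg (fun z => q * ind {z | τ / 2 ≤ dens (T z)} z) := by rw [avg_mul]; rfl
            _ ≤ _ := avg_mono fun z => ?_
          by_cases hz : τ / 2 ≤ dens (T z)
          · rw [ind_mem (show z ∈ {z | τ / 2 ≤ dens (T z)} from hz), mul_one]
            obtain ⟨V, hVT, hVc⟩ := chosen_pos (hk (T z) (hTins z) hz)
            rw [hVc, dens_range _ (sub_inj V)]
          · rw [ind_not_mem (show z ∉ {z | τ / 2 ≤ dens (T z)} from hz), mul_zero]
            exact dens_nonneg _
        push_cast at hS
        linarith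
    linarith

end Partition2

end Pool.Agent.Helper903.DHJ

namespace Pool.Agent.Helper903.DHJ

open Combinatorics

section Partition3

variable {β : Type}

/-- words of r blocks of length k as words of length r k -/
def blockEquiv (r k : ℕ) (α : Type) : (Fin r → Fin k → α) ≃ (Fin (r * k) → α) :=
  (Equiv.curry (Fin r) (Fin k) α).symm.trans (Equiv.arrowCongr finProdFinEquiv (Equiv.refl α))

theorem blockEquiv_apply (r k : ℕ) (α : Type) (ω : Fin r → Fin k → α) (i : Fin (r * k)) :
    blockEquiv r k α ω i = ω (finProdFinEquiv.symm i).1 (finProdFinEquiv.symm i).2 := rfl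

/-- a subspace in one block, all other blocks being fixed -/
def blockSub {r k d : ℕ} {α : Type} (ω : Fin r → Fin k → α) (t : Fin r)
    (V : Subspace (Fin d) α (Fin k)) : Subspace (Fin d) α (Fin (r * k)) where
  idxFun i := if (finProdFinEquiv.symm i).1 = t then V.idxFun (finProdFinEquiv.symm i).2
    else Sum.inl (ω (finProdFinEquiv.symm i).1 (finProdFinEquiv.symm i).2)
  proper e := by
    obtain ⟨j, hj⟩ := V.proper e
    refine ⟨finProdFinEquiv (t, j), ?_⟩
    rw [Equiv.symm_apply_apply]
    simp [hj]

theorem blockSub_apply {r k d : ℕ} {α : Type} (ω : Fin r → Fin k → α) (t : Fin r)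
    (V : Subspace (Fin d) α (Fin k)) (u : Fin d → α) :
    blockSub ω t V u = blockEquiv r k α (Function.update ω t (V u)) := by
  funext i
  rw [blockEquiv_apply]
  by_cases h : (finProdFinEquiv.symm i).1 = t
  · simp only [Subspace.coe_apply, blockSub, if_pos h]
    rw [h, Function.update_self]
    rfl
  · simp only [Subspace.coe_apply, blockSub, if_neg h]
    rw [Function.update_of_ne h]
    rfl

theorem ins_avg [Fintype β] (hβ : MDHJ β) (b : β) (d : ℕ) (τ : ℝ) (hτ : 0 < τ) :
    ∃ n : ℕ, ∀ S : Set (Fin n → Option β), Ins b S → ∀ h : (Fin n → Option β) → ℝ,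
      (∀ x, h x ≤ 1) →
      (∀ V : Subspace (Fin d) (Option β) (Fin n), (∀ u, V u ∈ S) → avg (fun u => h (V u)) ≤ 0) →
      avg (fun x => ind S x * h x) ≤ τ := by
  obtain ⟨k, hk⟩ := ins_sub hβ b d (τ / 2) (by positivity)
  set ρ : ℝ := (τ / 2) * ((Fintype.card (Fin d → Option β) : ℝ) /
      (Fintype.card (Fin k → Option β) : ℝ)) with hρ
  have hρ0 : 0 < ρ := by
    have h1 : (0 : ℝ) < (Fintype.card (Fin d → Option β) : ℝ) := by
      exact_mod_cast Fintype.card_pos
    have h2 : (0 : ℝ) < (Fintype.card (Fin k → Option β) : ℝ) := by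
      exact_mod_cast Fintype.card_pos
    positivity
  obtain ⟨r, hr⟩ := exists_nat_ge (1 / ρ)
  have hr1 : 1 ≤ r * ρ := by
    rw [div_le_iff₀ hρ0] at hr
    exact hr
  refine ⟨r * k, fun S hS h h1 hV => ?_⟩
  let S' : Set (Unit × (Fin r → Fin k → Option β)) := {p | blockEquiv r k _ p.2 ∈ S}
  have := part_aux b d k τ ρ hτ hρ hk r Unit S' (fun p => h (blockEquiv r k _ p.2))
    (fun p => h1 _)
    (by
      intro x ω
      exact hS (blockEquiv r k _ ω))
    (by
      intro x t ω V hVS
      have := hV (blockSub ω t V) (fun u => by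
        rw [blockSub_apply]
        exact hVS u)
      simp only [blockSub_apply] at this
      exact this)
    (by
      calc dens S' ≤ 1 := dens_le_one S'
        _ ≤ τ + r * ρ := by linarith)
  have e : avg (fun p : Unit × (Fin r → Fin k → Option β) =>
      ind S' p * h (blockEquiv r k _ p.2)) = avg (fun x => ind S x * h x) := by
    rw [← avg_equiv ((Equiv.punitProd _).trans (blockEquiv r k (Option β)))
      (fun x => ind S x * h x)]
    refine avg_congr fun p => ?_
    congr 1
  rw [← e]
  exact this

theorem ins_inter [Fintype β] [DecidableEq β] (hβ : MDHJ β) (t : Finset β) :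
    ∀ (d : ℕ) (τ : ℝ), 0 < τ → ∃ n : ℕ, ∀ S : β → Set (Fin n → Option β),
      (∀ b ∈ t, Ins b (S b)) → ∀ g : (Fin n → Option β) → ℝ, (∀ x, g x ≤ 1) →
      (∀ V : Subspace (Fin d) (Option β) (Fin n), avg (fun u => g (V u)) ≤ 0) →
      avg (fun x => ind (⋂ b ∈ t, S b) x * g x) ≤ τ := by
  induction t using Finset.induction_on with
  | empty =>
    intro d τ hτ
    refine ⟨d, fun S _ g _ hV => ?_⟩
    have h1 := hV ⟨Sum.inr, fun e => ⟨e, rfl⟩⟩
    have h2 : ∀ x : Fin d → Option β, ind (⋂ b ∈ (∅ : Finset β), S b) x * g x = g x := by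
      intro x
      rw [ind_mem (by simp), one_mul]
    rw [avg_congr h2]
    exact le_trans h1 hτ.le
  | insert a t ha ih =>
    intro d τ hτ
    obtain ⟨n', hn'⟩ := ih d (τ / 2) (by positivity)
    obtain ⟨n, hn⟩ := ins_avg hβ a n' (τ / 2) (by positivity)
    refine ⟨n, fun S hS g hg hV => ?_⟩
    have h1 := hn (S a) (hS a (Finset.mem_insert_self a t))
      (fun x => ind (⋂ b ∈ t, S b) x * g x - τ / 2)
      (fun x => by
        have : ind (⋂ b ∈ t, S b) x * g x ≤ 1 := by
          calc ind (⋂ b ∈ t, S b) x * g x ≤ ind (⋂ b ∈ t, S b) x * 1 :=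
                mul_le_mul_of_nonneg_left (hg x) (ind_nonneg _ _)
            _ ≤ 1 := by rw [mul_one]; exact ind_le_one _ _
        linarith)
      (fun V _ => by
        rw [avg_sub, avg_const]
        have := hn' (fun b => (fun u => V u) ⁻¹' S b)
          (fun b hb => (hS b (Finset.mem_insert_of_mem hb)).pull V)
          (fun u => g (V u)) (fun u => hg _)
          (fun W => by
            have := hV (comp V W)
            simp only [comp_apply] at this
            exact this)
        have e : ∀ u, ind (⋂ b ∈ t, (fun u => V u) ⁻¹' S b) u * g (V u) =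
            ind (⋂ b ∈ t, S b) (V u) * g (V u) := by
          intro u
          rw [← ind_preimage (fun u => V u) (⋂ b ∈ t, S b) u]
          congr 2
          simp only [Set.preimage_iInter]
        rw [avg_congr e] at this
        linarith)
    have e : ∀ x, ind (⋂ b ∈ insert a t, S b) x * g x =
        ind (S a) x * (ind (⋂ b ∈ t, S b) x * g x - τ / 2) + (τ / 2) * ind (S a) x := by
      intro x
      have : ind (⋂ b ∈ insert a t, S b) x = ind (S a) x * ind (⋂ b ∈ t, S b) x := by
        rw [Finset.set_biInter_insert]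
        by_cases h1 : x ∈ S a
        · by_cases h2 : x ∈ ⋂ b ∈ t, S b
          · rw [ind_mem h1, ind_mem h2,
              ind_mem (show x ∈ S a ∩ ⋂ b ∈ t, S b from ⟨h1, h2⟩), one_mul]
          · rw [ind_mem h1, ind_not_mem h2,
              ind_not_mem (show x ∉ S a ∩ ⋂ b ∈ t, S b from fun h => h2 h.2), mul_zero]
        · rw [ind_not_mem h1,
            ind_not_mem (show x ∉ S a ∩ ⋂ b ∈ t, S b from fun h => h1 h.1), zero_mul]
      rw [this]
      ring
    rw [avg_congr e, avg_add, avg_mul]
    have h2 : avg (ind (S a)) ≤ 1 := dens_le_one (S a)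
    have h3 : τ / 2 * avg (ind (S a)) ≤ τ / 2 * 1 :=
      mul_le_mul_of_nonneg_left h2 (by positivity)
    linarith

theorem ins_compl [Fintype β] [DecidableEq β] (hβ : MDHJ β) (d : ℕ) (τ : ℝ) (hτ : 0 < τ) :
    ∃ n : ℕ, ∀ D : β → Set (Fin n → Option β), (∀ b, Ins b (D b)) →
      ∀ g : (Fin n → Option β) → ℝ, (∀ x, g x ≤ 1) →
      (∀ V : Subspace (Fin d) (Option β) (Fin n), avg (fun u => g (V u)) ≤ 0) →
      avg (fun x => ind (⋂ b, D b)ᶜ x * g x) ≤ τ := by
  classical
  set c : ℝ := (Fintype.card (Finset β) : ℝ) with hc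
  have hc0 : 0 < c := by rw [hc]; exact_mod_cast Fintype.card_pos
  obtain ⟨n, hn⟩ := ins_inter hβ Finset.univ d (τ / c) (by positivity)
  refine ⟨n, fun D hD g hg hV => ?_⟩
  let S : Finset β → β → Set (Fin n → Option β) := fun P b => if b ∈ P then D b else (D b)ᶜ
  have hS : ∀ P b, Ins b (S P b) := by
    intro P b
    change Ins b (if b ∈ P then D b else (D b)ᶜ)
    split_ifs
    · exact hD b
    · exact (hD b).compl
  have hcell : ∀ P, avg (fun x => ind (⋂ b ∈ (Finset.univ : Finset β), S P b) x * g x) ≤ τ / c :=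
    fun P => hn (S P) (fun b _ => hS P b) g hg hV
  have hmem : ∀ P x, x ∈ (⋂ b ∈ (Finset.univ : Finset β), S P b) ↔
      P = Finset.univ.filter (fun b => x ∈ D b) := by
    intro P x
    simp only [Set.mem_iInter, Finset.mem_univ, forall_true_left]
    constructor
    · intro h
      ext b
      have := h b
      simp only [Finset.mem_filter, Finset.mem_univ, true_and]
      by_cases hb : b ∈ P
      · simp only [S, if_pos hb] at this
        exact ⟨fun _ => this, fun _ => hb⟩
      · simp only [S, if_neg hb] at this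
        exact ⟨fun h => absurd h hb, fun h => absurd h this⟩
    · rintro rfl b
      by_cases hb : x ∈ D b
      · simp only [S, Finset.mem_filter, Finset.mem_univ, true_and, if_pos hb]
        exact hb
      · simp only [S, Finset.mem_filter, Finset.mem_univ, true_and, if_neg hb]
        exact hb
  have hsum : ∀ x, ind (⋂ b, D b)ᶜ x * g x =
      ∑ P ∈ Finset.univ.erase (Finset.univ : Finset β),
        ind (⋂ b ∈ (Finset.univ : Finset β), S P b) x * g x := by
    intro x
    rw [← Finset.sum_mul]
    congr 1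
    by_cases hx : x ∈ ⋂ b, D b
    · rw [ind_not_mem (show x ∉ (⋂ b, D b)ᶜ from fun h => h hx)]
      symm
      apply Finset.sum_eq_zero
      intro P hP
      rw [ind_not_mem]
      rw [hmem]
      intro h
      apply Finset.ne_of_mem_erase hP
      rw [h]
      ext b
      simp only [Finset.mem_filter, Finset.mem_univ, true_and, iff_true]
      exact Set.mem_iInter.mp hx b
    · rw [ind_mem (show x ∈ (⋂ b, D b)ᶜ from hx)]
      symm
      rw [Finset.sum_eq_single (Finset.univ.filter (fun b => x ∈ D b))]
      · rw [ind_mem]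
        rw [hmem]
      · intro P _ hP
        rw [ind_not_mem]
        rw [hmem]
        exact hP
      · intro h
        exfalso
        apply h
        rw [Finset.mem_erase]
        refine ⟨fun h' => hx ?_, Finset.mem_univ _⟩
        rw [Set.mem_iInter]
        intro b
        have := Finset.mem_univ b
        rw [← h'] at this
        simpa using this
  rw [avg_congr hsum, avg_sum]
  calc _ ≤ ∑ P ∈ Finset.univ.erase (Finset.univ : Finset β), τ / c :=
        Finset.sum_le_sum fun P _ => hcell P
    _ ≤ ∑ P : Finset β, τ / c :=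
        Finset.sum_le_sum_of_subset_of_nonneg (Finset.erase_subset _ _)
          (fun _ _ _ => by positivity)
    _ = τ := by
        rw [Finset.sum_const, Finset.card_univ, nsmul_eq_mul, ← hc]
        field_simp

end Partition3

end Pool.Agent.Helper903.DHJ

namespace Pool.Agent.Helper903.DHJ

open Combinatorics

section MainStep

variable {β : Type}

theorem prob_dhj [Fintype β] [Nonempty β] (h : LDHJ β) (δ : ℝ) (hδ : 0 < δ) :
    ∃ (m0 : ℕ) (θ : ℝ), 0 < θ ∧ ∀ (Y : Type) [Fintype Y] [Nonempty Y]
      (W : (Fin m0 → β) → Set Y), (∀ u, δ ≤ dens (W u)) →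
      ∃ x : Fin m0 → Option β, (∃ i, x i = none) ∧
        θ ≤ dens {y | ∀ b, y ∈ W (fun i => (x i).getD b)} := by
  obtain ⟨m0, hm0⟩ := h (δ / 2) (by positivity)
  set c : ℝ := (Fintype.card (Fin m0 → Option β) : ℝ) with hc
  have hc0 : 0 < c := by rw [hc]; exact_mod_cast Fintype.card_pos
  refine ⟨m0, (δ / 2) / c, by positivity, ?_⟩
  intro Y _ _ W hW
  have havg : avg (fun y => dens {u : Fin m0 → β | y ∈ W u}) = avg (fun u => dens (W u)) := by
    unfold dens
    conv_rhs => rw [avg_comm]
    refine avg_congr fun y => avg_congr fun u => ?_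
    by_cases hy : y ∈ W u
    · rw [ind_mem hy, ind_mem (show u ∈ {u | y ∈ W u} from hy)]
    · rw [ind_not_mem hy, ind_not_mem (show u ∉ {u | y ∈ W u} from hy)]
  have h1 : δ ≤ avg (fun y => dens {u : Fin m0 → β | y ∈ W u}) := by
    rw [havg]
    calc δ = avg (fun _ : Fin m0 → β => δ) := (avg_const _).symm
      _ ≤ _ := avg_mono hW
  have h2 : δ / 2 ≤ dens {y | δ / 2 ≤ (fun y => dens {u : Fin m0 → β | y ∈ W u}) y} := by
    apply dens_large (by positivity) (fun y => dens_le_one _)
    linarith
  obtain ⟨x, hx⟩ := dens_pigeon {y | δ / 2 ≤ (fun y => dens {u : Fin m0 → β | y ∈ W u}) y}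
    (fun x : Fin m0 → Option β => {y | (∃ i, x i = none) ∧ ∀ b, y ∈ W (fun i => (x i).getD b)})
    (fun y hy => by
      obtain ⟨L, hL⟩ := hm0 _ hy
      exact ⟨L.idxFun, L.proper, fun b => hL b⟩)
  rw [← hc] at hx
  have hx' : (δ / 2) / c ≤ dens {y | (∃ i, x i = none) ∧ ∀ b, y ∈ W (fun i => (x i).getD b)} :=
    le_trans (by gcongr) hx
  have hxn : ∃ i, x i = none := by
    obtain ⟨y, hy⟩ := nonempty_of_dens_pos (lt_of_lt_of_le (by positivity) hx')
    exact hy.1
  refine ⟨x, hxn, hx'.trans (dens_mono fun y hy => hy.2)⟩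

theorem mono_dim {α : Type} [Fintype α] [Nonempty α] (F : ∀ ι : Type, Set (ι → α) → Prop)
    (hF : Hered α F) {c : ℝ} {n : ℕ} (h : ∀ A : Set (Fin n → α), F (Fin n) A → dens A < c)
    (n' : ℕ) (hn : n ≤ n') (A : Set (Fin n' → α)) (hA : F (Fin n') A) : dens A < c := by
  obtain ⟨j, rfl⟩ := Nat.exists_eq_add_of_le hn
  set A' : Set (Fin n ⊕ Fin j → α) := (fun x => ofEq (finSumFinEquiv.symm) x) ⁻¹' A with hA'
  have hdens : dens A' = dens A :=
    dens_preimage_equiv (Equiv.arrowCongr finSumFinEquiv (Equiv.refl α)) A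
  have hFA : F _ A' := hF _ _ hA
  rw [← hdens, ← avg_fib]
  obtain ⟨y, hy⟩ := exists_avg_le (fun y : Fin j → α => dens {x : Fin n → α | Sum.elim x y ∈ A'})
  refine lt_of_le_of_lt hy (h _ ?_)
  have := hF (fixr y) A' hFA
  have heq : (fun x => (fixr y : Subspace (Fin n) α (Fin n ⊕ Fin j)) x) ⁻¹' A' =
        {x : Fin n → α | Sum.elim x y ∈ A'} := by
      ext x
      simp [fixr_apply]
  rwa [heq] at this

theorem dens_const_words [Fintype β] [Nonempty β] (m : ℕ) :
    dens {x : Fin m → Option β | ∀ i, x i ≠ none} =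
      ((Fintype.card β : ℝ) / (Fintype.card β + 1)) ^ m := by
  have h1 : {x : Fin m → Option β | ∀ i, x i ≠ none} =
      Set.range (fun (u : Fin m → β) => (fun i => some (u i) : Fin m → Option β)) := by
    ext x
    constructor
    · intro hx
      have : ∀ i, ∃ b, x i = some b := fun i => Option.ne_none_iff_exists'.mp (hx i)
      choose u hu using this
      exact ⟨u, funext fun i => (hu i).symm⟩
    · rintro ⟨u, rfl⟩ i
      simp
  rw [h1, dens_range]
  · rw [Fintype.card_fun, Fintype.card_fun, Fintype.card_option, Fintype.card_fin, div_pow]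
    push_cast
    rfl
  · intro u v huv
    funext i
    have := congrFun huv i
    exact Option.some.inj this

theorem dim_le_of_compl [Fintype β] [Nonempty β] {d n : ℕ} {τ : ℝ} (hτ : τ < 1)
    (h : ∀ D : β → Set (Fin n → Option β), (∀ b, Ins b (D b)) →
      ∀ g : (Fin n → Option β) → ℝ, (∀ x, g x ≤ 1) →
      (∀ V : Subspace (Fin d) (Option β) (Fin n), avg (fun u => g (V u)) ≤ 0) →
      avg (fun x => ind (⋂ b, D b)ᶜ x * g x) ≤ τ) : d ≤ n := by
  by_contra hcon
  have := h (fun _ => ∅) (fun b x => by simp) (fun _ => 1) (fun _ => le_refl _)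
    (fun V => by
      exfalso
      apply hcon
      choose f hf using V.proper
      have hinj : Function.Injective f := by
        intro a b hab
        have h1 := hf a
        rw [hab, hf b] at h1
        exact (Sum.inr.inj h1).symm
      simpa using Fintype.card_le_of_injective f hinj)
  have e : ∀ x : Fin n → Option β, ind (⋂ _b : β, (∅ : Set (Fin n → Option β)))ᶜ x * 1 = 1 := by
    intro x
    rw [ind_mem (by simp), one_mul]
  rw [avg_congr e, avg_const] at this
  linarith

end MainStep

end Pool.Agent.Helper903.DHJ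

namespace Pool.Agent.Helper903.DHJ

open Combinatorics

section Step

variable {β : Type}

theorem ext_getD {m M : ℕ} (V : Subspace (Fin m) β (Fin M)) (x : Fin m → Option β) (b : β) :
    (fun i => ((GR.ext V x i).getD b)) = V (fun e => (x e).getD b) := by
  funext i
  simp only [GR.ext, Subspace.coe_apply]
  cases V.idxFun i <;> simp

theorem dhj_step [Fintype β] [Nonempty β] (hL : LDHJ β) : LDHJ (Option β) := by
  classical
  have hM := mdhj_of_ldhj hL
  by_contra hcon
  unfold LDHJ at hcon
  push Not at hcon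
  obtain ⟨δ, hδ, hcon⟩ := hcon
  obtain ⟨δ', hδδ', hδ'1, h3, h4⟩ := homog (LineFree (Option β)) (hered_lineFree _) (δ := δ)
    (fun n => by
      obtain ⟨A, hA1, hA2⟩ := hcon n
      exact ⟨A, hA2, hA1⟩)
  have hδ' : 0 < δ' := lt_of_lt_of_le hδ hδδ'
  obtain ⟨m0, θ0, hθ0, hprob⟩ := prob_dhj hL (δ' / 2) (by positivity)
  set θ : ℝ := min θ0 1 with hθdef
  have hθ : 0 < θ := lt_min hθ0 one_pos
  have hθ1 : θ ≤ 1 := min_le_right _ _
  have hθθ0 : θ ≤ θ0 := min_le_left _ _
  set μ : ℝ := δ' * θ with hμ
  have hμ0 : 0 < μ := by positivity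
  have hμ1 : μ ≤ 1 := by
    rw [hμ]
    calc δ' * θ ≤ 1 * 1 := mul_le_mul hδ'1 hθ1 hθ.le zero_le_one
      _ = 1 := one_mul 1
  -- dimension where densities drop below δ' + γ
  obtain ⟨n1, hn1⟩ := h3 (μ / 8) (by positivity)
  -- constant words are negligible
  set q : ℝ := (Fintype.card β : ℝ) / (Fintype.card β + 1) with hq
  have hq0 : 0 ≤ q := by positivity
  have hq1 : q < 1 := by
    rw [hq, div_lt_one (by positivity)]
    linarith
  obtain ⟨m1, hm1⟩ := exists_pow_lt_of_lt_one (show 0 < μ / 16 by positivity) hq1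
  set d : ℕ := max n1 (max m0 m1) with hd
  obtain ⟨m, hm⟩ := ins_compl hM d (μ / 8) (by positivity)
  have hdm : d ≤ m := dim_le_of_compl (by linarith) hm
  have hm0m : m0 ≤ m := le_trans (le_trans (le_max_left _ _) (le_max_right _ _)) hdm
  have hm1m : m1 ≤ m := le_trans (le_trans (le_max_right _ _) (le_max_right _ _)) hdm
  have hqm : q ^ m ≤ μ / 16 :=
    (pow_le_pow_of_le_one hq0 hq1.le hm1m).trans hm1.le
  obtain ⟨M, hGR⟩ := GR.graham_rothschild β Prop m
  obtain ⟨n, A, hA, hdA⟩ := h4 (μ / 16) (by positivity) M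
  -- colour the lines
  obtain ⟨V, col, hcol⟩ := hGR (fun x : Fin M → Option β =>
    θ ≤ dens {y : Fin n → Option β | ∀ b, Sum.elim (fun i => some ((x i).getD b)) y ∈ A})
  have b0 : β := Classical.arbitrary β
  have hcolT : col := by
    let emb : (Fin m0 → β) → (Fin m → β) := fun u j =>
      if h : (j : ℕ) < m0 then u ⟨j, h⟩ else b0
    obtain ⟨x0, ⟨i0, hi0⟩, hx0⟩ := hprob (Fin n → Option β)
      (fun u => {y | Sum.elim (fun i => some (V (emb u) i)) y ∈ A})
      (fun u => by
        have := hdA (fun i => some (V (emb u) i))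
        have h5 : μ / 16 ≤ δ' / 2 := by
          have : μ ≤ δ' := by
            rw [hμ]; exact mul_le_of_le_one_right hδ'.le hθ1
          linarith
        linarith)
    let x : Fin m → Option β := fun j => if h : (j : ℕ) < m0 then x0 ⟨j, h⟩ else some b0
    have hx : ∃ i, x i = none := by
      refine ⟨⟨i0, lt_of_lt_of_le i0.2 hm0m⟩, ?_⟩
      simp only [x, dif_pos i0.2]
      exact hi0
    have h6 := hcol x hx
    rw [← h6]
    refine le_trans hθθ0 (le_trans hx0 (dens_mono ?_))
    intro y hy b
    have h7 := hy b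
    have h8 : (fun i => some ((GR.ext V x i).getD b)) =
        (fun i => some (V (emb (fun i => (x0 i).getD b)) i)) := by
      funext i
      rw [congrFun (ext_getD V x b) i]
      congr 3
      funext j
      by_cases hj : (j : ℕ) < m0
      · simp only [x, emb, dif_pos hj]
      · simp only [x, emb, dif_neg hj, Option.getD_some]
    rw [h8]
    exact h7
  have hline : ∀ x : Fin m → Option β, (∃ i, x i = none) →
      θ ≤ dens {y : Fin n → Option β |
        ∀ b, Sum.elim (fun i => some (V (fun e => (x e).getD b) i)) y ∈ A} := by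
    intro x hx
    have h6 := hcol x hx
    rw [eq_true hcolT] at h6
    have h7 := of_eq_true h6
    refine le_trans h7 (dens_mono ?_)
    intro y hy b
    have h8 := hy b
    have h9 : (fun i => some ((GR.ext V x i).getD b)) =
        (fun i => some (V (fun e => (x e).getD b) i)) := by
      funext i
      rw [congrFun (ext_getD V x b) i]
    rw [h9] at h8
    exact h8
  -- the sets B and D
  let B : (Fin n → Option β) → Set (Fin m → Option β) := fun y =>
    {x | Sum.elim (lift V x) y ∈ A}
  let D : (Fin n → Option β) → β → Set (Fin m → Option β) := fun y b =>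
    {x | repl b x ∈ B y}
  have hDins : ∀ y b, Ins b (D y b) := by
    intro y b x
    change repl b x ∈ B y ↔ repl b (repl b x) ∈ B y
    rw [repl_repl]
  have hBfree : ∀ y, LineFree (Option β) (Fin m) (B y) := by
    intro y
    have h5 := hered_lineFree (Option β) (comp (fixr y) (lift V)) A hA
    have heq : (fun x => (comp (fixr y) (lift V) : Subspace (Fin m) (Option β)
        (Fin M ⊕ Fin n)) x) ⁻¹' A = B y := by
      ext x
      simp only [Set.mem_preimage, comp_apply, fixr_apply]
      rfl
    rwa [heq] at h5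
  have hDmem : ∀ y x b, x ∈ D y b ↔
      Sum.elim (fun i => some (V (fun e => (x e).getD b) i)) y ∈ A := by
    intro y x b
    change Sum.elim (lift V (repl b x)) y ∈ A ↔ _
    have : lift V (repl b x) = fun i => some (V (fun e => (x e).getD b) i) :=
      lift_some V (fun e => (x e).getD b)
    rw [this]
  have hBD : ∀ y, B y ∩ (⋂ b, D y b) ⊆ {x | ∀ i, x i ≠ none} := by
    rintro y x ⟨hxB, hxD⟩ i hi
    let L : Line (Option β) (Fin m) := ⟨fun i => (x i).map some, ⟨i, by simp [hi]⟩⟩
    obtain ⟨a, ha⟩ := hBfree y L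
    apply ha
    cases a with
    | none =>
      have : L none = x := by
        funext j
        simp only [Line.coe_apply, L]
        cases x j <;> simp
      rw [this]
      exact hxB
    | some b =>
      have : L (some b) = repl b x := by
        funext j
        simp only [Line.coe_apply, L, repl]
        cases x j <;> simp
      rw [this]
      exact Set.mem_iInter.mp hxD b
  -- averages over y
  have hBavg : δ' - μ / 16 ≤ avg (fun y => dens (B y)) := by
    have h5 : avg (fun y => dens (B y)) = avg (fun x : Fin m → Option β =>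
        dens {y : Fin n → Option β | Sum.elim (lift V x) y ∈ A}) := by
      unfold dens
      conv_rhs => rw [avg_comm]
      refine avg_congr fun y => avg_congr fun x => ?_
      by_cases hy : Sum.elim (lift V x) y ∈ A
      · rw [ind_mem (show x ∈ B y from hy),
          ind_mem (show y ∈ {y | Sum.elim (lift V x) y ∈ A} from hy)]
      · rw [ind_not_mem (show x ∉ B y from hy),
          ind_not_mem (show y ∉ {y | Sum.elim (lift V x) y ∈ A} from hy)]
    rw [h5]
    calc δ' - μ / 16 = avg (fun _ : Fin m → Option β => δ' - μ / 16) := (avg_const _).symm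
      _ ≤ _ := avg_mono fun x => hdA (lift V x)
  have hDavg : θ * (1 - q ^ m) ≤ avg (fun y => dens (⋂ b, D y b)) := by
    have h5 : avg (fun y => dens (⋂ b, D y b)) = avg (fun x : Fin m → Option β =>
        dens {y : Fin n → Option β |
          ∀ b, Sum.elim (fun i => some (V (fun e => (x e).getD b) i)) y ∈ A}) := by
      unfold dens
      conv_rhs => rw [avg_comm]
      refine avg_congr fun y => avg_congr fun x => ?_
      by_cases hy : ∀ b, Sum.elim (fun i => some (V (fun e => (x e).getD b) i)) y ∈ A
      · rw [ind_mem (show x ∈ ⋂ b, D y b from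
            Set.mem_iInter.mpr fun b => (hDmem y x b).mpr (hy b)),
          ind_mem (show y ∈ {y | ∀ b, Sum.elim (fun i =>
            some (V (fun e => (x e).getD b) i)) y ∈ A} from hy)]
      · rw [ind_not_mem (show x ∉ ⋂ b, D y b from
            fun h => hy fun b => (hDmem y x b).mp (Set.mem_iInter.mp h b)),
          ind_not_mem (show y ∉ {y | ∀ b, Sum.elim (fun i =>
            some (V (fun e => (x e).getD b) i)) y ∈ A} from hy)]
    rw [h5]
    have h6 : avg (fun x : Fin m → Option β =>
        θ * (1 - ind {x : Fin m → Option β | ∀ i, x i ≠ none} x)) = θ * (1 - q ^ m) := by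
      rw [avg_mul, avg_sub, avg_const]
      congr 2
      exact dens_const_words m
    rw [← h6]
    refine avg_mono fun x => ?_
    by_cases hx : ∃ i, x i = none
    · rw [ind_not_mem (show x ∉ {x : Fin m → Option β | ∀ i, x i ≠ none} from
        fun h => by obtain ⟨i, hi⟩ := hx; exact h i hi), sub_zero, mul_one]
      exact hline x hx
    · push Not at hx
      rw [ind_mem (show x ∈ {x : Fin m → Option β | ∀ i, x i ≠ none} from hx), sub_self, mul_zero]
      exact dens_nonneg _
  -- choose y
  have hpt : ∀ y, dens (B y) - q ^ m - (δ' + μ / 8) * (1 - dens (⋂ b, D y b)) ≤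
      avg (fun x => ind (⋂ b, D y b)ᶜ x * (ind (B y) x - (δ' + μ / 8))) := by
    intro y
    have e : ∀ x, ind (⋂ b, D y b)ᶜ x * (ind (B y) x - (δ' + μ / 8)) =
        ind (B y) x - ind (B y ∩ (⋂ b, D y b)) x -
          (δ' + μ / 8) * (1 - ind (⋂ b, D y b) x) := by
      intro x
      by_cases h1 : x ∈ ⋂ b, D y b
      · rw [ind_mem h1, ind_not_mem (show x ∉ (⋂ b, D y b)ᶜ from fun h => h h1)]
        by_cases h2 : x ∈ B y
        · rw [ind_mem h2, ind_mem (show x ∈ B y ∩ (⋂ b, D y b) from ⟨h2, h1⟩)]
          ring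
        · rw [ind_not_mem h2, ind_not_mem (show x ∉ B y ∩ (⋂ b, D y b) from fun h => h2 h.1)]
          ring
      · rw [ind_not_mem h1, ind_mem (show x ∈ (⋂ b, D y b)ᶜ from h1),
          ind_not_mem (show x ∉ B y ∩ (⋂ b, D y b) from fun h => h1 h.2)]
        ring
    rw [avg_congr e, avg_sub, avg_sub, avg_mul, avg_sub, avg_const]
    have h5 : avg (ind (B y ∩ (⋂ b, D y b))) ≤ q ^ m := by
      have := dens_mono (hBD y)
      rw [dens_const_words m] at this
      exact this
    change dens (B y) - q ^ m - _ ≤ dens (B y) - avg (ind (B y ∩ (⋂ b, D y b))) - _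
    have h6 : (δ' + μ / 8) * (1 - dens (⋂ b, D y b)) =
      (δ' + μ / 8) * (1 - avg (ind (⋂ b, D y b))) := rfl
    rw [h6]
    linarith
  obtain ⟨y, hy⟩ := exists_avg_le (fun y =>
    dens (B y) - q ^ m - (δ' + μ / 8) * (1 - dens (⋂ b, D y b)))
  have hbig : μ / 8 < avg (fun x => ind (⋂ b, D y b)ᶜ x * (ind (B y) x - (δ' + μ / 8))) := by
    refine lt_of_lt_of_le ?_ (hy.trans (hpt y))
    rw [avg_sub, avg_sub, avg_const, avg_mul, avg_sub, avg_const]
    have h5 : (δ' + μ / 8) * (1 - avg (fun y => dens (⋂ b, D y b))) ≤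
        (δ' + μ / 8) * (1 - θ * (1 - q ^ m)) := by
      apply mul_le_mul_of_nonneg_left _ (by positivity)
      linarith
    have h6 : θ / 2 ≤ θ * (1 - q ^ m) := by
      have : q ^ m ≤ 1 / 2 := by linarith
      nlinarith
    have h7 : (δ' + μ / 8) * (1 - θ * (1 - q ^ m)) ≤ (δ' + μ / 8) * (1 - θ / 2) := by
      apply mul_le_mul_of_nonneg_left _ (by positivity)
      linarith
    have h8 : (δ' + μ / 8) * (1 - θ / 2) ≤ δ' - μ / 2 + μ / 8 := by
      have : (δ' + μ / 8) * (1 - θ / 2) = δ' - μ / 2 + μ / 8 - μ * θ / 16 := by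
        rw [hμ]; ring
      have h9 : 0 ≤ μ * θ / 16 := by positivity
      linarith
    linarith
  -- contradiction
  have := hm (D y) (hDins y) (fun x => ind (B y) x - (δ' + μ / 8))
    (fun x => by
      have := ind_le_one (B y) x
      have h5 : 0 < δ' + μ / 8 := by positivity
      linarith)
    (fun W => by
      rw [avg_sub, avg_const]
      have h5 : avg (fun u => ind (B y) (W u)) = dens ((fun u => W u) ⁻¹' (B y)) := by
        unfold dens
        exact avg_congr fun u => (ind_preimage _ _ _).symm
      rw [h5]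
      have h6 := mono_dim (LineFree (Option β)) (hered_lineFree _) hn1 d (le_max_left _ _)
        _ (hered_lineFree _ W _ (hBfree y))
      linarith)
  linarith

theorem ldhj_equiv {α γ : Type} [Fintype α] [Fintype γ] (e : α ≃ γ) (h : LDHJ α) : LDHJ γ := by
  intro δ hδ
  obtain ⟨n, hn⟩ := h δ hδ
  refine ⟨n, fun A hA => ?_⟩
  have hd := dens_preimage_equiv (Equiv.arrowCongr (Equiv.refl (Fin n)) e) A
  obtain ⟨L, hL⟩ := hn _ (le_of_le_of_eq hA hd.symm)
  refine ⟨L.map e, fun c => ?_⟩
  have h1 := hL (e.symm c)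
  have h2 : (L.map e) c = e ∘ (L (e.symm c)) := by
    rw [← Line.map_apply, Equiv.apply_symm_apply]
  rw [h2]
  exact h1

theorem ldhj_of_unique {α : Type} [Fintype α] [Unique α] : LDHJ α := by
  intro δ hδ
  refine ⟨1, fun A hA => ?_⟩
  obtain ⟨x, hx⟩ := nonempty_of_dens_pos (hδ.trans_le hA)
  refine ⟨⟨fun _ => none, ⟨0, rfl⟩⟩, fun a => ?_⟩
  have : ∀ z : Fin 1 → α, z = x := fun z => Subsingleton.elim _ _
  rw [this (Line.toFun _ a)]
  exact hx

/-- the density Hales-Jewett theorem for lines -/
theorem ldhj (α : Type) [Fintype α] : LDHJ α := by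
  have key : ∀ k : ℕ, LDHJ (Fin (k + 1)) := by
    intro k
    induction k with
    | zero =>
      have : Unique (Fin (0 + 1)) := inferInstanceAs (Unique (Fin 1))
      exact ldhj_of_unique
    | succ k ih =>
      exact ldhj_equiv (finSuccEquiv (k + 1)).symm (dhj_step ih)
  by_cases hα : Nonempty α
  · have hc : Fintype.card α = (Fintype.card α - 1) + 1 := by
      have := Fintype.card_pos (α := α)
      omega
    exact ldhj_equiv ((Fintype.equivFinOfCardEq hc).symm) (key _)
  · rw [not_nonempty_iff] at hα
    intro δ hδ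
    refine ⟨1, fun A _ => ⟨⟨fun _ => none, ⟨0, rfl⟩⟩, fun a => (hα.false a).elim⟩⟩

theorem mdhj (α : Type) [Fintype α] [Nonempty α] : MDHJ α := mdhj_of_ldhj (ldhj α)

end Step

end Pool.Agent.Helper903.DHJ
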