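import Mathlib

set_option autoImplicit false

/-!
# `K_{3,3}` minus an edge
-/

namespace Pool.Agent.Helper903.EDF

open SimpleGraph

/-- adjacency of `K_{3,3}` minus one edge: the sides are `{0,1,2}` and `{3,4,5}`, and the
missing edge is `2 - 5` -/
def adjB (i j : Fin 6) : Bool :=
  (decide (i.val < 3) && decide (3 ≤ j.val) && !(decide (i.val = 2) && decide (j.val = 5))) ||
  (decide (j.val < 3) && decide (3 ≤ i.val) && !(decide (j.val = 2) && decide (i.val = 5)))

/-- `K_{3,3}` minus one edge -/
def F : SimpleGraph (Fin 6) where
  Adj i j := adjB i j = true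
  symm := ⟨by decide⟩
  loopless := ⟨by decide⟩

instance : DecidableRel F.Adj := fun i j => inferInstanceAs (Decidable (adjB i j = true))

end Pool.Agent.Helper903.EDF
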