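import Pool.Agent.Helper903.EDFDefs

set_option autoImplicit false

/-!
# The extremal number of `K_{3,3}` minus an edge has order `n^{3/2}`
-/

namespace Pool.Agent.Helper903.EDF

open SimpleGraph

section upper

variable {V : Type} [Fintype V] [DecidableEq V] (G : SimpleGraph V) [DecidableRel G.Adj]

omit [Fintype V] [DecidableEq V] [DecidableRel G.Adj] in
theorem copy_of {x y d a b c : V} (hxy : x ≠ y) (hxd : x ≠ d) (hyd : y ≠ d) (hab : a ≠ b)
    (hac : a ≠ c) (hbc : b ≠ c) (hdc : d ≠ c) (xa : G.Adj x a) (xb : G.Adj x b)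
    (xc : G.Adj x c) (ya : G.Adj y a) (yb : G.Adj y b) (yc : G.Adj y c) (da : G.Adj d a)
    (db : G.Adj d b) : F ⊑ G := by
  refine ⟨⟨⟨![x, y, d, a, b, c], ?_⟩, ?_⟩⟩
  · intro i j hij
    fin_cases i <;> fin_cases j <;> first
      | exact absurd hij (by decide)
      | (simp; first | assumption | (apply SimpleGraph.Adj.symm; assumption))
  · intro i j hij
    have := xa.ne; have := xb.ne; have := xc.ne; have := ya.ne; have := yb.ne; have := yc.ne
    have := da.ne; have := db.ne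
    fin_cases i <;> fin_cases j <;> simp at hij ⊢ <;> first
      | exact absurd hij ‹_›
      | exact absurd hij.symm ‹_›

/-- common neighbours -/
def cn (x y : V) : Finset V := Finset.univ.filter fun c => G.Adj x c ∧ G.Adj y c

omit [DecidableEq V] in
theorem mem_cn (x y c : V) : c ∈ cn G x y ↔ G.Adj x c ∧ G.Adj y c := by
  simp [cn]

theorem heavy_pair (h : F.Free G) {x y : V} (hxy : x ≠ y) (h4 : 4 ≤ (cn G x y).card)
    {a b : V} (ha : a ∈ cn G x y) (hb : b ∈ cn G x y) (hab : a ≠ b) {d : V}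
    (hd : d ∈ cn G a b) : d = x ∨ d = y := by
  by_contra hcon
  push Not at hcon
  obtain ⟨c, hc⟩ : ((((cn G x y).erase a).erase b).erase d).Nonempty := by
    rw [← Finset.card_pos]
    have h1 := Finset.pred_card_le_card_erase (s := cn G x y) (a := a)
    have h2 := Finset.pred_card_le_card_erase (s := (cn G x y).erase a) (a := b)
    have h3 := Finset.pred_card_le_card_erase (s := ((cn G x y).erase a).erase b) (a := d)
    omega
  rw [Finset.mem_erase, Finset.mem_erase, Finset.mem_erase, mem_cn] at hc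
  rw [mem_cn] at ha hb hd
  obtain ⟨hcd, hcb, hca, hxc, hyc⟩ := hc
  exact h (copy_of G hxy hcon.1.symm hcon.2.symm hab hca.symm hcb.symm hcd.symm ha.1 hb.1 hxc
    ha.2 hb.2 hyc hd.1.symm hd.2.symm)

/-- the quadruples `(x, y, a, b)` with `a ≠ b` common neighbours of the heavy pair `x ≠ y` -/
def quad : Finset ((V × V) × (V × V)) :=
  Finset.univ.filter fun q => q.1.1 ≠ q.1.2 ∧ 4 ≤ (cn G q.1.1 q.1.2).card ∧
    q.2.1 ∈ cn G q.1.1 q.1.2 ∧ q.2.2 ∈ cn G q.1.1 q.1.2 ∧ q.2.1 ≠ q.2.2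

theorem quad_card_le (h : F.Free G) : (quad G).card ≤ 2 * Fintype.card V ^ 2 := by
  have h1 : (quad G).card ≤ 2 * (Finset.univ : Finset (V × V)).card := by
    apply Finset.card_le_mul_card_image_of_maps_to (f := Prod.snd) (fun _ _ => Finset.mem_univ _)
    rintro ⟨a, b⟩ -
    by_cases hne : ((quad G).filter fun q => q.2 = (a, b)).Nonempty
    · obtain ⟨⟨⟨x, y⟩, ⟨a', b'⟩⟩, hq⟩ := hne
      simp only [Finset.mem_filter, quad, Finset.mem_univ, true_and, Prod.mk.injEq] at hq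
      obtain ⟨⟨hxy, h4, ha, hb, hab⟩, rfl, rfl⟩ := hq
      have : ((quad G).filter fun q => q.2 = (a', b')) ⊆
          {((x, y), (a', b')), ((y, x), (a', b'))} := by
        rintro ⟨⟨x', y'⟩, ⟨a'', b''⟩⟩ hq'
        simp only [Finset.mem_filter, quad, Finset.mem_univ, true_and, Prod.mk.injEq] at hq'
        obtain ⟨⟨hxy', h4', ha', hb', hab'⟩, rfl, rfl⟩ := hq'
        rw [mem_cn] at ha' hb'
        have e1 := heavy_pair G h hxy h4 ha hb hab (d := x')
          (by rw [mem_cn]; exact ⟨ha'.1.symm, hb'.1.symm⟩)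
        have e2 := heavy_pair G h hxy h4 ha hb hab (d := y')
          (by rw [mem_cn]; exact ⟨ha'.2.symm, hb'.2.symm⟩)
        rw [Finset.mem_insert, Finset.mem_singleton]
        rcases e1 with rfl | rfl <;> rcases e2 with rfl | rfl
        · exact absurd rfl hxy'
        · left; rfl
        · right; rfl
        · exact absurd rfl hxy'
      exact (Finset.card_le_card this).trans Finset.card_le_two
    · rw [Finset.not_nonempty_iff_eq_empty] at hne
      rw [hne]
      simp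
  rw [Finset.card_univ, Fintype.card_prod] at h1
  calc _ ≤ _ := h1
    _ = _ := by ring

theorem quad_card : (quad G).card = ∑ q : V × V, if q.1 ≠ q.2 ∧ 4 ≤ (cn G q.1 q.2).card then
    (cn G q.1 q.2).card * ((cn G q.1 q.2).card - 1) else 0 := by
  rw [Finset.card_eq_sum_card_fiberwise (f := Prod.fst) (t := Finset.univ)
    (fun _ _ => Finset.mem_univ _)]
  apply Finset.sum_congr rfl
  rintro ⟨x, y⟩ -
  split_ifs with hq
  · have : ((quad G).filter fun q => q.1 = (x, y)) =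
        ((cn G x y).offDiag).image fun ab => ((x, y), ab) := by
      ext ⟨⟨x', y'⟩, ⟨a, b⟩⟩
      simp only [Finset.mem_filter, quad, Finset.mem_univ, true_and, Prod.mk.injEq,
        Finset.mem_image, Finset.mem_offDiag, Prod.exists]
      constructor
      · rintro ⟨⟨h1, h2, h3, h4, h5⟩, rfl, rfl⟩
        exact ⟨a, b, ⟨h3, h4, h5⟩, ⟨rfl, rfl⟩, rfl, rfl⟩
      · rintro ⟨a', b', ⟨h3, h4, h5⟩, ⟨rfl, rfl⟩, rfl, rfl⟩
        exact ⟨⟨hq.1, hq.2, h3, h4, h5⟩, rfl, rfl⟩
    rw [this, Finset.card_image_of_injective _ (fun a b hab => by simpa using hab),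
      Finset.offDiag_card, Nat.mul_sub_one]
  · rw [Finset.card_eq_zero, Finset.filter_eq_empty_iff]
    rintro ⟨⟨x', y'⟩, ⟨a, b⟩⟩ hq' heq
    simp only [Prod.mk.injEq] at heq
    obtain ⟨rfl, rfl⟩ := heq
    simp only [Finset.mem_filter, quad, Finset.mem_univ, true_and] at hq'
    exact hq ⟨hq'.1, hq'.2.1⟩

omit [DecidableEq V] in
theorem sum_cn : ∑ q : V × V, (cn G q.1 q.2).card = ∑ c, G.degree c ^ 2 := by
  have h1 : ∀ q : V × V, (cn G q.1 q.2).card =
      ∑ c, if G.Adj q.1 c ∧ G.Adj q.2 c then 1 else 0 := by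
    intro q
    rw [cn, Finset.card_filter]
  simp_rw [h1]
  rw [Finset.sum_comm]
  apply Finset.sum_congr rfl
  intro c _
  rw [← Finset.card_filter]
  have : (Finset.univ.filter fun q : V × V => G.Adj q.1 c ∧ G.Adj q.2 c) =
      G.neighborFinset c ×ˢ G.neighborFinset c := by
    ext ⟨x, y⟩
    simp [G.adj_comm]
  rw [this, Finset.card_product, SimpleGraph.card_neighborFinset_eq_degree]
  ring

theorem sum_deg_sq_le (h : F.Free G) : ∑ c, G.degree c ^ 2 ≤ 6 * Fintype.card V ^ 2 := by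
  rw [← sum_cn]
  have h1 : ∀ q : V × V, (cn G q.1 q.2).card ≤ (if q.1 = q.2 then Fintype.card V else 0) + 3 +
      (if q.1 ≠ q.2 ∧ 4 ≤ (cn G q.1 q.2).card then
        (cn G q.1 q.2).card * ((cn G q.1 q.2).card - 1) else 0) := by
    intro q
    by_cases hq : q.1 = q.2
    · rw [if_pos hq]
      have : (cn G q.1 q.2).card ≤ Fintype.card V := Finset.card_le_univ _
      omega
    · rw [if_neg hq]
      by_cases h4 : 4 ≤ (cn G q.1 q.2).card
      · rw [if_pos ⟨hq, h4⟩]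
        have : (cn G q.1 q.2).card ≤ (cn G q.1 q.2).card * ((cn G q.1 q.2).card - 1) :=
          Nat.le_mul_of_pos_right _ (by omega)
        omega
      · omega
  have h2 := Finset.sum_le_sum (fun q (_ : q ∈ (Finset.univ : Finset (V × V))) => h1 q)
  rw [Finset.sum_add_distrib, Finset.sum_add_distrib, ← quad_card] at h2
  have h3 : ∑ q : V × V, (if q.1 = q.2 then Fintype.card V else 0) = Fintype.card V ^ 2 := by
    rw [Fintype.sum_prod_type]
    simp [sq]
  have h4 : ∑ q : V × V, 3 = 3 * Fintype.card V ^ 2 := by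
    simp
    ring
  have h5 := quad_card_le G h
  omega

theorem edges_le (h : F.Free G) :
    (G.edgeFinset.card : ℝ) ≤ 2 * (Fintype.card V : ℝ) ^ (3 / 2 : ℝ) := by
  have h1 := sum_deg_sq_le G h
  have h2 := sq_sum_le_card_mul_sum_sq (s := (Finset.univ : Finset V))
    (f := fun c => (G.degree c : ℝ))
  have h3 := G.sum_degrees_eq_twice_card_edges
  have h3' : ∑ c, (G.degree c : ℝ) = 2 * (G.edgeFinset.card : ℝ) := by
    exact_mod_cast h3
  have h1' : ∑ c, (G.degree c : ℝ) ^ 2 ≤ 6 * (Fintype.card V : ℝ) ^ 2 := by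
    exact_mod_cast h1
  rw [h3', Finset.card_univ] at h2
  set n : ℝ := (Fintype.card V : ℝ) with hn
  have hn0 : 0 ≤ n := Nat.cast_nonneg _
  have h4 : (2 * (G.edgeFinset.card : ℝ)) ^ 2 ≤ 6 * n ^ 3 := by
    calc _ ≤ _ := h2
      _ ≤ n * (6 * n ^ 2) := by gcongr
      _ = _ := by ring
  have h5 : (n ^ (3 / 2 : ℝ)) ^ 2 = n ^ 3 := by
    rw [← Real.rpow_natCast, ← Real.rpow_mul hn0, ← Real.rpow_natCast]
    norm_num
  have h6 : 0 ≤ n ^ (3 / 2 : ℝ) := Real.rpow_nonneg hn0 _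
  apply le_of_sq_le_sq _ (by positivity)
  rw [mul_pow, h5]
  nlinarith [pow_nonneg hn0 3]

end upper

theorem ex_le (n : ℕ) : (extremalNumber n F : ℝ) ≤ 2 * (n : ℝ) ^ (3 / 2 : ℝ) := by
  classical
  have h := (extremalNumber_le_iff_of_nonneg (V := Fin n) F
    (m := (2 * (n : ℝ) ^ (3 / 2 : ℝ))) (by positivity)).2 (fun G _ hG => by
      have := edges_le G hG
      rwa [Fintype.card_fin] at this)
  rwa [Fintype.card_fin] at h

/-! ### lower bound for the extremal number -/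

theorem free_of_c4free {V : Type} (G : SimpleGraph V)
    (h : ∀ x y a b, x ≠ y → a ≠ b → G.Adj x a → G.Adj x b → G.Adj y a → G.Adj y b → False) :
    F.Free G := by
  rintro ⟨f⟩
  have hadj : ∀ i j, F.Adj i j → G.Adj (f i) (f j) := fun i j hij => f.toHom.map_adj hij
  have hinj := f.injective
  exact h (f 0) (f 1) (f 3) (f 4) (hinj.ne (by decide)) (hinj.ne (by decide))
    (hadj 0 3 (by decide)) (hadj 0 4 (by decide)) (hadj 1 3 (by decide)) (hadj 1 4 (by decide))

section incidence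

variable {q : ℕ} [Fact q.Prime] {V : Type} (e : (Fin 2 × ZMod q × ZMod q) ↪ V)

/-- the point-line incidence graph -/
def inc : SimpleGraph V where
  Adj x y := ∃ a b c : ZMod q, (x = e (0, a, a * b + c) ∧ y = e (1, b, c)) ∨
    (y = e (0, a, a * b + c) ∧ x = e (1, b, c))
  symm := ⟨by
    rintro x y ⟨a, b, c, h⟩
    exact ⟨a, b, c, h.symm⟩⟩
  loopless := ⟨by
    rintro x ⟨a, b, c, ⟨h1, h2⟩ | ⟨h1, h2⟩⟩ <;>
    · have := e.injective (h1.symm.trans h2)
      simp at this⟩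

theorem inc_aux {a b c d r s t u : ZMod q} (h1 : b = a * r + s) (h2 : b = a * t + u)
    (h3 : d = c * r + s) (h4 : d = c * t + u) : (a = c ∧ b = d) ∨ (r = t ∧ s = u) := by
  have h : (a - c) * (r - t) = 0 := by linear_combination h2 - h1 + h3 - h4
  rcases mul_eq_zero.1 h with h | h
  · left
    have : a = c := sub_eq_zero.1 h
    subst this
    exact ⟨rfl, by rw [h1, h3]⟩
  · right
    have : r = t := sub_eq_zero.1 h
    subst this
    exact ⟨rfl, by linear_combination h2 - h1⟩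

theorem inc_adj0 (x : ZMod q × ZMod q) (b : V) (hx : b = e (0, x)) (v : V)
    (h : (inc e).Adj b v) : ∃ y : ZMod q × ZMod q, v = e (1, y) ∧ x.2 = x.1 * y.1 + y.2 := by
  obtain ⟨a, b', c, ⟨h1, h2⟩ | ⟨h1, h2⟩⟩ := h
  · have h3 := e.injective (hx.symm.trans h1)
    simp only [Prod.mk.injEq, true_and] at h3
    subst h3
    exact ⟨(b', c), h2, rfl⟩
  · have h3 := e.injective (hx.symm.trans h2)
    simp at h3

theorem inc_adj1 (x : ZMod q × ZMod q) (b : V) (hx : b = e (1, x)) (v : V)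
    (h : (inc e).Adj b v) : ∃ y : ZMod q × ZMod q, v = e (0, y) ∧ y.2 = y.1 * x.1 + x.2 := by
  obtain ⟨a, b', c, ⟨h1, h2⟩ | ⟨h1, h2⟩⟩ := h
  · have h3 := e.injective (hx.symm.trans h1)
    simp at h3
  · have h3 := e.injective (hx.symm.trans h2)
    simp only [Prod.mk.injEq, true_and] at h3
    subst h3
    exact ⟨(a, a * b' + c), h1, rfl⟩

theorem inc_free : F.Free (inc e) := by
  apply free_of_c4free
  intro x y a b hxy hab xa xb ya yb
  have hx : (∃ x', x = e (0, x')) ∨ ∃ x', x = e (1, x') := by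
    obtain ⟨_, _, _, ⟨h1, h2⟩ | ⟨h1, h2⟩⟩ := xa
    · exact Or.inl ⟨_, h1⟩
    · exact Or.inr ⟨_, h2⟩
  rcases hx with ⟨x', hx⟩ | ⟨x', hx⟩
  · obtain ⟨a', ha, ea⟩ := inc_adj0 e x' x hx a xa
    obtain ⟨b', hb, eb⟩ := inc_adj0 e x' x hx b xb
    obtain ⟨y', hy, ec⟩ := inc_adj1 e a' a ha y ya.symm
    obtain ⟨y'', hy', ed⟩ := inc_adj1 e b' b hb y yb.symm
    have : y' = y'' := by simpa using e.injective (hy.symm.trans hy')
    subst this
    rcases inc_aux ea eb ec ed with ⟨h1, h2⟩ | ⟨h1, h2⟩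
    · exact hxy (by rw [hx, hy, Prod.ext h1 h2])
    · exact hab (by rw [ha, hb, Prod.ext h1 h2])
  · obtain ⟨a', ha, ea⟩ := inc_adj1 e x' x hx a xa
    obtain ⟨b', hb, eb⟩ := inc_adj1 e x' x hx b xb
    obtain ⟨y', hy, ec⟩ := inc_adj0 e a' a ha y ya.symm
    obtain ⟨y'', hy', ed⟩ := inc_adj0 e b' b hb y yb.symm
    have : y' = y'' := by simpa using e.injective (hy.symm.trans hy')
    subst this
    rcases inc_aux ea ec eb ed with ⟨h1, h2⟩ | ⟨h1, h2⟩
    · exact hab (by rw [ha, hb, Prod.ext h1 h2])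
    · exact hxy (by rw [hx, hy, Prod.ext h1 h2])

theorem inc_edges [Fintype V] [DecidableEq V] [DecidableRel (inc e).Adj] :
    q ^ 3 ≤ (inc e).edgeFinset.card := by
  have h : Fintype.card (ZMod q × ZMod q × ZMod q) = q ^ 3 := by
    simp [ZMod.card]
    ring
  rw [← h, ← Finset.card_univ]
  apply Finset.card_le_card_of_injOn
    (fun t : ZMod q × ZMod q × ZMod q => s(e (0, t.1, t.1 * t.2.1 + t.2.2), e (1, t.2.1, t.2.2)))
  · intro t _
    simp only [Finset.mem_coe, SimpleGraph.mem_edgeFinset, SimpleGraph.mem_edgeSet]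
    exact ⟨t.1, t.2.1, t.2.2, Or.inl ⟨rfl, rfl⟩⟩
  · rintro ⟨a, b, c⟩ _ ⟨a', b', c'⟩ _ hh
    simp only [Sym2.eq_iff] at hh
    rcases hh with ⟨h1, h2⟩ | ⟨h1, h2⟩
    · have h1' := e.injective h1
      have h2' := e.injective h2
      simp only [Prod.mk.injEq, true_and] at h1' h2'
      simp [h1'.1, h2'.1, h2'.2]
    · have h1' := e.injective h1
      simp at h1'

end incidence

theorem exists_prime_near (n : ℕ) (hn : 8 ≤ n) : ∃ q : ℕ, q.Prime ∧ 2 * q ^ 2 ≤ n ∧
    n ≤ 8 * q ^ 2 := by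
  have h1 : Nat.sqrt (n / 2) ^ 2 ≤ n / 2 := Nat.sqrt_le' _
  have h2 : n / 2 < (Nat.sqrt (n / 2) + 1) ^ 2 := Nat.lt_succ_sqrt' _
  set m := Nat.sqrt (n / 2) with hm
  have h3 : 2 ≤ m := by
    by_contra hcon
    have : m ≤ 1 := by omega
    have : (m + 1) ^ 2 ≤ 4 := by nlinarith
    omega
  obtain ⟨q, hq, hq1, hq2⟩ := Nat.exists_prime_lt_and_le_two_mul (m / 2) (by omega)
  refine ⟨q, hq, ?_, ?_⟩
  · have h4 : q ≤ m := by omega
    have h5 : q ^ 2 ≤ m ^ 2 := Nat.pow_le_pow_left h4 2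
    omega
  · have h4 : m + 1 ≤ 2 * q := by omega
    have h5 : (m + 1) ^ 2 ≤ (2 * q) ^ 2 := Nat.pow_le_pow_left h4 2
    have h6 : (2 * q) ^ 2 = 4 * q ^ 2 := by ring
    omega

theorem rpow_three_halves {n q : ℕ} (h : n ≤ 9 * q ^ 2) :
    (n : ℝ) ^ (3 / 2 : ℝ) ≤ 27 * (q : ℝ) ^ 3 := by
  have h1 : (n : ℝ) ≤ (3 * (q : ℝ)) ^ 2 := by
    have : (n : ℝ) ≤ ((9 * q ^ 2 : ℕ) : ℝ) := by exact_mod_cast h
    push_cast at this
    nlinarith
  calc (n : ℝ) ^ (3 / 2 : ℝ) ≤ ((3 * (q : ℝ)) ^ 2) ^ (3 / 2 : ℝ) :=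
        Real.rpow_le_rpow (Nat.cast_nonneg _) h1 (by norm_num)
    _ = 27 * (q : ℝ) ^ 3 := by
        rw [← Real.rpow_natCast, ← Real.rpow_mul (by positivity)]
        norm_num
        ring

theorem ex_ge (n : ℕ) (hn : 8 ≤ n) :
    (1 / 27) * (n : ℝ) ^ (3 / 2 : ℝ) ≤ (extremalNumber n F : ℝ) := by
  classical
  obtain ⟨q, hq, h1, h2⟩ := exists_prime_near n hn
  have : Fact q.Prime := ⟨hq⟩
  have hcard : Fintype.card (Fin 2 × ZMod q × ZMod q) ≤ Fintype.card (Fin n) := by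
    simp [ZMod.card]
    nlinarith
  obtain ⟨e⟩ := Function.Embedding.nonempty_of_card_le hcard
  have h3 := card_edgeFinset_le_extremalNumber (inc_free e)
  have h4 := inc_edges e
  rw [Fintype.card_fin] at h3
  have h5 : ((q ^ 3 : ℕ) : ℝ) ≤ (extremalNumber n F : ℝ) := by exact_mod_cast h4.trans h3
  have h6 := rpow_three_halves (n := n) (q := q) (by omega)
  push_cast at h5
  linarith

end Pool.Agent.Helper903.EDF
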