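import Pool.Agent.Helper903.EDFDefs

set_option autoImplicit false
set_option linter.unusedTactic false
set_option linter.unreachableTactic false

/-!
# Edge-disjoint copies of `K_{3,3}` minus an edge without further copies

Over `ZMod p`, `p = 3 mod 4`, the planted copy with parameter `(u, s, v)` has the six vertices
`(u, v)`, `(s, v + 2us)`, `(u, v + us)`, `(u + s, v - s^2)`, `(u - s, v + s^2)`,
`(u + s, v + us)` in six disjoint copies of the plane.  With `u` and `s` restricted to suitable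
intervals the union of the planted copies contains no further copy.
-/

namespace Pool.Agent.Helper903.EDF

open SimpleGraph

variable {p : ℕ} [Fact p.Prime]

/-- the interval `[4k, 5k)` modulo `p` -/
def InU (k : ℕ) (x : ZMod p) : Prop := ∃ n : ℕ, 4 * k ≤ n ∧ n < 5 * k ∧ x = (n : ZMod p)

/-- the interval `[0, k)` modulo `p` -/
def InS (k : ℕ) (x : ZMod p) : Prop := ∃ n : ℕ, n < k ∧ x = (n : ZMod p)

/-- the edge relations of the big graph -/
def Rel (k : ℕ) (i j : Fin 6) (x z : ZMod p × ZMod p) : Prop :=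
  match i, j with
  | 0, 3 => InU k x.1 ∧ InS k (z.1 - x.1) ∧ x.2 - z.2 = (z.1 - x.1) ^ 2
  | 0, 4 => InU k x.1 ∧ InS k (x.1 - z.1) ∧ x.2 - z.2 = -(x.1 - z.1) ^ 2
  | 0, 5 => InU k x.1 ∧ InS k (z.1 - x.1) ∧ x.2 - z.2 = -(x.1 * (z.1 - x.1))
  | 1, 3 => InS k x.1 ∧ InU k (z.1 - x.1) ∧ x.2 - z.2 = 2 * (z.1 - x.1) * x.1 + x.1 ^ 2
  | 1, 4 => InS k x.1 ∧ InU k (z.1 + x.1) ∧ x.2 - z.2 = 2 * (z.1 + x.1) * x.1 - x.1 ^ 2
  | 1, 5 => InS k x.1 ∧ InU k (z.1 - x.1) ∧ x.2 - z.2 = (z.1 - x.1) * x.1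
  | 2, 3 => InU k x.1 ∧ InS k (z.1 - x.1) ∧ x.2 - z.2 = x.1 * (z.1 - x.1) + (z.1 - x.1) ^ 2
  | 2, 4 => InU k x.1 ∧ InS k (x.1 - z.1) ∧ x.2 - z.2 = x.1 * (x.1 - z.1) - (x.1 - z.1) ^ 2
  | _, _ => False

/-- the six vertices of the planted copy with parameter `(u, s, v)` -/
def phi (i : Fin 6) (u s v : ZMod p) : ZMod p × ZMod p :=
  match i with
  | 0 => (u, v)
  | 1 => (s, v + 2 * u * s)
  | 2 => (u, v + u * s)
  | 3 => (u + s, v - s ^ 2)
  | 4 => (u - s, v + s ^ 2)
  | 5 => (u + s, v + u * s)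

theorem rel_phi (k : ℕ) (i j : Fin 6) (h : F.Adj i j) (hi : i.val < 3) (u s v : ZMod p)
    (hu : InU k u) (hs : InS k s) : Rel k i j (phi i u s v) (phi j u s v) := by
  fin_cases i <;> fin_cases j <;> first
    | exact absurd h (by decide)
    | exact absurd hi (by decide)
    | (refine ⟨?_, ?_, ?_⟩
       · simpa [phi] using ‹_›
       · simp only [phi]
         first
           | simpa using hs
           | simpa using hu
       · simp only [phi]; ring)

theorem cast_eq {a b : ℕ} (ha : a < p) (hb : b < p) (h : (a : ZMod p) = b) : a = b := by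
  have := congrArg ZMod.val h
  rwa [ZMod.val_natCast_of_lt ha, ZMod.val_natCast_of_lt hb] at this

theorem two_ne {k : ℕ} {x : ZMod p} (hk : 16 * k < p) (hx : InU k x) : (2 : ZMod p) ≠ 0 := by
  obtain ⟨n, h1, h2, -⟩ := hx
  intro h
  have : ((2 : ℕ) : ZMod p) = ((0 : ℕ) : ZMod p) := by simpa using h
  have := cast_eq (by omega) (by omega) this
  omega

section lemmas

variable {k : ℕ} (hk : 16 * k < p)
include hk

theorem no_double {x y : ZMod p} (hx : InU k x) (hy : InU k y) : 2 * x ≠ y := by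
  obtain ⟨n, h1, h2, rfl⟩ := hx
  obtain ⟨m, h3, h4, rfl⟩ := hy
  intro h
  have : ((2 * n : ℕ) : ZMod p) = (m : ZMod p) := by push_cast; exact h
  have := cast_eq (by omega) (by omega) this
  omega

theorem u_ne {x : ZMod p} (hx : InU k x) : x ≠ 0 := by
  obtain ⟨n, h1, h2, rfl⟩ := hx
  intro h
  have : ((n : ℕ) : ZMod p) = ((0 : ℕ) : ZMod p) := by push_cast; exact h
  have := cast_eq (by omega) (by omega) this
  omega

theorem us_ne {x s : ZMod p} (hx : InU k x) (hs : InS k s) : x + s ≠ 0 := by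
  obtain ⟨n, h1, h2, rfl⟩ := hx
  obtain ⟨m, h3, rfl⟩ := hs
  intro h
  have : ((n + m : ℕ) : ZMod p) = ((0 : ℕ) : ZMod p) := by push_cast; exact h
  have := cast_eq (by omega) (by omega) this
  omega

theorem no_sum {x y z : ZMod p} (hx : InU k x) (hy : InU k y) (hz : InU k z) : x + y ≠ z := by
  obtain ⟨n, h1, h2, rfl⟩ := hx
  obtain ⟨m, h3, h4, rfl⟩ := hy
  obtain ⟨l, h5, h6, rfl⟩ := hz
  intro h
  have : ((n + m : ℕ) : ZMod p) = (l : ZMod p) := by push_cast; exact h
  have := cast_eq (by omega) (by omega) this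
  omega

/-- `2 (U + U')` misses `U + U'` -/
theorem no_r {x y s t : ZMod p} (hx : InU k x) (hy : InU k y) (hs : InS k s) (ht : InS k t) :
    2 * (x + s) ≠ y + t := by
  obtain ⟨n, h1, h2, rfl⟩ := hx
  obtain ⟨m, h3, h4, rfl⟩ := hy
  obtain ⟨a, h5, rfl⟩ := hs
  obtain ⟨b, h6, rfl⟩ := ht
  intro h
  have : ((2 * (n + a) : ℕ) : ZMod p) = ((m + b : ℕ) : ZMod p) := by push_cast; exact h
  have := cast_eq (by omega) (by omega) this
  omega

theorem no_c {x s t : ZMod p} (hx : InU k x) (hs : InS k s) (ht : InS k t) :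
    x + 2 * s ≠ t := by
  obtain ⟨n, h1, h2, rfl⟩ := hx
  obtain ⟨a, h5, rfl⟩ := hs
  obtain ⟨b, h6, rfl⟩ := ht
  intro h
  have : ((n + 2 * a : ℕ) : ZMod p) = ((b : ℕ) : ZMod p) := by push_cast; exact h
  have := cast_eq (by omega) (by omega) this
  omega

theorem no_d {x y z s : ZMod p} (hx : InU k x) (hy : InU k y) (hz : InU k z) (hs : InS k s) :
    x + y + s ≠ z := by
  obtain ⟨n, h1, h2, rfl⟩ := hx
  obtain ⟨m, h3, h4, rfl⟩ := hy
  obtain ⟨l, h5, h6, rfl⟩ := hz
  obtain ⟨a, h7, rfl⟩ := hs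
  intro h
  have : ((n + m + a : ℕ) : ZMod p) = (l : ZMod p) := by push_cast; exact h
  have := cast_eq (by omega) (by omega) this
  omega

/-- each of the eight bipartite pieces has no 4-cycle -/
theorem c4free (i j : Fin 6) (x y z w : ZMod p × ZMod p) (h1 : Rel k i j x z)
    (h2 : Rel k i j y z) (h3 : Rel k i j x w) (h4 : Rel k i j y w) : x = y ∨ z = w := by
  obtain ⟨x1, x2⟩ := x
  obtain ⟨y1, y2⟩ := y
  obtain ⟨z1, z2⟩ := z
  obtain ⟨w1, w2⟩ := w
  have key : (2 : ZMod p) ≠ 0 → (x1 - y1) * (z1 - w1) = 0 →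
      (x1 = y1 → x2 = y2) → (z1 = w1 → z2 = w2) →
      ((x1, x2) = (y1, y2) ∨ (z1, z2) = (w1, w2)) := by
    intro _ h hx hz
    rcases mul_eq_zero.1 h with h | h
    · left
      have h' : x1 = y1 := sub_eq_zero.1 h
      rw [h', hx h']
    · right
      have h' : z1 = w1 := sub_eq_zero.1 h
      rw [h', hz h']
  fin_cases i <;> fin_cases j <;> simp only [Rel] at h1 h2 h3 h4 <;>
    obtain ⟨a1, b1, c1⟩ := h1 <;> obtain ⟨a2, b2, c2⟩ := h2 <;> obtain ⟨a3, b3, c3⟩ := h3 <;>
    obtain ⟨a4, b4, c4⟩ := h4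
  · have h2' := two_ne hk a1
    apply key h2'
    · apply mul_left_cancel₀ h2'
      first | linear_combination c1 - c2 - c3 + c4 | linear_combination -c1 + c2 + c3 - c4
    · rintro rfl
      linear_combination c1 - c2
    · rintro rfl
      linear_combination c3 - c1
  · have h2' := two_ne hk a1
    apply key h2'
    · apply mul_left_cancel₀ h2'
      first | linear_combination c1 - c2 - c3 + c4 | linear_combination -c1 + c2 + c3 - c4
    · rintro rfl
      linear_combination c1 - c2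
    · rintro rfl
      linear_combination c3 - c1
  · have h2' := two_ne hk a1
    apply key h2'
    · first | linear_combination c1 - c2 - c3 + c4 | linear_combination -c1 + c2 + c3 - c4
    · rintro rfl
      linear_combination c1 - c2
    · rintro rfl
      linear_combination c3 - c1
  · have h2' := two_ne hk b1
    apply key h2'
    · apply mul_left_cancel₀ h2'
      first | linear_combination c1 - c2 - c3 + c4 | linear_combination -c1 + c2 + c3 - c4
    · rintro rfl
      linear_combination c1 - c2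
    · rintro rfl
      linear_combination c3 - c1
  · have h2' := two_ne hk b1
    apply key h2'
    · apply mul_left_cancel₀ h2'
      first | linear_combination c1 - c2 - c3 + c4 | linear_combination -c1 + c2 + c3 - c4
    · rintro rfl
      linear_combination c1 - c2
    · rintro rfl
      linear_combination c3 - c1
  · have h2' := two_ne hk b1
    apply key h2'
    · first | linear_combination c1 - c2 - c3 + c4 | linear_combination -c1 + c2 + c3 - c4
    · rintro rfl
      linear_combination c1 - c2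
    · rintro rfl
      linear_combination c3 - c1
  · have h2' := two_ne hk a1
    apply key h2'
    · first | linear_combination c1 - c2 - c3 + c4 | linear_combination -c1 + c2 + c3 - c4
    · rintro rfl
      linear_combination c1 - c2
    · rintro rfl
      linear_combination c3 - c1
  · have h2' := two_ne hk a1
    apply key h2'
    · first | linear_combination c1 - c2 - c3 + c4 | linear_combination -c1 + c2 + c3 - c4
    · rintro rfl
      linear_combination c1 - c2
    · rintro rfl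
      linear_combination c3 - c1

omit hk in
theorem of_mul {a b c d : ZMod p} (e : ZMod p) (he : e ≠ 0) (h : e * (a - b) = 0)
    (h' : a = b → c = d) : (a, c) = (b, d) := by
  rcases mul_eq_zero.1 h with h | h
  · exact absurd h he
  · have := sub_eq_zero.1 h
    rw [this, h' this]

theorem crossP (i j : Fin 6) (hi : i = 0 ∨ i = 1) (x y z w : ZMod p × ZMod p)
    (h1 : Rel k i j x z) (h2 : Rel k 2 j y z) (h3 : Rel k i j x w) (h4 : Rel k 2 j y w) :
    z = w := by
  obtain ⟨x1, x2⟩ := x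
  obtain ⟨y1, y2⟩ := y
  obtain ⟨z1, z2⟩ := z
  obtain ⟨w1, w2⟩ := w
  rcases hi with rfl | rfl <;> fin_cases j <;> simp only [Rel] at h1 h2 h3 h4 <;>
    obtain ⟨a1, b1, c1⟩ := h1 <;> obtain ⟨a2, b2, c2⟩ := h2 <;> obtain ⟨a3, b3, c3⟩ := h3 <;>
    obtain ⟨a4, b4, c4⟩ := h4
  · refine of_mul (2 * x1 - y1) (sub_ne_zero.2 (no_double hk a1 a2)) ?_ ?_
    · first | linear_combination c1 - c2 - c3 + c4 | linear_combination -c1 + c2 + c3 - c4
    · rintro rfl
      linear_combination c3 - c1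
  · refine of_mul (2 * x1 - y1) (sub_ne_zero.2 (no_double hk a1 a2)) ?_ ?_
    · first | linear_combination c1 - c2 - c3 + c4 | linear_combination -c1 + c2 + c3 - c4
    · rintro rfl
      linear_combination c3 - c1
  · refine of_mul ((z1 - x1) + (w1 - x1) - y1) (sub_ne_zero.2 (no_sum hk b1 b3 a2)) ?_ ?_
    · first | linear_combination c1 - c2 - c3 + c4 | linear_combination -c1 + c2 + c3 - c4
    · rintro rfl
      linear_combination c3 - c1
  · refine of_mul ((z1 + x1) + (w1 + x1) - y1) (sub_ne_zero.2 (no_sum hk b1 b3 a2)) ?_ ?_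
    · first | linear_combination c1 - c2 - c3 + c4 | linear_combination -c1 + c2 + c3 - c4
    · rintro rfl
      linear_combination c3 - c1

theorem crossQ (i j : Fin 6) (hj : j = 3 ∨ j = 4) (x y z w : ZMod p × ZMod p)
    (h1 : Rel k i j x z) (h2 : Rel k i j y z) (h3 : Rel k i 5 x w) (h4 : Rel k i 5 y w) :
    x = y := by
  obtain ⟨x1, x2⟩ := x
  obtain ⟨y1, y2⟩ := y
  obtain ⟨z1, z2⟩ := z
  obtain ⟨w1, w2⟩ := w
  rcases hj with rfl | rfl <;> fin_cases i <;> simp only [Rel] at h1 h2 h3 h4 <;>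
    obtain ⟨a1, b1, c1⟩ := h1 <;> obtain ⟨a2, b2, c2⟩ := h2 <;> obtain ⟨a3, b3, c3⟩ := h3 <;>
    obtain ⟨a4, b4, c4⟩ := h4
  · -- (3,5), type 0
    have e : 2 * z1 - w1 ≠ 0 := by
      have := no_r hk a1 a1 b1 b3
      intro h
      apply this
      linear_combination h
    refine of_mul _ e ?_ ?_
    · first | linear_combination c1 - c2 - c3 + c4 | linear_combination -c1 + c2 + c3 - c4
    · rintro rfl
      linear_combination c1 - c2
  · -- (3,5), type 1
    have e : 2 * z1 - w1 ≠ 0 := by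
      have := no_r hk b1 b3 a1 a1
      intro h
      apply this
      linear_combination h
    refine of_mul _ e ?_ ?_
    · first | linear_combination c1 - c2 - c3 + c4 | linear_combination -c1 + c2 + c3 - c4
    · rintro rfl
      linear_combination c1 - c2
  · -- (4,5), type 0
    have e : 2 * z1 + w1 - 2 * (x1 + y1) ≠ 0 := by
      have := no_c hk a1 b2 b3
      intro h
      apply this
      linear_combination -h
    refine of_mul _ e ?_ ?_
    · first | linear_combination c1 - c2 - c3 + c4 | linear_combination -c1 + c2 + c3 - c4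
    · rintro rfl
      linear_combination c1 - c2
  · -- (4,5), type 1
    have e : 2 * z1 + 2 * (x1 + y1) - w1 ≠ 0 := by
      have := no_d hk b1 b2 b3 a2
      intro h
      apply this
      linear_combination h
    refine of_mul _ e ?_ ?_
    · first | linear_combination c1 - c2 - c3 + c4 | linear_combination -c1 + c2 + c3 - c4
    · rintro rfl
      linear_combination c1 - c2

theorem exP (i : Fin 6) (x y z w : ZMod p × ZMod p)
    (h1 : Rel k i 3 x z) (h2 : Rel k i 3 y z) (h3 : Rel k i 5 x w) (h4 : Rel k i 5 y w) :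
    x = y := by
  obtain ⟨x1, x2⟩ := x
  obtain ⟨y1, y2⟩ := y
  obtain ⟨z1, z2⟩ := z
  obtain ⟨w1, w2⟩ := w
  fin_cases i <;> simp only [Rel] at h1 h2 h3 h4 <;>
    obtain ⟨a1, b1, c1⟩ := h1 <;> obtain ⟨a2, b2, c2⟩ := h2 <;> obtain ⟨a3, b3, c3⟩ := h3 <;>
    obtain ⟨a4, b4, c4⟩ := h4
  · have e : 2 * z1 - w1 ≠ 0 := by
      have := no_r hk a1 a1 b1 b3
      intro h
      apply this
      linear_combination h
    refine of_mul _ e ?_ ?_
    · first | linear_combination c1 - c2 - c3 + c4 | linear_combination -c1 + c2 + c3 - c4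
    · rintro rfl
      linear_combination c1 - c2
  · have e : 2 * z1 - w1 ≠ 0 := by
      have := no_r hk b1 b3 a1 a1
      intro h
      apply this
      linear_combination h
    refine of_mul _ e ?_ ?_
    · first | linear_combination c1 - c2 - c3 + c4 | linear_combination -c1 + c2 + c3 - c4
    · rintro rfl
      linear_combination c1 - c2

theorem exQ (j : Fin 6) (x y z w : ZMod p × ZMod p)
    (h1 : Rel k 0 j x z) (h2 : Rel k 0 j x w) (h3 : Rel k 2 j y z) (h4 : Rel k 2 j y w) :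
    z = w := by
  exact crossP hk 0 j (Or.inl rfl) x y z w h1 h3 h2 h4

omit hk in
theorem sum_sq (hp : p % 4 = 3) {x y : ZMod p} (h : x ^ 2 + y ^ 2 = 0) : x = 0 ∧ y = 0 := by
  by_cases hy : y = 0
  · subst hy
    refine ⟨?_, rfl⟩
    have : x ^ 2 = 0 := by linear_combination h
    exact pow_eq_zero_iff (two_ne_zero) |>.1 this
  · exfalso
    have : IsSquare (-1 : ZMod p) := by
      refine ⟨x / y, ?_⟩
      field_simp
      linear_combination -h
    rw [ZMod.exists_sq_eq_neg_one_iff] at this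
    exact this hp

omit hk in
theorem sq_zero {x : ZMod p} (h : x ^ 2 = 0) : x = 0 := pow_eq_zero_iff (two_ne_zero) |>.1 h

omit hk in
/-- the main trick: the cycle `0 3 1 4` only occurs in planted copies -/
theorem trick (hp : p % 4 = 3) {u s v : ZMod p} {b c : ZMod p × ZMod p}
    (h1 : Rel k 0 4 (phi 0 u s v) c) (h2 : Rel k 1 3 b (phi 3 u s v)) (h3 : Rel k 1 4 b c) :
    b = phi 1 u s v ∧ c = phi 4 u s v := by
  obtain ⟨b1, b2⟩ := b
  obtain ⟨c1, c2⟩ := c
  simp only [Rel, phi] at h1 h2 h3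
  obtain ⟨-, -, e1⟩ := h1
  obtain ⟨-, -, e2⟩ := h2
  obtain ⟨-, -, e3⟩ := h3
  have h : (s - b1) ^ 2 + (c1 - u + b1) ^ 2 = 0 := by
    linear_combination e1 + e2 - e3
  obtain ⟨h4, h5⟩ := sum_sq hp h
  have hb : b1 = s := by linear_combination -h4
  subst hb
  have hc : c1 = u - b1 := by linear_combination h5
  subst hc
  refine ⟨?_, ?_⟩
  · ext
    · rfl
    · simp only [phi]
      linear_combination e2
  · ext
    · rfl
    · simp only [phi]
      linear_combination -e1

omit hk in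
theorem u03 {u s v : ZMod p} {z : ZMod p × ZMod p}
    (h1 : Rel k 0 3 (phi 0 u s v) z) (h2 : Rel k 1 3 (phi 1 u s v) z) : z = phi 3 u s v := by
  obtain ⟨z1, z2⟩ := z
  simp only [Rel, phi] at h1 h2
  obtain ⟨-, -, e1⟩ := h1
  obtain ⟨-, -, e2⟩ := h2
  have h : z1 - (u + s) = 0 := by
    apply sq_zero
    linear_combination e2 - e1
  have hz : z1 = u + s := by linear_combination h
  subst hz
  ext
  · rfl
  · simp only [phi]
    linear_combination -e1

omit hk in
theorem u04 {u s v : ZMod p} {z : ZMod p × ZMod p}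
    (h1 : Rel k 0 4 (phi 0 u s v) z) (h2 : Rel k 1 4 (phi 1 u s v) z) : z = phi 4 u s v := by
  obtain ⟨z1, z2⟩ := z
  simp only [Rel, phi] at h1 h2
  obtain ⟨-, -, e1⟩ := h1
  obtain ⟨-, -, e2⟩ := h2
  have h : z1 - (u - s) = 0 := by
    apply sq_zero
    linear_combination e1 - e2
  have hz : z1 = u - s := by linear_combination h
  subst hz
  ext
  · rfl
  · simp only [phi]
    linear_combination -e1

omit hk in
theorem u05 {u s v : ZMod p} {z : ZMod p × ZMod p} (hus : u + s ≠ 0)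
    (h1 : Rel k 0 5 (phi 0 u s v) z) (h2 : Rel k 1 5 (phi 1 u s v) z) : z = phi 5 u s v := by
  obtain ⟨z1, z2⟩ := z
  simp only [Rel, phi] at h1 h2
  obtain ⟨-, -, e1⟩ := h1
  obtain ⟨-, -, e2⟩ := h2
  have h : (u + s) * (z1 - (u + s)) = 0 := by
    linear_combination e1 - e2
  refine of_mul _ hus h ?_
  rintro rfl
  linear_combination -e1

theorem u30 {u s v : ZMod p} {x : ZMod p × ZMod p}
    (h1 : Rel k 0 3 x (phi 3 u s v)) (h2 : Rel k 0 4 x (phi 4 u s v)) : x = phi 0 u s v := by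
  obtain ⟨x1, x2⟩ := x
  simp only [Rel, phi] at h1 h2
  obtain ⟨a1, -, e1⟩ := h1
  obtain ⟨-, -, e2⟩ := h2
  have h : x1 - u = 0 := by
    apply sq_zero
    apply mul_left_cancel₀ (two_ne hk a1)
    linear_combination e2 - e1
  have hz : x1 = u := by linear_combination h
  subst hz
  ext
  · rfl
  · simp only [phi]
    linear_combination e1

theorem u31 {u s v : ZMod p} {x : ZMod p × ZMod p} (hu : InU k u)
    (h1 : Rel k 1 3 x (phi 3 u s v)) (h2 : Rel k 1 4 x (phi 4 u s v)) : x = phi 1 u s v := by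
  obtain ⟨x1, x2⟩ := x
  simp only [Rel, phi] at h1 h2
  obtain ⟨-, -, e1⟩ := h1
  obtain ⟨-, -, e2⟩ := h2
  have h : x1 - s = 0 := by
    apply sq_zero
    apply mul_left_cancel₀ (two_ne hk hu)
    linear_combination e1 - e2
  have hz : x1 = s := by linear_combination h
  subst hz
  ext
  · rfl
  · simp only [phi]
    linear_combination e1

theorem u32 {u s v : ZMod p} {x : ZMod p × ZMod p} (hu : InU k u)
    (h1 : Rel k 2 3 x (phi 3 u s v)) (h2 : Rel k 2 4 x (phi 4 u s v)) : x = phi 2 u s v := by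
  obtain ⟨x1, x2⟩ := x
  simp only [Rel, phi] at h1 h2
  obtain ⟨-, -, e1⟩ := h1
  obtain ⟨-, -, e2⟩ := h2
  have h : u * (x1 - u) = 0 := by
    apply mul_left_cancel₀ (two_ne hk hu)
    linear_combination e1 - e2
  refine of_mul _ (u_ne hk hu) h ?_
  rintro rfl
  linear_combination e1

end lemmas

/-! ### the graph -/

/-- parameters of the planted copies -/
abbrev Par (p k : ℕ) := Fin k × Fin k × ZMod p

/-- the vertices of the planted copy `e` -/
def Phi (k : ℕ) (i : Fin 6) (e : Par p k) : Fin 6 × ZMod p × ZMod p :=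
  (i, phi i ((4 * k + e.1.val : ℕ) : ZMod p) ((e.2.1.val : ℕ) : ZMod p) e.2.2)

theorem inU (k : ℕ) (a : Fin k) : InU k ((4 * k + a.val : ℕ) : ZMod p) :=
  ⟨4 * k + a.val, by omega, by have := a.isLt; omega, rfl⟩

theorem inS (k : ℕ) (a : Fin k) : InS k ((a.val : ℕ) : ZMod p) :=
  ⟨a.val, a.isLt, rfl⟩

theorem rel_Phi (k : ℕ) (i j : Fin 6) (h : F.Adj i j) (hi : i.val < 3) (e : Par p k) :
    Rel k i j (Phi k i e).2 (Phi k j e).2 :=
  rel_phi k i j h hi _ _ _ (inU k e.1) (inS k e.2.1)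

/-- an edge of a planted copy determines the copy -/
theorem edge_inj {k : ℕ} (hk : 16 * k < p) (i j : Fin 6) (h : F.Adj i j) (e e' : Par p k)
    (h1 : Phi k i e = Phi k i e') (h2 : Phi k j e = Phi k j e') : e = e' := by
  obtain ⟨a, b, v⟩ := e
  obtain ⟨a', b', v'⟩ := e'
  have key : ((4 * k + a.val : ℕ) : ZMod p) = ((4 * k + a'.val : ℕ) : ZMod p) →
      ((b.val : ℕ) : ZMod p) = ((b'.val : ℕ) : ZMod p) → v = v' →
      ((a, b, v) : Par p k) = (a', b', v') := by
    intro ha hb hv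
    have h3 := a.isLt
    have h4 := a'.isLt
    have h5 := b.isLt
    have h6 := b'.isLt
    have ha' := cast_eq (by omega) (by omega) ha
    have hb' := cast_eq (by omega) (by omega) hb
    have ha'' : a = a' := Fin.ext (by omega)
    have hb'' : b = b' := Fin.ext hb'
    rw [ha'', hb'', hv]
  simp only [Phi, Prod.mk.injEq, true_and] at h1 h2
  generalize ((4 * k + a.val : ℕ) : ZMod p) = u at *
  generalize ((4 * k + a'.val : ℕ) : ZMod p) = u' at *
  generalize ((b.val : ℕ) : ZMod p) = s at *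
  generalize ((b'.val : ℕ) : ZMod p) = s' at *
  fin_cases i <;> fin_cases j <;> first
    | exact absurd h (by decide)
    | (simp only [phi, Prod.mk.injEq] at h1 h2
       obtain ⟨h1a, h1b⟩ := h1
       obtain ⟨h2a, h2b⟩ := h2
       have hu : u = u' := by
         first
           | linear_combination h1a
           | linear_combination h2a
           | linear_combination h1a - h2a
           | linear_combination h2a - h1a
           | linear_combination h1a + h2a
       subst hu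
       have hs : s = s' := by
         first
           | linear_combination h1a
           | linear_combination h2a
           | linear_combination -h1a
           | linear_combination -h2a
       subst hs
       refine key rfl rfl ?_
       first
         | linear_combination h1b
         | linear_combination h2b)

/-- adjacency in the union of the planted copies with parameters in `T` -/
def BAdj {k : ℕ} (T : Finset (Par p k)) (x y : Fin 6 × ZMod p × ZMod p) : Prop :=
  ∃ e ∈ T, ∃ i j, F.Adj i j ∧ x = Phi k i e ∧ y = Phi k j e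

theorem badj_symm {k : ℕ} {T : Finset (Par p k)} {x y : Fin 6 × ZMod p × ZMod p}
    (h : BAdj T x y) : BAdj T y x := by
  obtain ⟨e, he, i, j, hij, hx, hy⟩ := h
  exact ⟨e, he, j, i, hij.symm, hy, hx⟩

theorem badj_adj {k : ℕ} {T : Finset (Par p k)} {x y : Fin 6 × ZMod p × ZMod p}
    (h : BAdj T x y) : F.Adj x.1 y.1 := by
  obtain ⟨e, he, i, j, hij, rfl, rfl⟩ := h
  exact hij

theorem badj_rel {k : ℕ} {T : Finset (Par p k)} {x y : Fin 6 × ZMod p × ZMod p}
    (h : BAdj T x y) (hx : x.1.val < 3) : Rel k x.1 y.1 x.2 y.2 := by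
  obtain ⟨e, he, i, j, hij, rfl, rfl⟩ := h
  exact rel_Phi k i j hij hx e

theorem side1 : ∀ a b : Fin 6, F.Adj a b → a.val < 3 → 3 ≤ b.val := by decide
theorem side2 : ∀ a b : Fin 6, F.Adj a b → 3 ≤ b.val → a.val < 3 := by decide
theorem side3 : ∀ a b : Fin 6, F.Adj a b → 3 ≤ a.val → b.val < 3 := by decide

theorem rel_adj (k : ℕ) (i j : Fin 6) (x z : ZMod p × ZMod p) (h : Rel k i j x z) :
    F.Adj i j := by
  fin_cases i <;> fin_cases j <;> first
    | exact (h : False).elim
    | decide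

theorem caseP : ∀ i j : Fin 6, i.val < 3 → j.val < 3 → ¬ (i = 0 ∧ j = 1) → ¬ (i = 1 ∧ j = 0) →
    ¬ i = j → ((i = 0 ∨ i = 1) ∧ j = 2) ∨ ((j = 0 ∨ j = 1) ∧ i = 2) := by
  decide

theorem caseQ : ∀ a b : Fin 6, 3 ≤ a.val → 3 ≤ b.val → ¬ (a = 3 ∧ b = 4) → ¬ (a = 4 ∧ b = 3) →
    ¬ a = b → ((a = 3 ∨ a = 4) ∧ b = 5) ∨ ((b = 3 ∨ b = 4) ∧ a = 5) := by
  decide

theorem typeP {k : ℕ} (hk : 16 * k < p) (i j a : Fin 6) (hi : i.val < 3) (hj : j.val < 3)
    (h01 : ¬ (i = 0 ∧ j = 1)) (h10 : ¬ (i = 1 ∧ j = 0)) (x y z w : ZMod p × ZMod p)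
    (hxy : (i, x) ≠ (j, y)) (h1 : Rel k i a x z) (h2 : Rel k j a y z) (h3 : Rel k i a x w)
    (h4 : Rel k j a y w) : z = w := by
  by_cases hij : i = j
  · subst hij
    rcases c4free hk i a x y z w h1 h2 h3 h4 with h | h
    · exact absurd (by rw [h]) hxy
    · exact h
  · rcases caseP i j hi hj h01 h10 hij with ⟨hi', rfl⟩ | ⟨hj', rfl⟩
    · exact crossP hk i a hi' x y z w h1 h2 h3 h4
    · exact crossP hk j a hj' y x z w h2 h1 h4 h3

theorem typeQ {k : ℕ} (hk : 16 * k < p) (a b i : Fin 6) (ha : 3 ≤ a.val) (hb : 3 ≤ b.val)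
    (h34 : ¬ (a = 3 ∧ b = 4)) (h43 : ¬ (a = 4 ∧ b = 3)) (x y z w : ZMod p × ZMod p)
    (hzw : (a, z) ≠ (b, w)) (h1 : Rel k i a x z) (h2 : Rel k i a y z) (h3 : Rel k i b x w)
    (h4 : Rel k i b y w) : x = y := by
  by_cases hij : a = b
  · subst hij
    rcases c4free hk i a x y z w h1 h2 h3 h4 with h | h
    · exact h
    · exact absurd (by rw [h]) hzw
  · rcases caseQ a b ha hb h34 h43 hij with ⟨ha', rfl⟩ | ⟨hb', rfl⟩
    · exact crossQ hk i a ha' x y z w h1 h2 h3 h4
    · exact crossQ hk i b hb' x y w z h3 h4 h1 h2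

theorem threeP' : ∀ a b c : Fin 6, a ≠ b → a ≠ c → b ≠ c → 3 ≤ a.val → 3 ≤ b.val →
    3 ≤ c.val → (a = 3 ∨ b = 3 ∨ c = 3) ∧ (a = 5 ∨ b = 5 ∨ c = 5) := by
  decide

theorem threeQ' : ∀ a b c : Fin 6, a ≠ b → a ≠ c → b ≠ c → a.val < 3 → b.val < 3 →
    c.val < 3 → (a = 0 ∨ b = 0 ∨ c = 0) ∧ (a = 2 ∨ b = 2 ∨ c = 2) := by
  decide

theorem exists_of_or (t : Fin 3 → Fin 6) (a : Fin 6) (h : t 0 = a ∨ t 1 = a ∨ t 2 = a) :
    ∃ m, t m = a := by
  rcases h with h | h | h
  · exact ⟨0, h⟩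
  · exact ⟨1, h⟩
  · exact ⟨2, h⟩

theorem threeP (t : Fin 3 → Fin 6) (ht : Function.Injective t) (h : ∀ m, 3 ≤ (t m).val) :
    (∃ m, t m = 3) ∧ ∃ m, t m = 5 := by
  have := threeP' (t 0) (t 1) (t 2) (ht.ne (by decide)) (ht.ne (by decide))
    (ht.ne (by decide)) (h 0) (h 1) (h 2)
  exact ⟨exists_of_or t 3 this.1, exists_of_or t 5 this.2⟩

theorem threeQ (t : Fin 3 → Fin 6) (ht : Function.Injective t) (h : ∀ m, (t m).val < 3) :
    (∃ m, t m = 0) ∧ ∃ m, t m = 2 := by
  have := threeQ' (t 0) (t 1) (t 2) (ht.ne (by decide)) (ht.ne (by decide))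
    (ht.ne (by decide)) (h 0) (h 1) (h 2)
  exact ⟨exists_of_or t 0 this.1, exists_of_or t 2 this.2⟩

theorem finP : ∀ i j : Fin 6, i.val < 3 → j.val < 3 → (i = 0 → j ≠ 1) → (i = 1 → j ≠ 0) →
    ¬ i = j → F.Adj i 5 → F.Adj j 5 → False := by
  decide

theorem finQ : ∀ i j : Fin 6, 3 ≤ i.val → 3 ≤ j.val → (i = 3 → j ≠ 4) → (i = 4 → j ≠ 3) →
    ¬ i = j → F.Adj 2 i → F.Adj 2 j → False := by
  decide

theorem heavyP {k : ℕ} (hk : 16 * k < p) (x y : Fin 6 × ZMod p × ZMod p) (hxy : x ≠ y)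
    (hx : x.1.val < 3) (hy : y.1.val < 3) (z : Fin 3 → Fin 6 × ZMod p × ZMod p)
    (hz : Function.Injective z) (h1 : ∀ m, Rel k x.1 (z m).1 x.2 (z m).2)
    (h2 : ∀ m, Rel k y.1 (z m).1 y.2 (z m).2) :
    (x.1 = 0 ∧ y.1 = 1) ∨ (x.1 = 1 ∧ y.1 = 0) := by
  by_contra hcon
  push Not at hcon
  obtain ⟨hc1, hc2⟩ := hcon
  have hinj : Function.Injective fun m => (z m).1 := by
    intro m m' hmm
    have hmm' : (z m).1 = (z m').1 := hmm
    apply hz
    have := typeP hk x.1 y.1 (z m).1 hx hy (fun h => hc1 h.1 h.2) (fun h => hc2 h.1 h.2)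
      x.2 y.2 (z m).2 (z m').2 (by simpa using hxy) (h1 m) (h2 m)
      (by rw [hmm']; exact h1 m') (by rw [hmm']; exact h2 m')
    exact Prod.ext hmm' this
  have h3 : ∀ m, 3 ≤ ((fun m => (z m).1) m).val := fun m =>
    side1 _ _ (rel_adj k _ _ _ _ (h1 m)) hx
  obtain ⟨⟨m, hm⟩, m', hm'⟩ := threeP _ hinj h3
  replace hm : (z m).1 = 3 := hm
  replace hm' : (z m').1 = 5 := hm'
  have e1 := h1 m
  have e2 := h2 m
  have e3 := h1 m'
  have e4 := h2 m'
  rw [hm] at e1 e2
  rw [hm'] at e3 e4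
  by_cases hij : x.1 = y.1
  · rw [← hij] at e2 e4
    have := exP hk x.1 x.2 y.2 (z m).2 (z m').2 e1 e2 e3 e4
    exact hxy (Prod.ext hij this)
  · have a3 := rel_adj k _ _ _ _ e3
    have a4 := rel_adj k _ _ _ _ e4
    exact finP x.1 y.1 hx hy hc1 hc2 hij a3 a4

theorem heavyQ {k : ℕ} (hk : 16 * k < p) (z w : Fin 6 × ZMod p × ZMod p) (hzw : z ≠ w)
    (hz : 3 ≤ z.1.val) (hw : 3 ≤ w.1.val) (x : Fin 3 → Fin 6 × ZMod p × ZMod p)
    (hx : Function.Injective x) (h1 : ∀ m, Rel k (x m).1 z.1 (x m).2 z.2)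
    (h2 : ∀ m, Rel k (x m).1 w.1 (x m).2 w.2) :
    (z.1 = 3 ∧ w.1 = 4) ∨ (z.1 = 4 ∧ w.1 = 3) := by
  by_contra hcon
  push Not at hcon
  obtain ⟨hc1, hc2⟩ := hcon
  have hinj : Function.Injective fun m => (x m).1 := by
    intro m m' hmm
    have hmm' : (x m).1 = (x m').1 := hmm
    apply hx
    have := typeQ hk z.1 w.1 (x m).1 hz hw (fun h => hc1 h.1 h.2) (fun h => hc2 h.1 h.2)
      (x m).2 (x m').2 z.2 w.2 (by simpa using hzw) (h1 m) (by rw [hmm']; exact h1 m')
      (h2 m) (by rw [hmm']; exact h2 m')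
    exact Prod.ext hmm' this
  have h3 : ∀ m, ((fun m => (x m).1) m).val < 3 := fun m =>
    side2 _ _ (rel_adj k _ _ _ _ (h1 m)) hz
  obtain ⟨⟨m, hm⟩, m', hm'⟩ := threeQ _ hinj h3
  replace hm : (x m).1 = 0 := hm
  replace hm' : (x m').1 = 2 := hm'
  have e1 := h1 m
  have e2 := h2 m
  have e3 := h1 m'
  have e4 := h2 m'
  rw [hm] at e1 e2
  rw [hm'] at e3 e4
  by_cases hij : z.1 = w.1
  · rw [← hij] at e2 e4
    have := exQ hk z.1 (x m).2 (x m').2 z.2 w.2 e1 e2 e3 e4
    exact hzw (Prod.ext hij this)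
  · have a3 := rel_adj k _ _ _ _ e3
    have a4 := rel_adj k _ _ _ _ e4
    exact finQ z.1 w.1 hz hw hc1 hc2 hij a3 a4

/-- `f` runs over a planted copy -/
def Concl {k : ℕ} (T : Finset (Par p k)) (f : Fin 6 → Fin 6 × ZMod p × ZMod p) : Prop :=
  ∃ e ∈ T, ∃ π : Equiv.Perm (Fin 6), (∀ i j, F.Adj i j ↔ F.Adj (π i) (π j)) ∧
    ∀ i, f i = Phi k (π i) e

theorem concl_comp {k : ℕ} (T : Finset (Par p k)) (f : Fin 6 → Fin 6 × ZMod p × ZMod p)
    (τ : Equiv.Perm (Fin 6)) (hτ : ∀ i j, F.Adj i j ↔ F.Adj (τ i) (τ j))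
    (h : Concl T (f ∘ τ)) : Concl T f := by
  obtain ⟨e, he, π, hπ, hf⟩ := h
  refine ⟨e, he, τ.symm.trans π, ?_, ?_⟩
  · intro i j
    rw [Equiv.trans_apply, Equiv.trans_apply, ← hπ, hτ (τ.symm i) (τ.symm j)]
    simp
  · intro i
    rw [Equiv.trans_apply, ← hf]
    simp

theorem adj0 : ∀ a : Fin 6, F.Adj 0 a → a = 3 ∨ a = 4 ∨ a = 5 := by decide
theorem adj3 : ∀ a : Fin 6, F.Adj a 3 → a = 0 ∨ a = 1 ∨ a = 2 := by decide

theorem core {k : ℕ} (hk : 16 * k < p) (hp : p % 4 = 3) (T : Finset (Par p k))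
    (f : Fin 6 → Fin 6 × ZMod p × ZMod p) (hinj : Function.Injective f)
    (hf : ∀ i j, F.Adj i j → BAdj T (f i) (f j)) (h0 : (f 0).1 = 0) (h1 : (f 1).1 = 1)
    (h3 : (f 3).1 = 3) (h4 : (f 4).1 = 4) : Concl T f := by
  obtain ⟨e, he, i, j, hij, hi, hj⟩ := hf 0 3 (by decide)
  have hi' : i = 0 := by rw [← h0, hi]; rfl
  have hj' : j = 3 := by rw [← h3, hj]; rfl
  subst hi' hj'
  have hr : ∀ i j, F.Adj i j → (f i).1.val < 3 → Rel k (f i).1 (f j).1 (f i).2 (f j).2 :=
    fun i j hij hi => badj_rel (hf i j hij) hi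
  have r04 := hr 0 4 (by decide) (by rw [h0]; decide)
  have r13 := hr 1 3 (by decide) (by rw [h1]; decide)
  have r14 := hr 1 4 (by decide) (by rw [h1]; decide)
  have r05 := hr 0 5 (by decide) (by rw [h0]; decide)
  have r15 := hr 1 5 (by decide) (by rw [h1]; decide)
  have a0 : (f 0).2 = phi 0 ((4 * k + e.1.val : ℕ) : ZMod p) ((e.2.1.val : ℕ) : ZMod p) e.2.2 := by
    rw [hi]; rfl
  have a3 : (f 3).2 = phi 3 ((4 * k + e.1.val : ℕ) : ZMod p) ((e.2.1.val : ℕ) : ZMod p) e.2.2 := by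
    rw [hj]; rfl
  have hU := inU (p := p) k e.1
  have hS := inS (p := p) k e.2.1
  rw [h0, h4, a0] at r04
  rw [h1, h3, a3] at r13
  rw [h1, h4] at r14
  obtain ⟨a1, a4⟩ := trick hp r04 r13 r14
  rw [h0, a0] at r05
  rw [h1, a1] at r15
  have f0 : f 0 = Phi k 0 e := hi
  have f3 : f 3 = Phi k 3 e := hj
  have f1 : f 1 = Phi k 1 e := Prod.ext h1 a1
  have f4 : f 4 = Phi k 4 e := Prod.ext h4 a4
  have f5 : f 5 = Phi k 5 e := by
    have ad := badj_adj (hf 0 5 (by decide))
    rw [h0] at ad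
    rcases adj0 _ ad with h | h | h
    · rw [h] at r05 r15
      have := u03 r05 r15
      have h' : f 5 = f 3 := by rw [f3]; exact Prod.ext h this
      exact absurd (hinj h') (by decide)
    · rw [h] at r05 r15
      have := u04 r05 r15
      have h' : f 5 = f 4 := by rw [f4]; exact Prod.ext h this
      exact absurd (hinj h') (by decide)
    · rw [h] at r05 r15
      exact Prod.ext h (u05 (us_ne hk hU hS) r05 r15)
  have f2 : f 2 = Phi k 2 e := by
    have ad := badj_adj (hf 2 3 (by decide))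
    rw [h3] at ad
    have hlt : (f 2).1.val < 3 := side2 _ _ ad (by decide)
    have r23 := hr 2 3 (by decide) hlt
    have r24 := hr 2 4 (by decide) hlt
    rw [h3, a3] at r23
    rw [h4, a4] at r24
    rcases adj3 _ ad with h | h | h
    · rw [h] at r23 r24
      have := u30 hk r23 r24
      have h' : f 2 = f 0 := by rw [f0]; exact Prod.ext h this
      exact absurd (hinj h') (by decide)
    · rw [h] at r23 r24
      have := u31 hk hU r23 r24
      have h' : f 2 = f 1 := by rw [f1]; exact Prod.ext h this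
      exact absurd (hinj h') (by decide)
    · rw [h] at r23 r24
      exact Prod.ext h (u32 hk hU r23 r24)
  refine ⟨e, he, Equiv.refl _, fun i j => Iff.rfl, ?_⟩
  intro i
  fin_cases i
  · exact f0
  · exact f1
  · exact f2
  · exact f3
  · exact f4
  · exact f5

theorem autos : (∀ i j, F.Adj i j ↔ F.Adj (Equiv.swap (0 : Fin 6) 1 i) (Equiv.swap (0 : Fin 6) 1 j)) ∧
    (∀ i j, F.Adj i j ↔ F.Adj (Equiv.swap (3 : Fin 6) 4 i) (Equiv.swap (3 : Fin 6) 4 j)) := by
  decide

/-- exchange the two sides -/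
def flip : Equiv.Perm (Fin 6) where
  toFun := ![3, 4, 5, 0, 1, 2]
  invFun := ![3, 4, 5, 0, 1, 2]
  left_inv := by decide
  right_inv := by decide

theorem auto_flip : ∀ i j, F.Adj i j ↔ F.Adj (flip i) (flip j) := by
  decide

theorem sideP {k : ℕ} (hk : 16 * k < p) (hp : p % 4 = 3) (T : Finset (Par p k))
    (f : Fin 6 → Fin 6 × ZMod p × ZMod p) (hinj : Function.Injective f)
    (hf : ∀ i j, F.Adj i j → BAdj T (f i) (f j)) (h0 : (f 0).1.val < 3) : Concl T f := by
  have hA : ∀ i j, F.Adj i j → F.Adj (f i).1 (f j).1 := fun i j h => badj_adj (hf i j h)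
  have h3 : 3 ≤ (f 3).1.val := side1 _ _ (hA 0 3 (by decide)) h0
  have h4 : 3 ≤ (f 4).1.val := side1 _ _ (hA 0 4 (by decide)) h0
  have h1 : (f 1).1.val < 3 := side2 _ _ (hA 1 3 (by decide)) h3
  have h2 : (f 2).1.val < 3 := side2 _ _ (hA 2 3 (by decide)) h3
  have hr : ∀ i j, F.Adj i j → (f i).1.val < 3 → Rel k (f i).1 (f j).1 (f i).2 (f j).2 :=
    fun i j hij hi => badj_rel (hf i j hij) hi
  have A := heavyP hk (f 0) (f 1) (hinj.ne (by decide)) h0 h1 (f ∘ ![3, 4, 5])
    (hinj.comp (by decide)) (fun m => by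
      fin_cases m
      · exact hr 0 3 (by decide) h0
      · exact hr 0 4 (by decide) h0
      · exact hr 0 5 (by decide) h0) (fun m => by
      fin_cases m
      · exact hr 1 3 (by decide) h1
      · exact hr 1 4 (by decide) h1
      · exact hr 1 5 (by decide) h1)
  have B := heavyQ hk (f 3) (f 4) (hinj.ne (by decide)) h3 h4 (f ∘ ![0, 1, 2])
    (hinj.comp (by decide)) (fun m => by
      fin_cases m
      · exact hr 0 3 (by decide) h0
      · exact hr 1 3 (by decide) h1
      · exact hr 2 3 (by decide) h2) (fun m => by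
      fin_cases m
      · exact hr 0 4 (by decide) h0
      · exact hr 1 4 (by decide) h1
      · exact hr 2 4 (by decide) h2)
  rcases A with ⟨A0, A1⟩ | ⟨A0, A1⟩ <;> rcases B with ⟨B0, B1⟩ | ⟨B0, B1⟩
  · exact core hk hp T f hinj hf A0 A1 B0 B1
  · apply concl_comp T f _ autos.2
    exact core hk hp T _ (hinj.comp (Equiv.injective _))
      (fun i j hij => hf _ _ ((autos.2 i j).1 hij)) A0 A1 B1 B0
  · apply concl_comp T f _ autos.1
    exact core hk hp T _ (hinj.comp (Equiv.injective _))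
      (fun i j hij => hf _ _ ((autos.1 i j).1 hij)) A1 A0 B0 B1
  · apply concl_comp T f _ autos.1
    apply concl_comp T _ _ autos.2
    exact core hk hp T _ ((hinj.comp (Equiv.injective _)).comp (Equiv.injective _))
      (fun i j hij => hf _ _ ((autos.1 _ _).1 ((autos.2 i j).1 hij))) A1 A0 B1 B0

/-- every copy of `F` in the union is planted -/
theorem structure_thm {k : ℕ} (hk : 16 * k < p) (hp : p % 4 = 3) (T : Finset (Par p k))
    (f : Fin 6 → Fin 6 × ZMod p × ZMod p) (hinj : Function.Injective f)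
    (hf : ∀ i j, F.Adj i j → BAdj T (f i) (f j)) : Concl T f := by
  by_cases h0 : (f 0).1.val < 3
  · exact sideP hk hp T f hinj hf h0
  · apply concl_comp T f _ auto_flip
    refine sideP hk hp T _ (hinj.comp (Equiv.injective _))
      (fun i j hij => hf _ _ ((auto_flip i j).1 hij)) ?_
    exact side3 _ _ (badj_adj (hf 0 3 (by decide))) (by omega)

section graph

variable {k : ℕ} {V : Type} (g : (Fin 6 × ZMod p × ZMod p) ≃ V) (T : Finset (Par p k))

/-- the union of the planted copies with parameters in `T` -/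
def H : SimpleGraph V where
  Adj x y := BAdj T (g.symm x) (g.symm y)
  symm := ⟨fun _ _ h => badj_symm h⟩
  loopless := ⟨fun _ h => F.irrefl (badj_adj h)⟩

/-- the planted copy with parameter `e` -/
def cp (e : Par p k) : (H g T).Subgraph where
  verts := {x | ∃ i, g.symm x = Phi k i e}
  Adj x y := e ∈ T ∧ ∃ i j, F.Adj i j ∧ g.symm x = Phi k i e ∧ g.symm y = Phi k j e
  adj_sub := fun ⟨he, i, j, hij, hx, hy⟩ => ⟨e, he, i, j, hij, hx, hy⟩
  edge_vert := fun ⟨_, i, _, _, hx, _⟩ => ⟨i, hx⟩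
  symm := ⟨fun _ _ ⟨he, i, j, hij, hx, hy⟩ => ⟨he, j, i, hij.symm, hy, hx⟩⟩

theorem Phi_inj {i j : Fin 6} {e e' : Par p k} (h : Phi k i e = Phi k j e') : i = j := by
  have := congrArg Prod.fst h
  exact this

/-- the planted subgraphs are copies of `F` -/
def cpIso (e : Par p k) (he : e ∈ T) : F ≃g (cp g T e).coe where
  toFun i := ⟨g (Phi k i e), i, by simp⟩
  invFun x := (g.symm x.1).1
  left_inv i := by simp [Phi]
  right_inv x := by
    obtain ⟨x, i, hi⟩ := x
    apply Subtype.ext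
    simp only
    rw [← Equiv.eq_symm_apply, hi]
    rfl
  map_rel_iff' := by
    intro i j
    constructor
    · rintro ⟨_, i', j', h, h1, h2⟩
      simp only [Equiv.coe_fn_mk, Equiv.symm_apply_apply] at h1 h2
      rw [Phi_inj h1, Phi_inj h2]
      exact h
    · intro h
      exact ⟨he, i, j, h, by simp, by simp⟩

/-- every copy of `F` is a planted copy -/
theorem eq_cp (hk : 16 * k < p) (hp : p % 4 = 3) (S : (H g T).Subgraph)
    (ι : F ≃g S.coe) : ∃ e ∈ T, S = cp g T e := by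
  have hinj : Function.Injective fun i => g.symm (ι i : V) :=
    g.symm.injective.comp (Subtype.val_injective.comp ι.injective)
  obtain ⟨e, he, π, hπ, hf⟩ := structure_thm hk hp T (fun i => g.symm (ι i : V)) hinj
    (fun i j hij => by
      have h1 : S.coe.Adj (ι i) (ι j) := ι.map_rel_iff.2 hij
      exact S.adj_sub h1)
  replace hf : ∀ i, g.symm (ι i : V) = Phi k (π i) e := hf
  refine ⟨e, he, ?_⟩
  have back : ∀ (x : V) (j : Fin 6), g.symm x = Phi k j e → x = (ι (π.symm j) : V) := by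
    intro x j hx
    apply g.symm.injective
    rw [hf (π.symm j)]
    simpa using hx
  have forth : ∀ (x : V) (hx : x ∈ S.verts), g.symm x = Phi k (π (ι.symm ⟨x, hx⟩)) e := by
    intro x hx
    rw [← hf]
    simp
  apply SimpleGraph.Subgraph.ext
  · ext x
    constructor
    · intro hx
      exact ⟨_, forth x hx⟩
    · rintro ⟨j, hj⟩
      rw [back x j hj]
      exact (ι (π.symm j)).2
  · ext x y
    constructor
    · intro hxy
      have hx : x ∈ S.verts := S.edge_vert hxy
      have hy : y ∈ S.verts := S.edge_vert hxy.symm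
      refine ⟨he, _, _, ?_, forth x hx, forth y hy⟩
      rw [← hπ]
      rw [← ι.map_rel_iff]
      simpa using hxy
    · rintro ⟨_, i, j, hij, hx, hy⟩
      rw [back x i hx, back y j hy]
      have : F.Adj (π.symm i) (π.symm j) := by
        rw [hπ]
        simpa using hij
      exact ι.map_rel_iff.2 this

theorem cp_disj (hk : 16 * k < p) (e e' : Par p k) (hne : e ≠ e') :
    Disjoint (cp g T e).edgeSet (cp g T e').edgeSet := by
  rw [Set.disjoint_left]
  intro s
  induction s using Sym2.ind with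
  | _ x y =>
    rw [SimpleGraph.Subgraph.mem_edgeSet, SimpleGraph.Subgraph.mem_edgeSet]
    rintro ⟨_, i, j, hij, hx, hy⟩ ⟨_, i', j', hij', hx', hy'⟩
    have hi : i = i' := Phi_inj (hx.symm.trans hx')
    have hj : j = j' := Phi_inj (hy.symm.trans hy')
    subst hi hj
    exact hne (edge_inj hk i j hij e e' (hx.symm.trans hx') (hy.symm.trans hy'))

theorem cp_inj (hk : 16 * k < p) (e e' : Par p k) (he : e ∈ T) (h : cp g T e = cp g T e') :
    e = e' := by
  by_contra hne
  have := cp_disj g T hk e e' hne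
  rw [← h, disjoint_self] at this
  have h1 : s(g (Phi k 0 e), g (Phi k 3 e)) ∈ (cp g T e).edgeSet := by
    rw [SimpleGraph.Subgraph.mem_edgeSet]
    exact ⟨he, 0, 3, by decide, by simp, by simp⟩
  rw [this] at h1
  exact h1

theorem planted (hk : 16 * k < p) (hp : p % 4 = 3) :
    ∃ 𝓕 : Finset (H g T).Subgraph, 𝓕.card = T.card ∧
      (∀ S ∈ 𝓕, ∀ S' ∈ 𝓕, S ≠ S' → Disjoint S.edgeSet S'.edgeSet) ∧
      (⋃ S ∈ 𝓕, S.edgeSet) = (H g T).edgeSet ∧
      ∀ S : (H g T).Subgraph, Nonempty (F ≃g S.coe) ↔ S ∈ 𝓕 := by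
  classical
  refine ⟨T.image (cp g T), ?_, ?_, ?_, ?_⟩
  · apply Finset.card_image_of_injOn
    intro e he e' _ h
    exact cp_inj g T hk e e' he h
  · intro S hS S' hS' hne
    obtain ⟨e, he, rfl⟩ := Finset.mem_image.1 hS
    obtain ⟨e', he', rfl⟩ := Finset.mem_image.1 hS'
    exact cp_disj g T hk e e' (fun h => hne (by rw [h]))
  · ext s
    constructor
    · intro hs
      obtain ⟨S, _, hs⟩ := Set.mem_iUnion₂.1 hs
      exact S.edgeSet_subset hs
    · induction s using Sym2.ind with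
      | _ x y =>
        rintro ⟨e, he, i, j, hij, hx, hy⟩
        refine Set.mem_iUnion₂.2 ⟨cp g T e, Finset.mem_image_of_mem _ he, ?_⟩
        rw [SimpleGraph.Subgraph.mem_edgeSet]
        exact ⟨he, i, j, hij, hx, hy⟩
  · intro S
    constructor
    · rintro ⟨ι⟩
      obtain ⟨e, he, rfl⟩ := eq_cp g T hk hp S ι
      exact Finset.mem_image_of_mem _ he
    · intro hS
      obtain ⟨e, he, rfl⟩ := Finset.mem_image.1 hS
      exact ⟨cpIso g T e he⟩

end graph

end Pool.Agent.Helper903.EDF
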