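import Mathlib

set_option autoImplicit false

namespace Pool.Agent.Helper903.Tau

open Finset

/-- `A` is `5`-independent in `ZMod n`. -/
def Ind5 (n : ℕ) (A : Finset (ZMod n)) : Prop :=
  ∀ c : ZMod n → ℤ, 1 ≤ ∑ a ∈ A, |c a| → ∑ a ∈ A, |c a| ≤ 5 → ∑ a ∈ A, c a • a ≠ 0

lemma key {n : ℕ} {A : Finset (ZMod n)} (hA : Ind5 n A) {m : ℕ} (hm : m ≤ 5) (s : Fin m → ℤ)
    (hs : ∀ i, |s i| = 1) (a : Fin m → ZMod n) (ha : ∀ i, a i ∈ A) (h0 : ∑ i, s i • a i = 0) :
    ∀ x, ∑ i with a i = x, s i = 0 := by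
  classical
  set c : ZMod n → ℤ := fun x => ∑ i with a i = x, s i with hc
  have h1 : ∑ x ∈ A, c x • x = 0 := by
    rw [← h0, ← Finset.sum_fiberwise_of_maps_to (s := univ) (t := A) (g := a) (fun i _ => ha i)]
    apply Finset.sum_congr rfl
    intro x _
    rw [hc, Finset.sum_smul]
    apply Finset.sum_congr rfl
    intro i hi
    simp only [mem_filter, mem_univ, true_and] at hi
    rw [hi]
  have h2 : ∑ x ∈ A, |c x| ≤ 5 := by
    calc ∑ x ∈ A, |c x| ≤ ∑ x ∈ A, ∑ i with a i = x, |s i| :=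
          sum_le_sum fun x _ => abs_sum_le_sum_abs _ _
      _ = ∑ i, |s i| := sum_fiberwise_of_maps_to (fun i _ => ha i) _
      _ = m := by simp [hs]
      _ ≤ 5 := by exact_mod_cast hm
  have h3 : ∑ x ∈ A, |c x| = 0 := by
    by_contra h
    have : 1 ≤ ∑ x ∈ A, |c x| := by
      have := Finset.sum_nonneg (s := A) (f := fun x => |c x|) (fun x _ => abs_nonneg _)
      omega
    exact hA c this h2 h1
  intro x
  by_cases hx : x ∈ A
  · have := (Finset.sum_eq_zero_iff_of_nonneg (fun x _ => abs_nonneg _)).1 h3 x hx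
    simpa using this
  · apply Finset.sum_eq_zero
    intro i hi
    simp only [mem_filter, mem_univ, true_and] at hi
    exact absurd (hi ▸ ha i) hx

lemma key_sum {n : ℕ} {A : Finset (ZMod n)} (hA : Ind5 n A) {m : ℕ} (hm : m ≤ 5) (s : Fin m → ℤ)
    (hs : ∀ i, |s i| = 1) (a : Fin m → ZMod n) (ha : ∀ i, a i ∈ A) (h0 : ∑ i, s i • a i = 0) :
    ∑ i, s i = 0 := by
  classical
  rw [← Finset.sum_fiberwise_of_maps_to (s := univ) (t := A) (g := a) (fun i _ => ha i)]
  exact Finset.sum_eq_zero fun x _ => key hA hm s hs a ha h0 x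

/-- signed element -/
lemma signed {n : ℕ} {A : Finset (ZMod n)} {b : ZMod n} (hb : b ∈ A ∨ -b ∈ A) :
    ∃ s : ℤ, ∃ a ∈ A, (s = 1 ∨ s = -1) ∧ b = s • a := by
  rcases hb with h | h
  · exact ⟨1, b, h, Or.inl rfl, by simp⟩
  · exact ⟨-1, -b, h, Or.inr rfl, by simp⟩

lemma no_neg {n : ℕ} {A : Finset (ZMod n)} (hA : Ind5 n A) {a : ZMod n} (h1 : a ∈ A)
    (h2 : -a ∈ A) : False := by
  have := key_sum hA (m := 2) (by norm_num) ![1, 1] (by intro i; fin_cases i <;> simp)
    ![a, -a] (by intro i; fin_cases i <;> simp [h1, h2]) (by simp [Fin.sum_univ_two])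
  simp [Fin.sum_univ_two] at this

lemma five {n : ℕ} {A : Finset (ZMod n)} (hA : Ind5 n A) (b : Fin 5 → ZMod n)
    (hb : ∀ i, b i ∈ A ∨ -(b i) ∈ A) : ∑ i, b i ≠ 0 := by
  intro h0
  choose s a ha hs hsa using fun i => signed (hb i)
  have hs' : ∀ i, |s i| = 1 := by
    intro i; rcases hs i with h | h <;> simp [h]
  have := key_sum hA (m := 5) le_rfl s hs' a ha (by rw [← h0]; exact sum_congr rfl fun i _ => (hsa i).symm)
  rw [Fin.sum_univ_five] at this
  rcases hs 0 with h | h <;> rcases hs 1 with h' | h' <;> rcases hs 2 with h'' | h'' <;>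
    rcases hs 3 with h''' | h''' <;> rcases hs 4 with h'''' | h'''' <;>
    rw [h, h', h'', h''', h''''] at this <;> norm_num at this

lemma four {n : ℕ} {A : Finset (ZMod n)} (hA : Ind5 n A) {b1 b2 b3 b4 : ZMod n}
    (h1 : b1 ∈ A ∨ -b1 ∈ A) (h2 : b2 ∈ A ∨ -b2 ∈ A) (h3 : b3 ∈ A ∨ -b3 ∈ A)
    (h4 : b4 ∈ A ∨ -b4 ∈ A) (h0 : b1 + b2 = b3 + b4) (hne : b1 + b2 ≠ 0) :
    (b1 = b3 ∧ b2 = b4) ∨ (b1 = b4 ∧ b2 = b3) := by
  obtain ⟨s1, a1, ha1, hs1, e1⟩ := signed h1
  obtain ⟨s2, a2, ha2, hs2, e2⟩ := signed h2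
  obtain ⟨s3, a3, ha3, hs3, e3⟩ := signed h3
  obtain ⟨s4, a4, ha4, hs4, e4⟩ := signed h4
  have hk := key hA (m := 4) (by norm_num) ![s1, s2, -s3, -s4]
    (by
      intro i; fin_cases i
      · rcases hs1 with h | h <;> simp [h]
      · rcases hs2 with h | h <;> simp [h]
      · rcases hs3 with h | h <;> simp [h]
      · rcases hs4 with h | h <;> simp [h])
    ![a1, a2, a3, a4] (by intro i; fin_cases i <;> simp [*])
    (by
      rw [Fin.sum_univ_four]
      simp only [Matrix.cons_val_zero, Matrix.cons_val_one, Matrix.cons_val]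
      rw [neg_smul, neg_smul, ← e1, ← e2, ← e3, ← e4]
      linear_combination h0) a1
  rw [Finset.sum_filter, Fin.sum_univ_four] at hk
  simp only [Matrix.cons_val_zero, Matrix.cons_val_one, Matrix.cons_val, if_true] at hk
  have hcase : (a2 = a1 ∧ s2 = -s1) ∨ (a3 = a1 ∧ s3 = s1) ∨ (a4 = a1 ∧ s4 = s1) := by
    by_contra hcon
    push Not at hcon
    obtain ⟨c2, c3, c4⟩ := hcon
    have d2 : ∀ h : a2 = a1, s2 = s1 := by
      intro h; have := c2 h; omega
    have d3 : ∀ h : a3 = a1, s3 = -s1 := by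
      intro h; have := c3 h; omega
    have d4 : ∀ h : a4 = a1, s4 = -s1 := by
      intro h; have := c4 h; omega
    split_ifs at hk with g2 g3 g4 g4 g3 g4 g4 <;>
      first
        | (have := d2 g2; have := d3 g3; have := d4 g4; omega)
        | (have := d2 g2; have := d3 g3; omega)
        | (have := d2 g2; have := d4 g4; omega)
        | (have := d3 g3; have := d4 g4; omega)
        | (have := d2 g2; omega)
        | (have := d3 g3; omega)
        | (have := d4 g4; omega)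
        | omega
  rcases hcase with ⟨q1, q2⟩ | ⟨q1, q2⟩ | ⟨q1, q2⟩
  · exfalso; apply hne; rw [e1, e2, q1, q2]; simp
  · left
    have : b1 = b3 := by rw [e1, e3, q1, q2]
    refine ⟨this, ?_⟩
    rw [this] at h0
    exact add_left_cancel h0
  · right
    have : b1 = b4 := by rw [e1, e4, q1, q2]
    refine ⟨this, ?_⟩
    rw [this, add_comm b3] at h0
    exact add_left_cancel h0

end Pool.Agent.Helper903.Tau
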