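import Mathlib
import Pool.Agent.Helper903.TauA

set_option autoImplicit false

namespace Pool.Agent.Helper903.Tau

open Finset

section fourier
variable {p : ℕ} [Fact p.Prime]

/-- Fourier coefficient of a finite set. -/
noncomputable def hat (B : Finset (ZMod p)) (r : ZMod p) : ℂ :=
  ∑ b ∈ B, ZMod.stdAddChar (r * b)

lemma orth {ι : Type*} (I : Finset ι) (F : ι → ZMod p) :
    ∑ r : ZMod p, ∑ i ∈ I, ZMod.stdAddChar (r * F i) = (p : ℂ) * ((#{i ∈ I | F i = 0} : ℕ) : ℂ) := by
  classical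
  rw [sum_comm]
  have : ∀ i ∈ I, ∑ r : ZMod p, (ZMod.stdAddChar (r * F i) : ℂ) = if F i = 0 then (p : ℂ) else 0 := by
    intro i _
    rw [AddChar.sum_mulShift _ (ZMod.isPrimitive_stdAddChar p)]
    simp [ZMod.card]
  rw [sum_congr rfl this, sum_ite, sum_const_zero, add_zero, sum_const, nsmul_eq_mul, mul_comm]

lemma conj_char (x : ZMod p) :
    (starRingEnd ℂ) (ZMod.stdAddChar x : ℂ) = ZMod.stdAddChar (-x) := by
  rw [AddChar.map_neg_eq_conj]

lemma hat_conj (B : Finset (ZMod p)) (r : ZMod p) :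
    (starRingEnd ℂ) (hat B r) = hat B (-r) := by
  simp only [hat, map_sum, conj_char, neg_mul]

lemma hat_neg (B : Finset (ZMod p)) (hB : ∀ b ∈ B, -b ∈ B) (r : ZMod p) :
    hat B (-r) = hat B r := by
  simp only [hat]
  apply Finset.sum_nbij' (fun b => -b) (fun b => -b) <;> simp +contextual [hB]

lemma hat_real (B : Finset (ZMod p)) (hB : ∀ b ∈ B, -b ∈ B) (r : ZMod p) :
    (((hat B r).re : ℝ) : ℂ) = hat B r := by
  apply Complex.conj_eq_iff_re.1
  rw [hat_conj, hat_neg B hB]

lemma hat_zero (B : Finset (ZMod p)) : hat B 0 = (#B : ℂ) := by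
  simp [hat]

/-- `x ↦ hat B x * hat C x * ...` products as sums over the product set. -/
lemma hat_mul (B C : Finset (ZMod p)) (r : ZMod p) :
    hat B r * hat C r = ∑ x ∈ B ×ˢ C, ZMod.stdAddChar (r * (x.1 + x.2)) := by
  rw [hat, hat, sum_mul_sum, sum_product]
  apply sum_congr rfl; intro b _
  apply sum_congr rfl; intro c _
  rw [mul_add, AddChar.map_add_eq_mul]

lemma hat_mul_conj (C : Finset (ZMod p)) (r : ZMod p) :
    hat C r * (starRingEnd ℂ) (hat C r) = ∑ x ∈ C ×ˢ C, ZMod.stdAddChar (r * (x.1 - x.2)) := by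
  rw [hat, map_sum, sum_mul_sum, sum_product]
  apply sum_congr rfl; intro b _
  apply sum_congr rfl; intro c _
  rw [mul_sub, sub_eq_add_neg, AddChar.map_add_eq_mul, conj_char]

lemma sum_mul_sum_char {ι κ : Type*} (I : Finset ι) (J : Finset κ) (F : ι → ZMod p)
    (G : κ → ZMod p) (r : ZMod p) :
    (∑ i ∈ I, (ZMod.stdAddChar (r * F i) : ℂ)) * (∑ j ∈ J, (ZMod.stdAddChar (r * G j) : ℂ)) =
      ∑ x ∈ I ×ˢ J, ZMod.stdAddChar (r * (F x.1 + G x.2)) := by
  rw [sum_mul_sum, sum_product]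
  apply sum_congr rfl; intro b _
  apply sum_congr rfl; intro c _
  rw [mul_add, AddChar.map_add_eq_mul]

end fourier

section count
variable {p : ℕ}

/-- number of representations of `y` as a sum of two elements of `B` -/
def N2 (B : Finset (ZMod p)) (y : ZMod p) : ℕ := #{x ∈ B ×ˢ B | x.1 + x.2 = y}

lemma N2_zero_le (B : Finset (ZMod p)) : N2 B 0 ≤ #B := by
  unfold N2
  apply Finset.card_le_card_of_injOn (fun x => x.1)
  · intro x hx
    simp only [coe_filter, mem_product, Set.mem_ofPred_eq] at hx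
    exact hx.1.1
  · intro x hx y hy hxy
    simp only [coe_filter, mem_product, Set.mem_ofPred_eq] at hx hy
    have h1 : x.2 = -x.1 := by linear_combination hx.2
    have h2 : y.2 = -y.1 := by linear_combination hy.2
    ext
    · exact hxy
    · simp only at hxy
      rw [h1, h2, hxy]

/-- Sidon-type property of the symmetrised set -/
def SymSidon (B : Finset (ZMod p)) : Prop :=
  ∀ b1 ∈ B, ∀ b2 ∈ B, ∀ b3 ∈ B, ∀ b4 ∈ B, b1 + b2 = b3 + b4 → b1 + b2 ≠ 0 →
    (b1 = b3 ∧ b2 = b4) ∨ (b1 = b4 ∧ b2 = b3)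

lemma N2_le (B : Finset (ZMod p)) (hB : SymSidon B) (y : ZMod p) (hy : y ≠ 0) : N2 B y ≤ 2 := by
  classical
  unfold N2
  rcases Finset.eq_empty_or_nonempty {x ∈ B ×ˢ B | x.1 + x.2 = y} with h | ⟨⟨b1, b2⟩, hb⟩
  · rw [h]; simp
  · simp only [mem_filter, mem_product] at hb
    have : {x ∈ B ×ˢ B | x.1 + x.2 = y} ⊆ {(b1, b2), (b2, b1)} := by
      intro ⟨c1, c2⟩ hc
      simp only [mem_filter, mem_product] at hc
      have := hB c1 hc.1.1 c2 hc.1.2 b1 hb.1.1 b2 hb.1.2 (by rw [hc.2, hb.2]) (by rw [hc.2]; exact hy)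
      simp only [mem_insert, mem_singleton, Prod.mk.injEq]
      exact this
    exact (card_le_card this).trans card_le_two

/-- pairs from an arbitrary family with `F x + b + b' = 0` -/
lemma count_le {ι : Type*} (I : Finset ι) (F : ι → ZMod p) (B : Finset (ZMod p)) (hB : SymSidon B) :
    #{x ∈ I ×ˢ (B ×ˢ B) | F x.1 + (x.2.1 + x.2.2) = 0} ≤
      2 * #I + #B * #{i ∈ I | F i = 0} := by
  classical
  have h1 : #{x ∈ I ×ˢ (B ×ˢ B) | F x.1 + (x.2.1 + x.2.2) = 0} =
      ∑ i ∈ I, N2 B (-(F i)) := by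
    rw [card_filter, sum_product]
    apply sum_congr rfl; intro i _
    rw [N2, card_filter]
    apply sum_congr rfl; intro x _
    simp only [eq_neg_iff_add_eq_zero, add_comm (F i)]
  rw [h1]
  calc ∑ i ∈ I, N2 B (-(F i)) ≤ ∑ i ∈ I, (2 + if F i = 0 then #B else 0) := by
        apply sum_le_sum; intro i _
        split_ifs with h
        · rw [h, neg_zero]
          have := N2_zero_le B
          omega
        · have := N2_le B hB (-(F i)) (by simpa using h)
          omega
    _ = 2 * #I + #B * #{i ∈ I | F i = 0} := by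
        rw [sum_add_distrib, sum_const, sum_ite, sum_const_zero, sum_const]
        simp [mul_comm]

end count

end Pool.Agent.Helper903.Tau
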