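import Mathlib
import Pool.Agent.Helper903.TauB

set_option autoImplicit false

namespace Pool.Agent.Helper903.Tau

open Finset

variable {p : ℕ} [Fact p.Prime]

/-- real Fourier coefficient -/
noncomputable def h (B : Finset (ZMod p)) (r : ZMod p) : ℝ := (hat B r).re

lemma h_eq (B : Finset (ZMod p)) (hB : ∀ b ∈ B, -b ∈ B) (r : ZMod p) :
    ((h B r : ℝ) : ℂ) = hat B r := hat_real B hB r

lemma h_zero (B : Finset (ZMod p)) : h B 0 = #B := by
  simp [h, hat_zero]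

lemma h_neg (B : Finset (ZMod p)) (hB : ∀ b ∈ B, -b ∈ B) (r : ZMod p) : h B (-r) = h B r := by
  rw [h, hat_neg B hB, h]

lemma pow4 (B : Finset (ZMod p)) (hB : ∀ b ∈ B, -b ∈ B) (hS : SymSidon B) :
    ∑ r, (h B r) ^ 4 ≤ 3 * p * (#B : ℝ) ^ 2 := by
  classical
  have e1 : ((∑ r, (h B r) ^ 4 : ℝ) : ℂ) =
      ((p * (#{x ∈ (B ×ˢ B) ×ˢ (B ×ˢ B) | (x.1.1 + x.1.2) + (x.2.1 + x.2.2) = 0} : ℕ) : ℝ) : ℂ) := by
    push_cast
    rw [← orth]
    apply sum_congr rfl; intro r _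
    rw [h_eq B hB, show hat B r ^ 4 = (hat B r * hat B r) * (hat B r * hat B r) by ring, hat_mul,
      sum_mul_sum_char]
  rw [Complex.ofReal_inj.1 e1]
  have e2 := count_le (B ×ˢ B) (fun x => x.1 + x.2) B hS
  have e3 : #{i ∈ B ×ˢ B | i.1 + i.2 = 0} ≤ #B := N2_zero_le B
  have e4 : (#{x ∈ (B ×ˢ B) ×ˢ (B ×ˢ B) | (x.1.1 + x.1.2) + (x.2.1 + x.2.2) = 0} : ℕ) ≤
      3 * #B ^ 2 := by
    refine e2.trans ?_
    rw [card_product]
    nlinarith
  have e5 : ((#{x ∈ (B ×ˢ B) ×ˢ (B ×ˢ B) | (x.1.1 + x.1.2) + (x.2.1 + x.2.2) = 0} : ℕ) : ℝ) ≤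
      3 * (#B : ℝ) ^ 2 := by exact_mod_cast e4
  have : (0 : ℝ) ≤ p := by positivity
  nlinarith

lemma pow5 (B : Finset (ZMod p)) (hB : ∀ b ∈ B, -b ∈ B)
    (h5 : ∀ b : Fin 5 → ZMod p, (∀ i, b i ∈ B) → ∑ i, b i ≠ 0) :
    ∑ r, (h B r) ^ 5 = 0 := by
  classical
  have e1 : ((∑ r, (h B r) ^ 5 : ℝ) : ℂ) =
      ((p * (#{x ∈ ((B ×ˢ B) ×ˢ (B ×ˢ B)) ×ˢ B |
        ((x.1.1.1 + x.1.1.2) + (x.1.2.1 + x.1.2.2)) + x.2 = 0} : ℕ) : ℝ) : ℂ) := by
    push_cast
    rw [← orth]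
    apply sum_congr rfl; intro r _
    rw [h_eq B hB, show hat B r ^ 5 = ((hat B r * hat B r) * (hat B r * hat B r)) * hat B r by ring,
      hat_mul, sum_mul_sum_char]
    conv_lhs => rw [hat]
    rw [sum_mul_sum_char _ _ (fun x : (ZMod p × ZMod p) × (ZMod p × ZMod p) =>
      (x.1.1 + x.1.2) + (x.2.1 + x.2.2)) (fun b => b)]
  rw [Complex.ofReal_inj.1 e1]
  have : #{x ∈ ((B ×ˢ B) ×ˢ (B ×ˢ B)) ×ˢ B |
        ((x.1.1.1 + x.1.1.2) + (x.1.2.1 + x.1.2.2)) + x.2 = 0} = 0 := by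
    rw [card_eq_zero, filter_eq_empty_iff]
    rintro ⟨⟨⟨a, b⟩, ⟨c, d⟩⟩, e⟩ hx h0
    simp only [mem_product] at hx
    apply h5 ![a, b, c, d, e]
    · intro i; fin_cases i <;> simp [hx]
    · rw [Fin.sum_univ_five]
      simp only [Matrix.cons_val_zero, Matrix.cons_val_one, Matrix.cons_val]
      linear_combination h0
  rw [this]; simp

lemma mixed (B C : Finset (ZMod p)) (hB : ∀ b ∈ B, -b ∈ B) (hS : SymSidon B) :
    ∑ r, Complex.normSq (hat C r) * (h B r) ^ 2 ≤ p * (2 * (#C : ℝ) ^ 2 + #B * #C) := by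
  classical
  have e1 : ((∑ r, Complex.normSq (hat C r) * (h B r) ^ 2 : ℝ) : ℂ) =
      ((p * (#{x ∈ (C ×ˢ C) ×ˢ (B ×ˢ B) | (x.1.1 - x.1.2) + (x.2.1 + x.2.2) = 0} : ℕ) : ℝ) : ℂ) := by
    push_cast
    rw [← orth]
    apply sum_congr rfl; intro r _
    rw [h_eq B hB, ← Complex.mul_conj, hat_mul_conj, pow_two, hat_mul,
      sum_mul_sum_char _ _ (fun x : ZMod p × ZMod p => x.1 - x.2)]
  rw [Complex.ofReal_inj.1 e1]
  have e2 := count_le (C ×ˢ C) (fun x => x.1 - x.2) B hS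
  have e3 : #{i ∈ C ×ˢ C | i.1 - i.2 = 0} ≤ #C := by
    apply Finset.card_le_card_of_injOn (fun x => x.1)
    · intro x hx
      simp only [coe_filter, mem_product, Set.mem_ofPred_eq] at hx
      exact hx.1.1
    · intro x hx y hy hxy
      simp only [coe_filter, mem_product, Set.mem_ofPred_eq] at hx hy
      have h1 : x.2 = x.1 := (sub_eq_zero.1 hx.2).symm
      have h2 : y.2 = y.1 := (sub_eq_zero.1 hy.2).symm
      ext
      · exact hxy
      · simp only at hxy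
        rw [h1, h2, hxy]
  have e4 : (#{x ∈ (C ×ˢ C) ×ˢ (B ×ˢ B) | (x.1.1 - x.1.2) + (x.2.1 + x.2.2) = 0} : ℕ) ≤
      2 * #C ^ 2 + #B * #C := by
    refine e2.trans ?_
    rw [card_product]
    nlinarith [Nat.mul_le_mul_left (#B) e3]
  have e5 : ((#{x ∈ (C ×ˢ C) ×ˢ (B ×ˢ B) | (x.1.1 - x.1.2) + (x.2.1 + x.2.2) = 0} : ℕ) : ℝ) ≤
      2 * (#C : ℝ) ^ 2 + #B * #C := by exact_mod_cast e4
  have : (0 : ℝ) ≤ p := by positivity
  exact mul_le_mul_of_nonneg_left e5 this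

lemma re_char (u v : ℕ) (M : ℕ) (hM : 0 < M) (huv : |(u : ℝ) - v| * M ≤ p) :
    1 - 20 / (M : ℝ) ^ 2 ≤ (ZMod.stdAddChar ((u : ZMod p) - (v : ZMod p)) : ℂ).re := by
  have hp : (0 : ℝ) < p := by exact_mod_cast (Fact.out : p.Prime).pos
  have e : ((u : ZMod p) - (v : ZMod p)) = (((u : ℤ) - (v : ℤ) : ℤ) : ZMod p) := by push_cast; rfl
  rw [e, ZMod.stdAddChar_coe]
  have e2 : (2 * Real.pi * Complex.I * (((u : ℤ) - (v : ℤ) : ℤ) : ℂ) / (p : ℂ)) =
      ((2 * Real.pi * ((u : ℝ) - v) / p : ℝ) : ℂ) * Complex.I := by push_cast; ring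
  rw [e2, Complex.exp_ofReal_mul_I_re]
  have h1 := Real.one_sub_sq_div_two_le_cos (x := 2 * Real.pi * ((u : ℝ) - v) / p)
  refine le_trans ?_ h1
  have hM' : (0 : ℝ) < M := by exact_mod_cast hM
  have h2 : (2 * Real.pi * ((u : ℝ) - v) / p) ^ 2 ≤ 40 / (M : ℝ) ^ 2 := by
    have h3 : |(u : ℝ) - v| / p ≤ 1 / M := by
      rw [div_le_div_iff₀ hp hM']; linarith
    have h4 : (((u : ℝ) - v) / p) ^ 2 ≤ (1 / (M : ℝ)) ^ 2 := by
      rw [← sq_abs, abs_div, abs_of_pos hp]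
      exact pow_le_pow_left₀ (by positivity) h3 2
    have hpi : Real.pi ^ 2 ≤ 10 := by
      have := Real.pi_lt_d2
      have := Real.pi_pos
      nlinarith
    calc (2 * Real.pi * ((u : ℝ) - v) / p) ^ 2 = 4 * Real.pi ^ 2 * (((u : ℝ) - v) / p) ^ 2 := by ring
      _ ≤ 4 * 10 * (1 / (M : ℝ)) ^ 2 := by
          apply mul_le_mul _ h4 (by positivity) (by positivity)
          linarith
      _ = 40 / (M : ℝ) ^ 2 := by ring
  have : (20 : ℝ) / (M : ℝ) ^ 2 = 40 / (M : ℝ) ^ 2 / 2 := by ring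
  rw [this]
  linarith

/-- cell of the Bohr partition -/
lemma exists_cell (R : Finset (ZMod p)) (M : ℕ) (hM : 0 < M) :
    ∃ C : Finset (ZMod p), C.Nonempty ∧ p ≤ #C * M ^ #R ∧
      ∀ r ∈ R, (1 - 20 / (M : ℝ) ^ 2) * (#C : ℝ) ^ 2 ≤ Complex.normSq (hat C r) := by
  classical
  have hp : 0 < p := (Fact.out : p.Prime).pos
  let φ : ZMod p → (R → Fin M) := fun x r =>
    ⟨M * ((r : ZMod p) * x).val / p, by
      rw [Nat.div_lt_iff_lt_mul hp]
      have := ZMod.val_lt ((r : ZMod p) * x)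
      nlinarith⟩
  have : Nonempty (Fin M) := ⟨⟨0, hM⟩⟩
  have hcard : Fintype.card (R → Fin M) = M ^ #R := by simp
  have hsum : ∑ y : R → Fin M, #{x | φ x = y} = p := by
    rw [← Finset.card_eq_sum_card_fiberwise (fun x _ => mem_univ (φ x)), card_univ, ZMod.card]
  obtain ⟨y, _, hy⟩ := Finset.exists_le_of_sum_le (s := (univ : Finset (R → Fin M)))
    (f := fun _ => p) (g := fun y => #{x | φ x = y} * M ^ #R) univ_nonempty
    (by rw [sum_const, card_univ, hcard, ← sum_mul, hsum, smul_eq_mul, mul_comm])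
  have hCpos : 0 < #{x | φ x = y} := by
    rcases Nat.eq_zero_or_pos (#{x | φ x = y}) with h0 | h0
    · rw [h0] at hy; omega
    · exact h0
  refine ⟨({x | φ x = y} : Finset (ZMod p)), card_pos.1 hCpos, hy, ?_⟩
  intro r hr
  set C : Finset (ZMod p) := {x | φ x = y} with hC
  have key : ∀ x ∈ C ×ˢ C, 1 - 20 / (M : ℝ) ^ 2 ≤
      (ZMod.stdAddChar (r * (x.1 - x.2)) : ℂ).re := by
    rintro ⟨c, d⟩ hx
    simp only [mem_product, hC, mem_filter, mem_univ, true_and] at hx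
    have h1 : M * (r * c).val / p = M * (r * d).val / p := by
      have h2 := congrFun (hx.1.trans hx.2.symm) ⟨r, hr⟩
      simpa [φ] using h2
    have h3 : |((r * c).val : ℝ) - (r * d).val| * M ≤ p := by
      have a1 := Nat.div_add_mod (M * (r * c).val) p
      have a2 := Nat.div_add_mod (M * (r * d).val) p
      have b1 := Nat.mod_lt (M * (r * c).val) hp
      have b2 := Nat.mod_lt (M * (r * d).val) hp
      rw [h1] at a1
      set q := p * (M * (r * d).val / p)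
      have c1 : (M * (r * c).val : ℕ) ≤ M * (r * d).val + p := by omega
      have c2 : (M * (r * d).val : ℕ) ≤ M * (r * c).val + p := by omega
      have d1 : (M : ℝ) * (r * c).val ≤ M * (r * d).val + p := by exact_mod_cast c1
      have d2 : (M : ℝ) * (r * d).val ≤ M * (r * c).val + p := by exact_mod_cast c2
      have hM' : (0 : ℝ) < M := by exact_mod_cast hM
      rw [← abs_of_pos hM', ← abs_mul, abs_le]
      constructor <;> nlinarith
    have h4 := re_char (p := p) (r * c).val (r * d).val M hM h3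
    rw [ZMod.natCast_zmod_val, ZMod.natCast_zmod_val, ← mul_sub] at h4
    exact h4
  have e1 : (Complex.normSq (hat C r) : ℝ) =
      ∑ x ∈ C ×ˢ C, (ZMod.stdAddChar (r * (x.1 - x.2)) : ℂ).re := by
    rw [← Complex.re_sum, ← hat_mul_conj, Complex.mul_conj, Complex.ofReal_re]
  rw [e1]
  have e2 := Finset.card_nsmul_le_sum (C ×ˢ C) _ _ key
  rw [card_product, nsmul_eq_mul] at e2
  push_cast at e2
  linarith [e2, mul_comm (1 - 20 / (M : ℝ) ^ 2) ((#C : ℝ) ^ 2), pow_two (#C : ℝ)]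

end Pool.Agent.Helper903.Tau
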