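import Mathlib
import Pool.Agent.Helper903.TauC

set_option autoImplicit false

namespace Pool.Agent.Helper903.Tau

open Finset

variable {p : ℕ} [Fact p.Prime]

/-- large-sieve type inequality for boundedly many frequencies -/
lemma L2 (B : Finset (ZMod p)) (hB : ∀ b ∈ B, -b ∈ B) (hS : SymSidon B) (R : Finset (ZMod p))
    (h0R : (0 : ZMod p) ∉ R) (M : ℕ) (hM : 0 < M) :
    (1 - 20 / (M : ℝ) ^ 2) * ((#B : ℝ) ^ 2 + ∑ r ∈ R, (h B r) ^ 2) ≤
      2 * p + #B * (M : ℝ) ^ #R := by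
  classical
  obtain ⟨C, hC, hp, hR⟩ := exists_cell R M hM
  have hCpos : (0 : ℝ) < #C := by exact_mod_cast hC.card_pos
  have h1 := mixed B C hB hS
  have h2 : (1 - 20 / (M : ℝ) ^ 2) * ((#B : ℝ) ^ 2 + ∑ r ∈ R, (h B r) ^ 2) * (#C : ℝ) ^ 2 ≤
      ∑ r, Complex.normSq (hat C r) * (h B r) ^ 2 := by
    calc (1 - 20 / (M : ℝ) ^ 2) * ((#B : ℝ) ^ 2 + ∑ r ∈ R, (h B r) ^ 2) * (#C : ℝ) ^ 2
        = ∑ r ∈ insert 0 R, ((1 - 20 / (M : ℝ) ^ 2) * (#C : ℝ) ^ 2) * (h B r) ^ 2 := by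
          rw [sum_insert h0R, h_zero, ← mul_sum]; ring
      _ ≤ ∑ r ∈ insert 0 R, Complex.normSq (hat C r) * (h B r) ^ 2 := by
          apply sum_le_sum
          intro r hr
          apply mul_le_mul_of_nonneg_right _ (sq_nonneg _)
          rcases mem_insert.1 hr with h | h
          · rw [h, hat_zero, Complex.normSq_natCast]
            have : (0 : ℝ) ≤ 20 / (M : ℝ) ^ 2 := by positivity
            nlinarith [pow_pos hCpos 2]
          · exact hR r h
      _ ≤ ∑ r, Complex.normSq (hat C r) * (h B r) ^ 2 := by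
          apply sum_le_sum_of_subset_of_nonneg (subset_univ _)
          intro r _ _
          exact mul_nonneg (Complex.normSq_nonneg _) (sq_nonneg _)
  have h3 := h2.trans h1
  have hp' : (p : ℝ) ≤ #C * (M : ℝ) ^ #R := by exact_mod_cast hp
  have h4 : (p : ℝ) * (2 * (#C : ℝ) ^ 2 + #B * #C) ≤ (2 * p + #B * (M : ℝ) ^ #R) * (#C : ℝ) ^ 2 := by
    have : (#B : ℝ) * #C * p ≤ #B * #C * (#C * (M : ℝ) ^ #R) :=
      mul_le_mul_of_nonneg_left hp' (by positivity)
    nlinarith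
  exact le_of_mul_le_mul_right (h3.trans h4) (by positivity)

lemma h_le (B : Finset (ZMod p)) (r : ZMod p) : |h B r| ≤ #B := by
  have h1 : |h B r| ≤ ‖hat B r‖ := Complex.abs_re_le_norm _
  refine h1.trans ?_
  unfold hat
  refine (norm_sum_le _ _).trans ?_
  simp

/-- double angle -/
lemma h_double (B : Finset (ZMod p)) (r : ZMod p) :
    2 * (h B r) ^ 2 - (#B : ℝ) ^ 2 ≤ h B (2 * r) * #B := by
  have e1 : ∀ b : ZMod p, (ZMod.stdAddChar (2 * r * b) : ℂ).re =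
      2 * (ZMod.stdAddChar (r * b) : ℂ).re ^ 2 - 1 := by
    intro b
    have e2 : (ZMod.stdAddChar (2 * r * b) : ℂ) = (ZMod.stdAddChar (r * b) : ℂ) ^ 2 := by
      rw [pow_two, ← AddChar.map_add_eq_mul]; congr 1; ring
    have e3 : ‖(ZMod.stdAddChar (r * b) : ℂ)‖ = 1 := by simp
    have e4 := Complex.sq_norm (ZMod.stdAddChar (r * b) : ℂ)
    rw [e3, Complex.normSq_apply] at e4
    rw [e2, pow_two, Complex.mul_re]
    nlinarith
  have e5 : h B (2 * r) = 2 * ∑ b ∈ B, (ZMod.stdAddChar (r * b) : ℂ).re ^ 2 - #B := by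
    unfold h hat
    rw [Complex.re_sum, sum_congr rfl (fun b _ => e1 b), sum_sub_distrib, ← mul_sum]
    simp
  have e6 : (h B r) ^ 2 ≤ #B * ∑ b ∈ B, (ZMod.stdAddChar (r * b) : ℂ).re ^ 2 := by
    unfold h hat
    rw [Complex.re_sum]
    exact sq_sum_le_card_mul_sum_sq
  rw [e5]
  nlinarith

end Pool.Agent.Helper903.Tau
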