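import Mathlib
import Pool.Agent.Helper903.TauD

set_option autoImplicit false

namespace Pool.Agent.Helper903.Tau

open Finset

lemma poly_bound (s : ℝ) (hs : 0 ≤ s) : s ^ 5 - s ^ 7 ≤ 0.12321 := by
  have h0 : 0 ≤ (s - 0.845) ^ 2 := sq_nonneg _
  have h1 : 0 ≤ s * (s - 0.845) ^ 2 := by positivity
  have h2 : 0 ≤ s ^ 2 * (s - 0.845) ^ 2 := by positivity
  have h3 : 0 ≤ s ^ 3 * (s - 0.845) ^ 2 := by positivity
  have h4 : 0 ≤ s ^ 4 * (s - 0.845) ^ 2 := by positivity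
  have h5 : 0 ≤ s ^ 5 * (s - 0.845) ^ 2 := by positivity
  nlinarith

lemma abstract_contra {p : ℕ} [Fact p.Prime] (hp2 : 2 < p) (β : ZMod p → ℝ) (q : ℝ)
    (hq : 0.666 * q ≤ 1) (N0 : ℕ) (hN0 : (282000000000 : ℝ) ≤ N0)
    (b4 : ∑ r, β r ^ 4 ≤ 3 * q) (b5 : ∑ r, β r ^ 5 = 0) (b0 : β 0 = 1) (habs : ∀ r, |β r| ≤ 1)
    (hneg : ∀ r, β (-r) = β r) (hdbl : ∀ r, 2 * β r ^ 2 - 1 ≤ β (2 * r))
    (hL2 : ∀ R : Finset (ZMod p), (0 : ZMod p) ∉ R → #R ≤ N0 → ∑ r ∈ R, β r ^ 2 ≤ 2.0034) :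
    False := by
  classical
  set R : Finset (ZMod p) := univ.filter (fun r => r ≠ 0 ∧ 0.002 ≤ |β r|) with hR
  have hcard : #R ≤ N0 := by
    have h1 : (#R : ℝ) * (0.002 : ℝ) ^ 4 ≤ ∑ r ∈ R, β r ^ 4 := by
      rw [← nsmul_eq_mul]
      apply Finset.card_nsmul_le_sum
      intro r hr
      simp only [hR, mem_filter, mem_univ, true_and] at hr
      have : β r ^ 4 = |β r| ^ 4 := by
        rw [← abs_pow]; exact (abs_of_nonneg (by positivity)).symm
      rw [this]
      exact pow_le_pow_left₀ (by norm_num) hr.2 4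
    have h2 : ∑ r ∈ R, β r ^ 4 ≤ ∑ r, β r ^ 4 :=
      sum_le_sum_of_subset_of_nonneg (subset_univ _) (fun r _ _ => by positivity)
    have h3 : (#R : ℝ) ≤ 282000000000 := by
      have h4 : (#R : ℝ) * (0.002 : ℝ) ^ 4 ≤ 3 * q := h1.trans (h2.trans b4)
      norm_num at h4
      linarith
    exact_mod_cast h3.trans hN0
  have h0R : (0 : ZMod p) ∉ R := by simp [hR]
  have hS2 := hL2 R h0R hcard
  -- the tail
  have htail : - (0.00901 : ℝ) ≤ ∑ r ∈ (univ.erase (0 : ZMod p)) \ R, β r ^ 5 := by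
    have h1 : ∀ r ∈ (univ.erase (0 : ZMod p)) \ R, -(0.002 * β r ^ 4) ≤ β r ^ 5 := by
      intro r hr
      simp only [hR, mem_sdiff, mem_erase, mem_univ, and_true, mem_filter, true_and, not_and,
        not_le] at hr
      have h2 := hr.2 hr.1
      have h3 : -(0.002 : ℝ) ≤ β r := by
        have := neg_abs_le (β r)
        linarith
      have h4 : 0 ≤ β r ^ 4 := by positivity
      nlinarith
    have h5 := sum_le_sum h1
    rw [sum_neg_distrib, ← mul_sum] at h5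
    have h6 : ∑ r ∈ (univ.erase (0 : ZMod p)) \ R, β r ^ 4 ≤ ∑ r, β r ^ 4 :=
      sum_le_sum_of_subset_of_nonneg (subset_univ _) (fun r _ _ => by positivity)
    nlinarith
  have hRsub : R ⊆ univ.erase (0 : ZMod p) := by
    intro r hr
    simp only [hR, mem_filter, mem_univ, true_and] at hr
    simp [hr.1]
  have hsum : 1 + (∑ r ∈ R, β r ^ 5 + ∑ r ∈ (univ.erase (0 : ZMod p)) \ R, β r ^ 5) = 0 := by
    rw [← b5, ← Finset.add_sum_erase univ _ (mem_univ (0 : ZMod p)), b0, one_pow,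
      add_comm (∑ r ∈ R, β r ^ 5), sum_sdiff hRsub]
  -- negative part
  set Rn := R.filter (fun r => β r < 0) with hRn
  have hnegpart : ∑ r ∈ Rn, β r ^ 5 ≤ ∑ r ∈ R, β r ^ 5 := by
    rw [← Finset.sum_filter_add_sum_filter_not R (fun r => β r < 0)]
    have : 0 ≤ ∑ r ∈ R.filter (fun r => ¬ β r < 0), β r ^ 5 := by
      apply sum_nonneg
      intro r hr
      simp only [mem_filter, not_lt] at hr
      exact pow_nonneg hr.2 5
    linarith
  have hlow : ∑ r ∈ Rn, β r ^ 5 ≤ - 0.99099 := by linarith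
  have hne : Rn.Nonempty := by
    rw [Finset.nonempty_iff_ne_empty]
    intro h
    rw [h, sum_empty] at hlow
    norm_num at hlow
  obtain ⟨r0, hr0, hmin⟩ := Finset.exists_min_image Rn β hne
  set g := -β r0 with hg
  have hr0' : r0 ∈ R ∧ β r0 < 0 := by simpa [hRn] using hr0
  have hr0ne : r0 ≠ 0 := by
    have := hr0'.1
    simp only [hR, mem_filter, mem_univ, true_and] at this
    exact this.1
  have hg0 : 0 < g := by rw [hg]; linarith [hr0'.2]
  have hg1 : g ≤ 1 := by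
    have := neg_abs_le (β r0)
    have := habs r0
    rw [hg]; linarith
  have hterm : ∀ r ∈ Rn, - β r ^ 5 ≤ g ^ 3 * β r ^ 2 := by
    intro r hr
    have h1 := hmin r hr
    have h2 : β r < 0 := by
      have : r ∈ R ∧ β r < 0 := by simpa [hRn] using hr
      exact this.2
    have h3 : -β r ≤ g := by rw [hg]; linarith
    have h4 : (-β r) ^ 3 ≤ g ^ 3 := pow_le_pow_left₀ (by linarith) h3 3
    have h5 : 0 ≤ β r ^ 2 := by positivity
    nlinarith
  have hmain : (0.99099 : ℝ) ≤ g ^ 3 * ∑ r ∈ Rn, β r ^ 2 := by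
    have := sum_le_sum hterm
    rw [sum_neg_distrib, ← mul_sum] at this
    linarith
  have hRn_le : ∑ r ∈ Rn, β r ^ 2 ≤ ∑ r ∈ R, β r ^ 2 :=
    sum_le_sum_of_subset_of_nonneg (filter_subset _ _) (fun r _ _ => by positivity)
  have hg3 : 0 ≤ g ^ 3 := by positivity
  have hbr : β r0 ^ 2 = g ^ 2 := by rw [hg]; ring
  by_cases hc : 2 * g ^ 2 - 1 ≤ 0.002
  · have h1 : g ^ 2 ≤ 0.501 := by linarith
    have h2 : g ≤ 0.708 := by nlinarith
    have h3 : g ^ 3 ≤ 0.708 ^ 3 := pow_le_pow_left₀ hg0.le h2 3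
    have h4 : g ^ 3 * ∑ r ∈ Rn, β r ^ 2 ≤ 0.708 ^ 3 * 2.0034 :=
      mul_le_mul h3 (hRn_le.trans hS2) (sum_nonneg fun r _ => by positivity) (by norm_num)
    norm_num at h4
    linarith
  · push Not at hc
    have hd := hdbl r0
    rw [hbr] at hd
    have hne2 : (2 : ZMod p) ≠ 0 := by
      intro h
      have : ((2 : ℕ) : ZMod p) = 0 := by exact_mod_cast h
      rw [ZMod.natCast_eq_zero_iff] at this
      exact absurd (Nat.le_of_dvd (by norm_num) this) (by omega)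
    have h2r : 2 * r0 ≠ 0 := mul_ne_zero hne2 hr0ne
    have hdist : 2 * r0 ≠ -(2 * r0) := by
      intro h
      have : 2 * (2 * r0) = 0 := by linear_combination h
      exact (mul_ne_zero hne2 h2r) this
    have hin1 : 2 * r0 ∈ R := by
      simp only [hR, mem_filter, mem_univ, true_and]
      refine ⟨h2r, ?_⟩
      have := le_abs_self (β (2 * r0))
      linarith
    have hin2 : -(2 * r0) ∈ R := by
      simp only [hR, mem_filter, mem_univ, true_and]
      refine ⟨neg_ne_zero.2 h2r, ?_⟩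
      rw [hneg]
      have := le_abs_self (β (2 * r0))
      linarith
    have hsub : Rn ⊆ R \ {2 * r0, -(2 * r0)} := by
      intro r hr
      have : r ∈ R ∧ β r < 0 := by simpa [hRn] using hr
      simp only [mem_sdiff, mem_insert, mem_singleton, not_or]
      refine ⟨this.1, ?_, ?_⟩
      · rintro rfl; linarith [this.2]
      · rintro rfl
        rw [hneg] at this
        linarith [this.2]
    have hpair : ({2 * r0, -(2 * r0)} : Finset (ZMod p)) ⊆ R := by
      intro r hr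
      simp only [mem_insert, mem_singleton] at hr
      rcases hr with h | h <;> rw [h] <;> assumption
    have hs1 : ∑ r ∈ Rn, β r ^ 2 ≤ ∑ r ∈ R \ {2 * r0, -(2 * r0)}, β r ^ 2 :=
      sum_le_sum_of_subset_of_nonneg hsub (fun r _ _ => by positivity)
    have hs2 := sum_sdiff (f := fun r => β r ^ 2) hpair
    rw [sum_pair hdist, hneg] at hs2
    have hs3 : (2 * g ^ 2 - 1) ^ 2 ≤ β (2 * r0) ^ 2 := pow_le_pow_left₀ (by linarith) hd 2
    have hs4 : ∑ r ∈ Rn, β r ^ 2 ≤ 2.0034 - 2 * (2 * g ^ 2 - 1) ^ 2 := by linarith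
    have hs5 : g ^ 3 * ∑ r ∈ Rn, β r ^ 2 ≤ g ^ 3 * (2.0034 - 2 * (2 * g ^ 2 - 1) ^ 2) :=
      mul_le_mul_of_nonneg_left hs4 hg3
    have hs6 : g ^ 3 * (2.0034 - 2 * (2 * g ^ 2 - 1) ^ 2) = 0.0034 * g ^ 3 + 8 * (g ^ 5 - g ^ 7) := by
      ring
    have hs7 := poly_bound g hg0.le
    have hs8 : g ^ 3 ≤ 1 := pow_le_one₀ hg0.le hg1
    linarith

end Pool.Agent.Helper903.Tau
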