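import Mathlib
import Pool.Agent.Helper903.TauE

set_option autoImplicit false

namespace Pool.Agent.Helper903.Tau

open Finset

theorem upper : ∃ P0 : ℕ, ∀ p : ℕ, p.Prime → P0 ≤ p → ∀ A : Finset (ZMod p), Ind5 p A →
    (#A : ℝ) ^ 2 ≤ 0.1665 * p := by
  classical
  obtain ⟨N0, hN0⟩ : ∃ N0 : ℕ, (282000000000 : ℝ) ≤ N0 := exists_nat_ge _
  obtain ⟨P0, hP0⟩ : ∃ P0 : ℕ, 2 * (100000 * (400 : ℝ) ^ N0) ^ 2 ≤ P0 := exists_nat_ge _
  refine ⟨P0 + 3, ?_⟩
  intro p hp hpP A hA
  have : Fact p.Prime := ⟨hp⟩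
  by_contra hcon
  push Not at hcon
  set B : Finset (ZMod p) := A ∪ A.image (fun a => -a) with hBdef
  have hmem : ∀ b, b ∈ B ↔ (b ∈ A ∨ -b ∈ A) := by
    intro b
    simp only [hBdef, mem_union, mem_image]
    constructor
    · rintro (h | ⟨a, ha, rfl⟩)
      · exact Or.inl h
      · right; simpa using ha
    · rintro (h | h)
      · exact Or.inl h
      · exact Or.inr ⟨-b, h, by simp⟩
  have hBneg : ∀ b ∈ B, -b ∈ B := by
    intro b hb
    rw [hmem] at hb ⊢
    rw [neg_neg]
    exact hb.symm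
  have hS : SymSidon B := by
    intro b1 h1 b2 h2 b3 h3 b4 h4 e hne
    exact four hA ((hmem _).1 h1) ((hmem _).1 h2) ((hmem _).1 h3) ((hmem _).1 h4) e hne
  have h5 : ∀ b : Fin 5 → ZMod p, (∀ i, b i ∈ B) → ∑ i, b i ≠ 0 := by
    intro b hb
    exact five hA b (fun i => (hmem _).1 (hb i))
  have hcardB : #B = 2 * #A := by
    rw [hBdef, card_union_of_disjoint, card_image_of_injective _ neg_injective]
    · ring
    · rw [Finset.disjoint_left]
      intro a ha h
      rw [mem_image] at h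
      obtain ⟨a', ha', h'⟩ := h
      apply no_neg hA ha
      rw [← h', neg_neg]
      exact ha'
  have hp3 : (3 : ℝ) ≤ p := by exact_mod_cast (by omega : 3 ≤ p)
  set K : ℝ := (#B : ℝ) with hK
  have hKA : K = 2 * #A := by rw [hK, hcardB]; push_cast; ring
  have hKsq : 0.666 * (p : ℝ) < K ^ 2 := by
    rw [hKA]; nlinarith
  have hKpos : 0 < K := by
    rcases lt_or_eq_of_le (Nat.cast_nonneg (α := ℝ) #B) with h | h
    · exact h
    · exfalso
      rw [hK, ← h] at hKsq
      norm_num at hKsq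
      linarith
  have hPp : (P0 : ℝ) ≤ p := by exact_mod_cast (by omega : P0 ≤ p)
  set Z : ℝ := (400 : ℝ) ^ N0 with hZ
  have hZpos : 0 < Z := by positivity
  have hKZ : 100000 * Z ≤ K := by
    apply le_of_sq_le_sq _ hKpos.le
    have : 2 * (100000 * Z) ^ 2 ≤ p := hP0.trans hPp
    have : 0 ≤ (100000 * Z) ^ 2 := by positivity
    linarith
  -- apply the abstract lemma
  apply abstract_contra (p := p) (by omega) (fun r => h B r / K) ((p : ℝ) / K ^ 2)
    (by rw [← mul_div_assoc, div_le_one (by positivity)]; exact hKsq.le) N0 hN0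
  · simp only [div_pow]
    rw [← Finset.sum_div]
    have := pow4 B hBneg hS
    rw [div_le_iff₀ (by positivity)]
    calc ∑ r, h B r ^ 4 ≤ 3 * p * K ^ 2 := this
      _ = 3 * (p / K ^ 2) * K ^ 4 := by field_simp
  · simp only [div_pow]
    rw [← Finset.sum_div, pow5 B hBneg h5, zero_div]
  · show h B 0 / K = 1
    rw [h_zero, ← hK, div_self hKpos.ne']
  · intro r
    show |h B r / K| ≤ 1
    rw [abs_div, abs_of_pos hKpos, div_le_one hKpos]
    exact h_le B r
  · intro r
    show h B (-r) / K = h B r / K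
    rw [h_neg B hBneg]
  · intro r
    show 2 * (h B r / K) ^ 2 - 1 ≤ h B (2 * r) / K
    have := h_double B r
    rw [le_div_iff₀ hKpos]
    have e : (2 * (h B r / K) ^ 2 - 1) * K = (2 * h B r ^ 2 - K ^ 2) / K := by
      field_simp
    rw [e, div_le_iff₀ hKpos]
    exact this
  · intro R h0R hRN
    have h1 := L2 B hBneg hS R h0R 400 (by norm_num)
    rw [← hK] at h1
    have h2 : (400 : ℝ) ^ #R ≤ Z := pow_le_pow_right₀ (by norm_num) hRN
    have h3 : K * (400 : ℝ) ^ #R ≤ K * (K / 100000) := by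
      apply mul_le_mul_of_nonneg_left _ hKpos.le
      rw [le_div_iff₀ (by norm_num)]
      linarith
    simp only [div_pow]
    rw [← Finset.sum_div, div_le_iff₀ (by positivity)]
    push_cast at h1
    nlinarith

end Pool.Agent.Helper903.Tau
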