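import Mathlib
import Pool.Agent.Helper903.TauA

set_option autoImplicit false

namespace Pool.Agent.Helper903.Tau

open Finset

lemma count_ms {G : Type*} [DecidableEq G] (A : Finset G) (f : G → ℕ) (x : G) :
    Multiset.count x (∑ a ∈ A, f a • ({a} : Multiset G)) = if x ∈ A then f x else 0 := by
  rw [Multiset.count_sum']
  simp only [Multiset.count_nsmul, Multiset.count_singleton, mul_ite, mul_one, mul_zero]
  rw [Finset.sum_ite_eq]

lemma indep_of_sidon {G : Type*} [AddCommGroup G] (A : Finset G) (ψ : G →+ ZMod 6)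
    (hψ : ∀ a ∈ A, ψ a = 1)
    (hS : ∀ a ∈ A, ∀ b ∈ A, ∀ c ∈ A, ∀ d ∈ A, a + b = c + d → (a = c ∧ b = d) ∨ (a = d ∧ b = c))
    (c : G → ℤ) (h1 : 1 ≤ ∑ a ∈ A, |c a|) (h5 : ∑ a ∈ A, |c a| ≤ 5) : ∑ a ∈ A, c a • a ≠ 0 := by
  classical
  intro h0
  have hs0 : ∑ a ∈ A, c a = 0 := by
    have e : ((∑ a ∈ A, c a : ℤ) : ZMod 6) = 0 := by
      have := congrArg ψ h0
      rw [map_sum, map_zero] at this
      rw [← this]
      push_cast
      apply sum_congr rfl
      intro a ha
      rw [map_zsmul, hψ a ha]; simp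
    have hd := (ZMod.intCast_zmod_eq_zero_iff_dvd _ 6).1 e
    have hab : |∑ a ∈ A, c a| ≤ 5 := (abs_sum_le_sum_abs _ _).trans h5
    rw [abs_le] at hab
    obtain ⟨k, hk⟩ := hd
    push_cast at hk
    omega
  set P : Multiset G := ∑ a ∈ A, (c a).toNat • ({a} : Multiset G) with hP
  set N : Multiset G := ∑ a ∈ A, (-c a).toNat • ({a} : Multiset G) with hN
  have cP : (Multiset.card P : ℤ) = ∑ a ∈ A, ((c a).toNat : ℤ) := by
    rw [hP, Multiset.card_sum]; push_cast; apply sum_congr rfl; intro a _; simp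
  have cN : (Multiset.card N : ℤ) = ∑ a ∈ A, ((-c a).toNat : ℤ) := by
    rw [hN, Multiset.card_sum]; push_cast; apply sum_congr rfl; intro a _; simp
  have hdiff : (Multiset.card P : ℤ) - Multiset.card N = 0 := by
    rw [cP, cN, ← sum_sub_distrib, ← hs0]
    apply sum_congr rfl; intro a _; omega
  have hadd : (Multiset.card P : ℤ) + Multiset.card N = ∑ a ∈ A, |c a| := by
    rw [cP, cN, ← sum_add_distrib]
    apply sum_congr rfl; intro a _
    rcases abs_cases (c a) with h | h <;> omega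
  have hsum : P.sum = N.sum := by
    rw [← sub_eq_zero, ← h0, hP, hN]
    rw [Multiset.sum_sum, Multiset.sum_sum, ← sum_sub_distrib]
    apply sum_congr rfl; intro a _
    rw [Multiset.sum_nsmul, Multiset.sum_nsmul, Multiset.sum_singleton, ← natCast_zsmul,
      ← natCast_zsmul, ← sub_smul]
    congr 1
    omega
  have hPA : ∀ x ∈ P, x ∈ A ∧ 0 < (c x).toNat := by
    intro x hx
    have := Multiset.count_pos.2 hx
    rw [hP, count_ms] at this
    split_ifs at this with h
    · exact ⟨h, this⟩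
    · exact absurd this (lt_irrefl 0)
  have hNA : ∀ x ∈ N, x ∈ A ∧ 0 < (-c x).toNat := by
    intro x hx
    have := Multiset.count_pos.2 hx
    rw [hN, count_ms] at this
    split_ifs at this with h
    · exact ⟨h, this⟩
    · exact absurd this (lt_irrefl 0)
  have hdisj : ∀ x, x ∈ P → x ∈ N → False := by
    intro x h h'
    have := (hPA x h).2
    have := (hNA x h').2
    omega
  have hm : Multiset.card P = Multiset.card N := by omega
  have hm2 : Multiset.card P ≤ 2 := by omega
  have hm1 : 1 ≤ Multiset.card P := by omega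
  rcases (by omega : Multiset.card P = 1 ∨ Multiset.card P = 2) with hc | hc
  · obtain ⟨x, hx⟩ := Multiset.card_eq_one.1 hc
    obtain ⟨y, hy⟩ := Multiset.card_eq_one.1 (hm ▸ hc)
    rw [hx, hy, Multiset.sum_singleton, Multiset.sum_singleton] at hsum
    exact hdisj x (by rw [hx]; simp) (by rw [hy, hsum]; simp)
  · obtain ⟨x, y, hx⟩ := Multiset.card_eq_two.1 hc
    obtain ⟨z, w, hy⟩ := Multiset.card_eq_two.1 (hm ▸ hc)
    rw [hx, hy] at hsum
    simp only [Multiset.insert_eq_cons, Multiset.sum_cons, Multiset.sum_singleton] at hsum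
    have hxP : x ∈ P := by rw [hx]; simp
    have hyP : y ∈ P := by rw [hx]; simp
    have hzN : z ∈ N := by rw [hy]; simp
    have hwN : w ∈ N := by rw [hy]; simp
    rcases hS x (hPA x hxP).1 y (hPA y hyP).1 z (hNA z hzN).1 w (hNA w hwN).1 hsum with h | h
    · exact hdisj x hxP (h.1 ▸ hzN)
    · exact hdisj x hxP (h.1 ▸ hwN)

theorem lower (p : ℕ) (hp : p.Prime) (hp3 : 3 < p) :
    ∃ A : Finset (ZMod (p * (6 * (p - 1)))), #A = p - 1 ∧ Ind5 (p * (6 * (p - 1))) A := by
  classical
  have : Fact p.Prime := ⟨hp⟩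
  have hcop : p.Coprime (6 * (p - 1)) := by
    rw [Nat.Prime.coprime_iff_not_dvd hp]
    intro h
    rcases (Nat.Prime.dvd_mul hp).1 h with h | h
    · have : p ∣ 2 * 3 := h
      rcases (Nat.Prime.dvd_mul hp).1 this with h | h
      · have := Nat.le_of_dvd (by norm_num) h; omega
      · have := Nat.le_of_dvd (by norm_num) h; omega
    · have := Nat.le_of_dvd (by omega) h; omega
  set φ := ZMod.chineseRemainder hcop with hφ
  obtain ⟨g, hg⟩ := IsCyclic.exists_generator (α := (ZMod p)ˣ)
  have hord : orderOf g = p - 1 := by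
    rw [orderOf_eq_card_of_forall_mem_zpowers hg, Nat.card_eq_fintype_card, ZMod.card_units]
  let v : ℕ → ZMod p × ZMod (6 * (p - 1)) := fun i =>
    (((g ^ i : (ZMod p)ˣ) : ZMod p), ((6 * i + 1 : ℕ) : ZMod (6 * (p - 1))))
  have hpow : ∀ i j : ℕ, i < p - 1 → j < p - 1 → (g ^ i : (ZMod p)ˣ) = g ^ j → i = j := by
    intro i j hi hj h
    rw [pow_inj_mod, hord, Nat.mod_eq_of_lt hi, Nat.mod_eq_of_lt hj] at h
    exact h
  have hvinj : Set.InjOn v (range (p - 1) : Finset ℕ) := by
    intro i hi j hj h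
    simp only [coe_range, Set.mem_Iio] at hi hj
    have := congrArg Prod.fst h
    exact hpow i j hi hj (Units.ext this)
  refine ⟨(range (p - 1)).image (fun i => φ.symm (v i)), ?_, ?_⟩
  · rw [card_image_of_injOn, card_range]
    intro i hi j hj h
    exact hvinj hi hj (φ.symm.injective h)
  · have hdvd : 6 ∣ 6 * (p - 1) := Dvd.intro _ rfl
    let ψ : ZMod (p * (6 * (p - 1))) →+ ZMod 6 :=
      ((ZMod.castHom hdvd (ZMod 6)).comp ((RingHom.snd _ _).comp φ.toRingHom)).toAddMonoidHom
    intro c h1 h5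
    refine indep_of_sidon _ ψ ?_ ?_ c h1 h5
    · intro a ha
      rw [mem_image] at ha
      obtain ⟨i, _, rfl⟩ := ha
      have : ψ (φ.symm (v i)) = (ZMod.castHom hdvd (ZMod 6)) (v i).2 := by
        simp [ψ]
      rw [this]
      simp only [v]
      rw [map_natCast]
      push_cast
      have h6 : (6 : ZMod 6) = 0 := by decide
      rw [h6]; ring
    · intro a ha b hb c hc d hd habcd
      rw [mem_image] at ha hb hc hd
      obtain ⟨i, hi, rfl⟩ := ha
      obtain ⟨j, hj, rfl⟩ := hb
      obtain ⟨k, hk, rfl⟩ := hc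
      obtain ⟨l, hl, rfl⟩ := hd
      rw [mem_range] at hi hj hk hl
      rw [← map_add, ← map_add] at habcd
      have he := φ.symm.injective habcd
      have he1 : ((g ^ i : (ZMod p)ˣ) : ZMod p) + ((g ^ j : (ZMod p)ˣ) : ZMod p) =
          ((g ^ k : (ZMod p)ˣ) : ZMod p) + ((g ^ l : (ZMod p)ˣ) : ZMod p) := congrArg Prod.fst he
      have he2 : ((6 * i + 1 : ℕ) : ZMod (6 * (p - 1))) + ((6 * j + 1 : ℕ) : ZMod (6 * (p - 1))) =
          ((6 * k + 1 : ℕ) : ZMod (6 * (p - 1))) + ((6 * l + 1 : ℕ) : ZMod (6 * (p - 1))) :=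
        congrArg Prod.snd he
      have he3 : (i + j) % (p - 1) = (k + l) % (p - 1) := by
        rw [← Nat.cast_add, ← Nat.cast_add, ZMod.natCast_eq_natCast_iff] at he2
        have h6 : 6 * (i + j) + 2 ≡ 6 * (k + l) + 2 [MOD 6 * (p - 1)] := by
          have e1 : 6 * i + 1 + (6 * j + 1) = 6 * (i + j) + 2 := by ring
          have e2 : 6 * k + 1 + (6 * l + 1) = 6 * (k + l) + 2 := by ring
          rw [e1, e2] at he2
          exact he2
        have h7 := Nat.ModEq.add_right_cancel' 2 h6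
        exact Nat.ModEq.mul_left_cancel' (by norm_num) h7
      have he4 : ((g ^ i : (ZMod p)ˣ) : ZMod p) * ((g ^ j : (ZMod p)ˣ) : ZMod p) =
          ((g ^ k : (ZMod p)ˣ) : ZMod p) * ((g ^ l : (ZMod p)ˣ) : ZMod p) := by
        rw [← Units.val_mul, ← Units.val_mul, ← pow_add, ← pow_add]
        congr 1
        rw [pow_inj_mod, hord]
        exact he3
      have he5 : (((g ^ i : (ZMod p)ˣ) : ZMod p) - ((g ^ k : (ZMod p)ˣ) : ZMod p)) *
          (((g ^ i : (ZMod p)ˣ) : ZMod p) - ((g ^ l : (ZMod p)ˣ) : ZMod p)) = 0 := by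
        linear_combination ((g ^ i : (ZMod p)ˣ) : ZMod p) * he1 - he4
      rcases mul_eq_zero.1 he5 with h | h
      · left
        have hik : i = k := hpow i k hi hk (Units.ext (sub_eq_zero.1 h))
        subst hik
        have hjl : j = l := hpow j l hj hl (Units.ext (add_left_cancel he1))
        subst hjl
        exact ⟨rfl, rfl⟩
      · right
        have hil : i = l := hpow i l hi hl (Units.ext (sub_eq_zero.1 h))
        subst hil
        rw [add_comm (((g ^ k : (ZMod p)ˣ) : ZMod p))] at he1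
        have hjk : j = k := hpow j k hj hk (Units.ext (add_left_cancel he1))
        subst hjk
        exact ⟨rfl, rfl⟩

end Pool.Agent.Helper903.Tau
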